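import Pool.Agent.Helper536.LK.Defs

open scoped ContDiff Topology
open Set Metric

noncomputable section

namespace Pool.Agent.Helper536.LK

/-- towers of charts, transition maps and potentials -/
structure Tower (E : Type*) [NormedAddCommGroup E] [InnerProductSpace ℂ E] where
  H : ℕ → Dif E
  G : ℕ → Dif E
  R : ℕ → ℝ
  φ : ℕ → E → ℝ
  hR : ∀ j, 0 < R j
  hH : ∀ j x, (H (j + 1)).f x = (G j).f ((H j).f x)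
  hG : ∀ j x, ‖x‖ ≤ R j → ‖(G j).f x‖ < R (j + 1) - 2
  anG : ∀ j x, ‖x‖ ≤ R j → AnalyticAt ℂ (G j).f x
  spsh : ∀ j, Spsh (φ j)
  compat : ∀ j x, ‖x‖ ≤ R j → ∀ a b, lev (φ (j + 1)) ((G j).f x) (fderiv ℝ (G j).f x a)
    (fderiv ℝ (G j).f x b) = lev (φ j) x a b
  shell : ∀ j x, R (j + 1) - 2 ≤ ‖x‖ → ∀ v, ‖v‖ ^ 2 ≤ lev (φ (j + 1)) x v v
  exh : ∀ x, ∃ j, ‖(H j).f x‖ < R j
  key : ∀ P Q : E, P ≠ Q → ∀ δ > 0, ∃ j, ∀ h : E → ℂ, DifferentiableOn ℂ h (ball 0 (R j)) →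
    ∃ P' ∈ ball P δ, ∃ Q' ∈ ball Q δ, ‖h ((H j).f Q')‖ ≤ ‖h ((H j).f P')‖

end Pool.Agent.Helper536.LK
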