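import Pool.Agent.Helper536.LK.SDefs
import Pool.Agent.Helper536.LK.TowerDef

open scoped ContDiff Topology

open Set Metric

noncomputable section

namespace Pool.Agent.Helper536.LK.LA2

section

variable {E F : Type*} [NormedAddCommGroup E] [InnerProductSpace ℂ E]
    [NormedAddCommGroup F] [InnerProductSpace ℂ F]

end

section A

variable {E E' : Type*} [NormedAddCommGroup E] [NormedSpace ℂ E] [NormedAddCommGroup E']
  [NormedSpace ℂ E']

theorem hess_comp_aux [CompleteSpace E] [CompleteSpace E'] {G : E → E'} {φ : E' → ℝ} {x : E}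
    (hG : AnalyticAt ℂ G x) (hφ : ContDiffAt ℝ 2 φ (G x)) (v w : E) :
    hess (fun y => φ (G y)) x v w = hess φ (G x) (fderiv ℝ G x v) (fderiv ℝ G x w) +
      fderiv ℝ φ (G x) (fderiv ℝ (fun y => fderiv ℝ G y) x v w) := by
  have hGR : AnalyticAt ℝ G x := hG.restrictScalars
  have hd1 : ∀ᶠ y in 𝓝 x, DifferentiableAt ℝ G y := by
    filter_upwards [hGR.eventually_analyticAt] with y hy using hy.differentiableAt
  have hd2 : ∀ᶠ z in 𝓝 (G x), DifferentiableAt ℝ φ z := by
    have := hφ.eventually (by simp)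
    filter_upwards [this] with z hz using hz.differentiableAt (by norm_num)
  have hd3 : ∀ᶠ y in 𝓝 x, DifferentiableAt ℝ φ (G y) := hGR.continuousAt.eventually hd2
  have he : (fun y => fderiv ℝ (fun y => φ (G y)) y) =ᶠ[𝓝 x]
      fun y => (fderiv ℝ φ (G y)).comp (fderiv ℝ G y) := by
    filter_upwards [hd1, hd3] with y h1 h3
    exact fderiv_comp y h3 h1
  have hc : HasFDerivAt (fun y => fderiv ℝ φ (G y))
      ((fderiv ℝ (fderiv ℝ φ) (G x)).comp (fderiv ℝ G x)) x := by
    have h1 : DifferentiableAt ℝ (fderiv ℝ φ) (G x) :=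
      (hφ.fderiv_right (m := 1) (by norm_num)).differentiableAt (by norm_num)
    exact h1.hasFDerivAt.comp x hGR.differentiableAt.hasFDerivAt
  have hd : HasFDerivAt (fun y => fderiv ℝ G y) (fderiv ℝ (fun y => fderiv ℝ G y) x) x :=
    (hGR.fderiv.differentiableAt).hasFDerivAt
  have hk := hc.clm_comp hd
  unfold hess
  rw [he.fderiv_eq, hk.fderiv]
  simp [add_comm]

theorem d2_I [CompleteSpace E] [CompleteSpace E'] {G : E → E'} {x : E}
    (hG : AnalyticAt ℂ G x) (v w : E) :
    fderiv ℝ (fun y => fderiv ℝ G y) x (Complex.I • v) (Complex.I • w) =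
      - fderiv ℝ (fun y => fderiv ℝ G y) x v w := by
  have hGR : AnalyticAt ℝ G x := hG.restrictScalars
  have hd : DifferentiableAt ℝ (fun y => fderiv ℝ G y) x := hGR.fderiv.differentiableAt
  have hd1 : ∀ᶠ y in 𝓝 x, DifferentiableAt ℂ G y := by
    filter_upwards [hG.eventually_analyticAt] with y hy using hy.differentiableAt
  have hev : ∀ v w : E, fderiv ℝ (fun y => fderiv ℝ G y) x v w =
      fderiv ℂ (fun y => fderiv ℂ G y) x v w := by
    intro v w
    have h1 : fderiv ℝ (fun y => fderiv ℝ G y) x v w = fderiv ℝ (fun y => fderiv ℝ G y w) x v := by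
      have := (hd.hasFDerivAt.clm_apply (hasFDerivAt_const w x)).fderiv
      rw [this]
      simp
    have h2 : (fun y => fderiv ℝ G y w) =ᶠ[𝓝 x] fun y => fderiv ℂ G y w := by
      filter_upwards [hd1] with y hy
      rw [hy.fderiv_restrictScalars ℝ]
      rfl
    have h3 : DifferentiableAt ℂ (fun y => fderiv ℂ G y) x := hG.fderiv.differentiableAt
    have h4 : HasFDerivAt (𝕜 := ℂ) (fun y => fderiv ℂ G y w)
        ((fderiv ℂ (fun y => fderiv ℂ G y) x).flip w) x := by
      have := h3.hasFDerivAt.clm_apply (hasFDerivAt_const w x)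
      simpa using this
    rw [h1, h2.fderiv_eq, (h4.restrictScalars ℝ).fderiv]
    rfl
  rw [hev, hev, map_smul, map_smul]
  simp only [ContinuousLinearMap.smul_apply]
  rw [smul_smul, Complex.I_mul_I, neg_one_smul]

theorem lev_comp [CompleteSpace E] [CompleteSpace E'] {G : E → E'} {φ : E' → ℝ} {x : E} (hG : AnalyticAt ℂ G x)
    (hφ : ContDiffAt ℝ 2 φ (G x)) (v w : E) :
    lev (fun y => φ (G y)) x v w = lev φ (G x) (fderiv ℝ G x v) (fderiv ℝ G x w) := by
  have hI : ∀ v : E, fderiv ℝ G x (Complex.I • v) = Complex.I • fderiv ℝ G x v := by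
    intro v
    rw [hG.differentiableAt.fderiv_restrictScalars ℝ]
    simp
  unfold lev
  rw [hess_comp_aux hG hφ, hess_comp_aux hG hφ, d2_I hG, hI, hI, map_neg]
  ring

end A



section

variable {E F : Type*} [NormedAddCommGroup E] [InnerProductSpace ℂ E]
    [NormedAddCommGroup F] [InnerProductSpace ℂ F]



end



end Pool.Agent.Helper536.LK.LA2

namespace Pool.Agent.Helper536.LK
alias lev_comp := LA2.lev_comp
end Pool.Agent.Helper536.LK
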