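import Pool.Agent.Helper536.LK.SDefs
import Pool.Agent.Helper536.LK.TowerDef

open scoped ContDiff Topology

open Set Metric

noncomputable section

namespace Pool.Agent.Helper536.LK.LA1

section

variable {E F : Type*} [NormedAddCommGroup E] [InnerProductSpace ℂ E]
    [NormedAddCommGroup F] [InnerProductSpace ℂ F]

end

section A

variable {E E' : Type*} [NormedAddCommGroup E] [NormedSpace ℂ E] [NormedAddCommGroup E']
  [NormedSpace ℂ E']

theorem lev_congr {φ ψ : E → ℝ} {x : E} (h : φ =ᶠ[𝓝 x] ψ) (v w : E) :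
    lev φ x v w = lev ψ x v w := by
  have h1 : fderiv ℝ (fun y => fderiv ℝ φ y) x = fderiv ℝ (fun y => fderiv ℝ ψ y) x :=
    Filter.EventuallyEq.fderiv_eq h.fderiv
  simp only [lev, hess, h1]

theorem lev_diff_near {φ : E → ℝ} {x : E} (hφ : ContDiffAt ℝ 2 φ x) :
    ∀ᶠ y in 𝓝 x, DifferentiableAt ℝ φ y := by
  filter_upwards [hφ.eventually (by simp)] with y hy
  exact hy.differentiableAt (by norm_num)

theorem lev_diff2 {φ : E → ℝ} {x : E} (hφ : ContDiffAt ℝ 2 φ x) :
    DifferentiableAt ℝ (fun y => fderiv ℝ φ y) x := by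
  have h1 : ContDiffAt ℝ 1 (fderiv ℝ φ) x := hφ.fderiv_right (m := 1) (by norm_num)
  exact h1.differentiableAt (by norm_num)

theorem lev_add {φ ψ : E → ℝ} {x : E} (hφ : ContDiffAt ℝ 2 φ x) (hψ : ContDiffAt ℝ 2 ψ x) (v w : E) :
    lev (fun y => φ y + ψ y) x v w = lev φ x v w + lev ψ x v w := by
  have h1 := lev_diff_near hφ
  have h2 := lev_diff_near hψ
  have h3 : (fun y => fderiv ℝ (fun z => φ z + ψ z) y) =ᶠ[𝓝 x]
      fun y => fderiv ℝ φ y + fderiv ℝ ψ y := by
    filter_upwards [h1, h2] with y hy1 hy2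
    exact fderiv_fun_add hy1 hy2
  have h4 : fderiv ℝ (fun y => fderiv ℝ (fun z => φ z + ψ z) y) x =
      fderiv ℝ (fun y => fderiv ℝ φ y) x + fderiv ℝ (fun y => fderiv ℝ ψ y) x := by
    rw [h3.fderiv_eq]
    exact fderiv_fun_add (lev_diff2 hφ) (lev_diff2 hψ)
  simp only [lev, hess, h4]
  simp only [ContinuousLinearMap.add_apply]
  ring

theorem lev_const_mul {φ : E → ℝ} {x : E} (hφ : ContDiffAt ℝ 2 φ x) (c : ℝ) (v w : E) :
    lev (fun y => c * φ y) x v w = c * lev φ x v w := by
  have h1 := lev_diff_near hφ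
  have h3 : (fun y => fderiv ℝ (fun z => c * φ z) y) =ᶠ[𝓝 x] fun y => c • fderiv ℝ φ y := by
    filter_upwards [h1] with y hy1
    exact fderiv_const_mul hy1 c
  have h4 : fderiv ℝ (fun y => fderiv ℝ (fun z => c * φ z) y) x =
      c • fderiv ℝ (fun y => fderiv ℝ φ y) x := by
    rw [h3.fderiv_eq]
    exact fderiv_fun_const_smul (lev_diff2 hφ) c
  simp only [lev, hess, h4]
  simp only [ContinuousLinearMap.smul_apply, smul_eq_mul]
  ring

theorem lev_const (c : ℝ) (x v w : E) : lev (fun _ : E => c) x v w = 0 := by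
  simp [lev, hess]

end A



section

variable {E F : Type*} [NormedAddCommGroup E] [InnerProductSpace ℂ E]
    [NormedAddCommGroup F] [InnerProductSpace ℂ F]



end



end Pool.Agent.Helper536.LK.LA1

namespace Pool.Agent.Helper536.LK
alias lev_congr := LA1.lev_congr
alias lev_add := LA1.lev_add
alias lev_const_mul := LA1.lev_const_mul
alias lev_const := LA1.lev_const
end Pool.Agent.Helper536.LK
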