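import Pool.Agent.Helper536.LK.SDefs
import Pool.Agent.Helper536.LK.TowerDef
import Pool.Agent.Helper536.LK.LA1
import Pool.Agent.Helper536.LK.LA2

open scoped ContDiff Topology

open Set Metric

noncomputable section

namespace Pool.Agent.Helper536.LK.LA3

section

variable {E F : Type*} [NormedAddCommGroup E] [InnerProductSpace ℂ E]
    [NormedAddCommGroup F] [InnerProductSpace ℂ F]

end

section A

variable {E E' : Type*} [NormedAddCommGroup E] [NormedSpace ℂ E] [NormedAddCommGroup E']
  [NormedSpace ℂ E']

theorem lev_affine_11993 (c : ℝ) (z a b : ℂ) : lev (fun w : ℂ => c + w.re) z a b = 0 := by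
  have h1 : (fun y : ℂ => fderiv ℝ (fun w : ℂ => c + w.re) y) = fun _ => Complex.reCLM := by
    funext y
    have h2 : HasFDerivAt (fun w : ℂ => c + w.re) Complex.reCLM y :=
      Complex.reCLM.hasFDerivAt.const_add c
    exact h2.fderiv
  have h3 : ∀ a b : ℂ, hess (fun w : ℂ => c + w.re) z a b = 0 := by
    intro a b
    unfold hess
    rw [h1, fderiv_fun_const]
    simp
  unfold lev
  rw [h3, h3, add_zero]

theorem lev_log_norm [CompleteSpace E] {H : E → ℂ} {x : E} (hH : AnalyticAt ℂ H x) (h0 : H x ≠ 0) (v w : E) :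
    lev (fun y => Real.log ‖H y‖) x v w = 0 := by
  have hG : AnalyticAt ℂ (fun y => Complex.log (H y / H x)) x := by
    apply AnalyticAt.clog
    · exact hH.div analyticAt_const h0
    · rw [div_self h0]
      exact Complex.one_mem_slitPlane
  have hev : (fun y => Real.log ‖H y‖) =ᶠ[𝓝 x]
      (fun y => (fun w : ℂ => Real.log ‖H x‖ + w.re) (Complex.log (H y / H x))) := by
    have h1 : ∀ᶠ y in 𝓝 x, H y ≠ 0 := hH.continuousAt.eventually_ne h0
    filter_upwards [h1] with y hy
    rw [Complex.log_re, norm_div, Real.log_div (norm_ne_zero_iff.2 hy) (norm_ne_zero_iff.2 h0)]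
    ring
  rw [lev_congr hev]
  have hφ : ContDiffAt ℝ 2 (fun w : ℂ => Real.log ‖H x‖ + w.re)
      ((fun y => Complex.log (H y / H x)) x) := by
    apply ContDiff.contDiffAt
    exact contDiff_const.add Complex.reCLM.contDiff
  rw [lev_comp hG hφ]
  exact lev_affine_11993 _ _ _ _

end A



section

variable {E F : Type*} [NormedAddCommGroup E] [InnerProductSpace ℂ E]
    [NormedAddCommGroup F] [InnerProductSpace ℂ F]



end



end Pool.Agent.Helper536.LK.LA3

namespace Pool.Agent.Helper536.LK
alias lev_log_norm := LA3.lev_log_norm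
end Pool.Agent.Helper536.LK
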