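import Pool.Agent.Helper536.LK.SDefs
import Pool.Agent.Helper536.LK.TowerDef

open scoped ContDiff Topology

open Set Metric

noncomputable section

namespace Pool.Agent.Helper536.LK.LA4

section

variable {E F : Type*} [NormedAddCommGroup E] [InnerProductSpace ℂ E]
    [NormedAddCommGroup F] [InnerProductSpace ℂ F]

end

section A

variable {E E' : Type*} [NormedAddCommGroup E] [NormedSpace ℂ E] [NormedAddCommGroup E']
  [NormedSpace ℂ E']

theorem hess_real_comp {M : ℝ → ℝ} {u : E → ℝ} {x : E} (hM : ContDiff ℝ 2 M)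
    (hu : ContDiffAt ℝ 2 u x) (v w : E) :
    hess (fun y => M (u y)) x v w =
      deriv (deriv M) (u x) * (fderiv ℝ u x v * fderiv ℝ u x w) + deriv M (u x) * hess u x v w := by
  have hMd : ∀ s, HasDerivAt M (deriv M s) s := fun s =>
    ((hM.differentiable (by norm_num)) s).hasDerivAt
  have hM1 : ContDiff ℝ 1 (deriv M) := by
    have h1 : ContDiff ℝ (1 + 1) M := by
      have e : (1 + 1 : WithTop ℕ∞) = 2 := by norm_num
      rw [e]; exact hM
    exact (contDiff_succ_iff_deriv.1 h1).2.2
  have hev : ∀ᶠ y in 𝓝 x, fderiv ℝ (fun y => M (u y)) y = deriv M (u y) • fderiv ℝ u y := by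
    filter_upwards [hu.eventually (by simp)] with y hy
    have h1 : HasFDerivAt u (fderiv ℝ u y) y := (hy.differentiableAt (by norm_num)).hasFDerivAt
    exact ((hMd (u y)).comp_hasFDerivAt y h1).fderiv
  have h1 : HasFDerivAt u (fderiv ℝ u x) x := (hu.differentiableAt (by norm_num)).hasFDerivAt
  have h3 : HasFDerivAt (fun y => deriv M (u y)) (deriv (deriv M) (u x) • fderiv ℝ u x) x :=
    (((hM1.differentiable (by norm_num)) (u x)).hasDerivAt).comp_hasFDerivAt x h1
  have h4 : HasFDerivAt (fun y => fderiv ℝ u y) (fderiv ℝ (fun y => fderiv ℝ u y) x) x := by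
    have h5 : ContDiffAt ℝ 1 (fderiv ℝ u) x := hu.fderiv_right (m := 1) (by norm_num)
    exact (h5.differentiableAt (by norm_num)).hasFDerivAt
  have h5 := h3.smul h4
  have h6 : fderiv ℝ (fun y => fderiv ℝ (fun y => M (u y)) y) x =
      deriv M (u x) • fderiv ℝ (fun y => fderiv ℝ u y) x +
        (deriv (deriv M) (u x) • fderiv ℝ u x).smulRight (fderiv ℝ u x) := by
    rw [Filter.EventuallyEq.fderiv_eq hev]
    exact h5.fderiv
  rw [hess, h6, hess]
  simp only [ContinuousLinearMap.add_apply, ContinuousLinearMap.smul_apply,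
    ContinuousLinearMap.smulRight_apply, smul_eq_mul]
  ring

theorem lev_real_comp {M : ℝ → ℝ} {u : E → ℝ} {x : E} (hM : ContDiff ℝ 2 M)
    (hu : ContDiffAt ℝ 2 u x) (h2 : 0 ≤ deriv (deriv M) (u x)) (v : E) :
    deriv M (u x) * lev u x v v ≤ lev (fun y => M (u y)) x v v := by
  rw [lev, lev, hess_real_comp hM hu, hess_real_comp hM hu]
  have h3 := mul_nonneg h2 (mul_self_nonneg (fderiv ℝ u x v))
  have h4 := mul_nonneg h2 (mul_self_nonneg (fderiv ℝ u x (Complex.I • v)))
  nlinarith

end A



section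

variable {E F : Type*} [NormedAddCommGroup E] [InnerProductSpace ℂ E]
    [NormedAddCommGroup F] [InnerProductSpace ℂ F]



end



end Pool.Agent.Helper536.LK.LA4

namespace Pool.Agent.Helper536.LK
alias lev_real_comp := LA4.lev_real_comp
end Pool.Agent.Helper536.LK
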