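import Pool.Agent.Helper536.LK.SDefs
import Pool.Agent.Helper536.LK.TowerDef

open scoped ContDiff Topology

open Set Metric

noncomputable section

namespace Pool.Agent.Helper536.LK.LA5

section

variable {E F : Type*} [NormedAddCommGroup E] [InnerProductSpace ℂ E]
    [NormedAddCommGroup F] [InnerProductSpace ℂ F]

end

section A

variable {E E' : Type*} [NormedAddCommGroup E] [NormedSpace ℂ E] [NormedAddCommGroup E']
  [NormedSpace ℂ E']

theorem lev_bound {φ : E → ℝ} {U K : Set E} (hU : IsOpen U) (hφ : ContDiffOn ℝ 2 φ U)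
    (hK : IsCompact K) (hKU : K ⊆ U) : ∃ C : ℝ, 0 ≤ C ∧ ∀ x ∈ K, ∀ v, |lev φ x v v| ≤ C * ‖v‖ ^ 2 := by
  have h1 : ContDiffOn ℝ 1 (fderiv ℝ φ) U := hφ.fderiv_of_isOpen hU (by norm_num)
  have h2 : ContinuousOn (fderiv ℝ (fderiv ℝ φ)) U :=
    h1.continuousOn_fderiv_of_isOpen hU le_rfl
  obtain ⟨B, hB⟩ : ∃ B, ∀ x ∈ K, ‖fderiv ℝ (fderiv ℝ φ) x‖ ≤ B := by
    have h2' : ContinuousOn (fun x => ‖fderiv ℝ (fderiv ℝ φ) x‖) K :=
      (continuous_norm (E := E →L[ℝ] E →L[ℝ] ℝ)).comp_continuousOn (h2.mono hKU)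
    obtain ⟨B, hB⟩ := hK.bddAbove_image h2'
    exact ⟨B, fun x hx => hB (mem_image_of_mem _ hx)⟩
  have key : ∀ x ∈ K, ∀ v : E, |hess φ x v v| ≤ max B 0 * ‖v‖ ^ 2 := by
    intro x hx v
    have h3 : ‖fderiv ℝ (fderiv ℝ φ) x‖ ≤ max B 0 := (hB x hx).trans (le_max_left _ _)
    have h4 : ‖fderiv ℝ (fderiv ℝ φ) x v v‖ ≤ ‖fderiv ℝ (fderiv ℝ φ) x‖ * ‖v‖ * ‖v‖ :=
      ContinuousLinearMap.le_opNorm₂ _ _ _
    rw [Real.norm_eq_abs] at h4
    calc |hess φ x v v| ≤ ‖fderiv ℝ (fderiv ℝ φ) x‖ * ‖v‖ * ‖v‖ := h4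
      _ = ‖fderiv ℝ (fderiv ℝ φ) x‖ * ‖v‖ ^ 2 := by ring
      _ ≤ _ := mul_le_mul_of_nonneg_right h3 (by positivity)
  refine ⟨2 * max B 0, by positivity, fun x hx v => ?_⟩
  have h5 := key x hx v
  have h6 := key x hx (Complex.I • v)
  rw [norm_smul, Complex.norm_I, one_mul] at h6
  unfold lev
  calc |hess φ x v v + hess φ x (Complex.I • v) (Complex.I • v)| ≤
      |hess φ x v v| + |hess φ x (Complex.I • v) (Complex.I • v)| := abs_add_le _ _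
    _ ≤ max B 0 * ‖v‖ ^ 2 + max B 0 * ‖v‖ ^ 2 := add_le_add h5 h6
    _ = _ := by ring

end A



section

variable {E F : Type*} [NormedAddCommGroup E] [InnerProductSpace ℂ E]
    [NormedAddCommGroup F] [InnerProductSpace ℂ F]



end



end Pool.Agent.Helper536.LK.LA5

namespace Pool.Agent.Helper536.LK
alias lev_bound := LA5.lev_bound
end Pool.Agent.Helper536.LK
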