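import Pool.Agent.Helper536.LK.SDefs
import Pool.Agent.Helper536.LK.TowerDef

open scoped ContDiff Topology

open Set Metric

noncomputable section

namespace Pool.Agent.Helper536.LK.LA6

section

variable {E F : Type*} [NormedAddCommGroup E] [InnerProductSpace ℂ E]
    [NormedAddCommGroup F] [InnerProductSpace ℂ F]

end

section A

variable {E E' : Type*} [NormedAddCommGroup E] [NormedSpace ℂ E] [NormedAddCommGroup E']
  [NormedSpace ℂ E']

end A

theorem hess_normsq_aux {E : Type*} [NormedAddCommGroup E] [InnerProductSpace ℂ E] (x v : E) :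
    hess (fun y : E => ‖y‖ ^ 2) x v v = 2 * ‖v‖ ^ 2 := by
  let _ : InnerProductSpace ℝ E := InnerProductSpace.complexToReal
  have h1 : (fun y : E => fderiv ℝ (fun z : E => ‖z‖ ^ 2) y) =
      fun y : E => (2 : ℝ) • innerSL ℝ y := by
    funext y
    rw [(hasStrictFDerivAt_norm_sq y).hasFDerivAt.fderiv]
    ext w
    simp
  have h2 : HasFDerivAt (fun y : E => (2 : ℝ) • innerSL ℝ y) ((2 : ℝ) • innerSL ℝ (E := E)) x :=
    ((innerSL ℝ (E := E)).hasFDerivAt).const_smul (2 : ℝ)
  have h3 : (innerSL ℝ (E := E)) v v = ‖v‖ ^ 2 := real_inner_self_eq_norm_sq v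
  unfold hess
  rw [h1, h2.fderiv, ← h3]
  rfl

theorem lev_normsq {E : Type*} [NormedAddCommGroup E] [InnerProductSpace ℂ E] (x v : E) :
    lev (fun y : E => ‖y‖ ^ 2) x v v = 4 * ‖v‖ ^ 2 := by
  unfold lev
  rw [hess_normsq_aux, hess_normsq_aux, norm_smul, Complex.norm_I]
  ring

theorem contDiff_normsq {E : Type*} [NormedAddCommGroup E] [InnerProductSpace ℂ E] :
    ContDiff ℝ ∞ (fun y : E => ‖y‖ ^ 2) := by
  let _ : InnerProductSpace ℝ E := InnerProductSpace.complexToReal
  exact contDiff_norm_sq ℝ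



section

variable {E F : Type*} [NormedAddCommGroup E] [InnerProductSpace ℂ E]
    [NormedAddCommGroup F] [InnerProductSpace ℂ F]



end



end Pool.Agent.Helper536.LK.LA6

namespace Pool.Agent.Helper536.LK
alias lev_normsq := LA6.lev_normsq
alias contDiff_normsq := LA6.contDiff_normsq
end Pool.Agent.Helper536.LK
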