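import Pool.Agent.Helper536.LK.SDefs
import Pool.Agent.Helper536.LK.TowerDef

open scoped ContDiff Topology

open Set Metric

noncomputable section

namespace Pool.Agent.Helper536.LK.LB1

section

variable {E F : Type*} [NormedAddCommGroup E] [InnerProductSpace ℂ E]
    [NormedAddCommGroup F] [InnerProductSpace ℂ F]

end

section A

variable {E E' : Type*} [NormedAddCommGroup E] [NormedSpace ℂ E] [NormedAddCommGroup E']
  [NormedSpace ℂ E']

end A



theorem cutoffs : ∃ (χ M : ℝ → ℝ) (m₀ : ℝ), ContDiff ℝ ∞ χ ∧ ContDiff ℝ ∞ M ∧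
    (∀ s ≤ 1, χ s = 1) ∧ (∀ s, 2 ≤ s → χ s = 0) ∧ (∀ s ≤ 1 / 2, M s = 0) ∧
    (∀ s, 1 ≤ s → M s = s - m₀) ∧ (∀ s, 0 ≤ deriv M s) ∧ (∀ s, 0 ≤ deriv (deriv M) s) := by
  set f : ℝ → ℝ := fun τ => Real.smoothTransition (2 * τ - 1) with hf
  have hfc : Continuous f := by
    have h1 := Real.smoothTransition.continuous
    exact h1.comp (by fun_prop)
  have hfs : ContDiff ℝ ∞ f := by
    have h1 : ContDiff ℝ ∞ Real.smoothTransition := Real.smoothTransition.contDiff
    exact h1.comp ((contDiff_const.mul contDiff_id).sub contDiff_const)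
  set M : ℝ → ℝ := fun s => ∫ τ in (0 : ℝ)..s, f τ with hM
  have hD : ∀ s, HasDerivAt M (f s) s := fun s =>
    intervalIntegral.integral_hasDerivAt_right (hfc.intervalIntegrable _ _)
      (hfc.stronglyMeasurableAtFilter _ _) hfc.continuousAt
  have hdM : deriv M = f := funext fun s => (hD s).deriv
  refine ⟨fun s => 1 - Real.smoothTransition (s - 1), M, 1 - M 1, ?_, ?_, ?_, ?_, ?_, ?_, ?_, ?_⟩
  · have h1 : ContDiff ℝ ∞ Real.smoothTransition := Real.smoothTransition.contDiff
    exact contDiff_const.sub (h1.comp (contDiff_id.sub contDiff_const))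
  · rw [contDiff_infty_iff_deriv]
    exact ⟨fun s => (hD s).differentiableAt, by rw [hdM]; exact hfs⟩
  · intro s hs
    show 1 - Real.smoothTransition (s - 1) = 1
    rw [Real.smoothTransition.zero_of_nonpos (by linarith), sub_zero]
  · intro s hs
    show 1 - Real.smoothTransition (s - 1) = 0
    rw [Real.smoothTransition.one_of_one_le (by linarith), sub_self]
  · intro s hs
    show ∫ τ in (0 : ℝ)..s, f τ = 0
    have h1 : ∫ τ in (0 : ℝ)..s, f τ = ∫ τ in (0 : ℝ)..s, (0 : ℝ) := by
      apply intervalIntegral.integral_congr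
      intro τ hτ
      have h2 : τ ≤ 1 / 2 := by
        have h3 : τ ≤ max 0 s := hτ.2
        exact h3.trans (max_le (by norm_num) hs)
      show Real.smoothTransition (2 * τ - 1) = 0
      exact Real.smoothTransition.zero_of_nonpos (by linarith)
    rw [h1, intervalIntegral.integral_zero]
  · intro s hs
    have h1 : M s = M 1 + ∫ τ in (1 : ℝ)..s, f τ :=
      (intervalIntegral.integral_add_adjacent_intervals (hfc.intervalIntegrable _ _)
        (hfc.intervalIntegrable _ _)).symm
    have h2 : ∫ τ in (1 : ℝ)..s, f τ = ∫ τ in (1 : ℝ)..s, (1 : ℝ) := by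
      apply intervalIntegral.integral_congr
      intro τ hτ
      have h3 : 1 ≤ τ := by
        have h4 : min 1 s ≤ τ := hτ.1
        rw [min_eq_left hs] at h4
        exact h4
      show Real.smoothTransition (2 * τ - 1) = 1
      exact Real.smoothTransition.one_of_one_le (by linarith)
    rw [h1, h2, intervalIntegral.integral_const, smul_eq_mul]
    ring
  · intro s
    rw [hdM]
    exact Real.smoothTransition.nonneg _
  · intro s
    rw [hdM]
    have h1 : Monotone f := by
      intro x y hxy
      exact Real.smoothTransition.monotone (by linarith)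
    exact h1.deriv_nonneg

section

variable {E F : Type*} [NormedAddCommGroup E] [InnerProductSpace ℂ E]
    [NormedAddCommGroup F] [InnerProductSpace ℂ F]



end



end Pool.Agent.Helper536.LK.LB1

namespace Pool.Agent.Helper536.LK
alias cutoffs := LB1.cutoffs
end Pool.Agent.Helper536.LK
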