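import Pool.Agent.Helper536.LK.SDefs
import Pool.Agent.Helper536.LK.TowerDef

open scoped ContDiff Topology

open Set Metric

noncomputable section

namespace Pool.Agent.Helper536.LK.LB2

section

variable {E F : Type*} [NormedAddCommGroup E] [InnerProductSpace ℂ E]
    [NormedAddCommGroup F] [InnerProductSpace ℂ F]

end

section A

variable {E E' : Type*} [NormedAddCommGroup E] [NormedSpace ℂ E] [NormedAddCommGroup E']
  [NormedSpace ℂ E']

end A



section

variable {E F : Type*} [NormedAddCommGroup E] [InnerProductSpace ℂ E]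
    [NormedAddCommGroup F] [InnerProductSpace ℂ F]

theorem exh_compact [FiniteDimensional ℂ E] (D : Dec E F) (c : ℝ) :
    IsCompact {y : E | D.Z y ≠ 0 ∧ ‖y‖ ^ 2 - Real.log ‖D.Z y‖ ≤ c} := by
  haveI : ProperSpace E := FiniteDimensional.proper_rclike ℂ E
  have hset : {y : E | D.Z y ≠ 0 ∧ ‖y‖ ^ 2 - Real.log ‖D.Z y‖ ≤ c} =
      {y : E | Real.exp (-c) ≤ ‖D.Z y‖} ∩ (fun y : E => ‖y‖ ^ 2 - Real.log ‖D.Z y‖) ⁻¹' (Iic c) := by
    ext y
    constructor
    · rintro ⟨h1, h2⟩
      refine ⟨?_, h2⟩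
      have h3 : 0 < ‖D.Z y‖ := norm_pos_iff.2 h1
      have h4 : -c ≤ Real.log ‖D.Z y‖ := by
        have := sq_nonneg ‖y‖
        linarith
      show Real.exp (-c) ≤ ‖D.Z y‖
      rw [← Real.exp_log h3]
      exact Real.exp_le_exp.2 h4
    · rintro ⟨h1, h2⟩
      refine ⟨?_, h2⟩
      intro h3
      have h4 : Real.exp (-c) ≤ ‖D.Z y‖ := h1
      rw [h3, norm_zero] at h4
      exact absurd (Real.exp_pos (-c)) (not_lt.2 h4)
  have hclosed : IsClosed {y : E | D.Z y ≠ 0 ∧ ‖y‖ ^ 2 - Real.log ‖D.Z y‖ ≤ c} := by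
    rw [hset]
    have hK : IsClosed {y : E | Real.exp (-c) ≤ ‖D.Z y‖} :=
      isClosed_le continuous_const D.Z.continuous.norm
    refine ContinuousOn.preimage_isClosed_of_isClosed ?_ hK isClosed_Iic
    refine ((continuous_norm.pow 2).continuousOn).sub ?_
    refine ContinuousOn.log (D.Z.continuous.norm.continuousOn) ?_
    intro y hy h0
    have h4 : Real.exp (-c) ≤ ‖D.Z y‖ := hy
    rw [h0] at h4
    exact absurd (Real.exp_pos (-c)) (not_lt.2 h4)
  refine isCompact_of_isClosed_isBounded hclosed ?_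
  refine (Metric.isBounded_closedBall (x := (0 : E)) (r := |c| + 2)).subset ?_
  rintro y ⟨h1, h2⟩
  rw [mem_closedBall, dist_zero_right]
  have h3 : 0 < ‖D.Z y‖ := norm_pos_iff.2 h1
  have h4 := Real.log_le_sub_one_of_pos h3
  have h5 : ‖D.Z y‖ ≤ ‖y‖ := by
    have h6 := D.hn y
    have h7 := sq_nonneg ‖D.X y‖
    have h8 : ‖D.Z y‖ ^ 2 ≤ ‖y‖ ^ 2 := by linarith
    exact (pow_le_pow_iff_left₀ (norm_nonneg _) (norm_nonneg _) (by norm_num)).1 h8
  by_contra hc
  push Not at hc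
  have h9 := le_abs_self c
  have h10 := abs_nonneg c
  nlinarith



end



end Pool.Agent.Helper536.LK.LB2

namespace Pool.Agent.Helper536.LK
alias exh_compact := LB2.exh_compact
end Pool.Agent.Helper536.LK
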