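import Pool.Agent.Helper536.LK.SDefs
import Pool.Agent.Helper536.LK.TowerDef
import Pool.Agent.Helper536.LK.LA1
import Pool.Agent.Helper536.LK.LA3
import Pool.Agent.Helper536.LK.LA6

open scoped ContDiff Topology

open Set Metric

noncomputable section

namespace Pool.Agent.Helper536.LK.LB3

section

variable {E F : Type*} [NormedAddCommGroup E] [InnerProductSpace ℂ E]
    [NormedAddCommGroup F] [InnerProductSpace ℂ F]

end

section A

variable {E E' : Type*} [NormedAddCommGroup E] [NormedSpace ℂ E] [NormedAddCommGroup E']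
  [NormedSpace ℂ E']

end A



section

variable {E F : Type*} [NormedAddCommGroup E] [InnerProductSpace ℂ E]
    [NormedAddCommGroup F] [InnerProductSpace ℂ F]

theorem uu_aux (D : Dec E F) (y : E) (hy : y ∈ D.Om) :
    ContDiffAt ℝ ∞ (fun y => Real.log ‖D.Z y‖) y := by
  have h1 : ContDiffAt ℝ ∞ (fun y => D.Z y) y :=
    (D.Z.restrictScalars ℝ).contDiff.contDiffAt
  have h2 : ContDiffAt ℝ ∞ (fun y => ‖D.Z y‖) y := h1.norm ℝ hy
  exact h2.log (norm_ne_zero_iff.mpr hy)

theorem uu_smooth (D : Dec E F) : ContDiffOn ℝ ∞ (uu D) D.Om := by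
  intro y hy
  have h : ContDiffAt ℝ ∞ (uu D) y :=
    (contDiff_normsq (E := E)).contDiffAt.sub (uu_aux D y hy)
  exact h.contDiffWithinAt

theorem lev_uu [CompleteSpace E] (D : Dec E F) (y : E) (hy : y ∈ D.Om) (v : E) :
    lev (uu D) y v v = 4 * ‖v‖ ^ 2 := by
  have h : uu D = fun y => ‖y‖ ^ 2 + (-1) * Real.log ‖D.Z y‖ := by
    funext y
    unfold uu
    ring
  have hle : (2 : WithTop ℕ∞) ≤ ∞ := by norm_cast
  have h1 : ContDiffAt ℝ 2 (fun y : E => ‖y‖ ^ 2) y :=
    ((contDiff_normsq (E := E)).contDiffAt).of_le hle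
  have h2 : ContDiffAt ℝ 2 (fun y => Real.log ‖D.Z y‖) y := (uu_aux D y hy).of_le hle
  have h3 : ContDiffAt ℝ 2 (fun y => (-1) * Real.log ‖D.Z y‖) y := contDiffAt_const.mul h2
  rw [h, lev_add h1 h3, lev_const_mul h2, lev_log_norm (D.Z.analyticAt y) hy, lev_normsq]
  ring



end



end Pool.Agent.Helper536.LK.LB3

namespace Pool.Agent.Helper536.LK
alias uu_smooth := LB3.uu_smooth
alias lev_uu := LB3.lev_uu
end Pool.Agent.Helper536.LK
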