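import Pool.Agent.Helper536.LK.SDefs
import Pool.Agent.Helper536.LK.TowerDef
import Pool.Agent.Helper536.LK.LA6
import Pool.Agent.Helper536.LK.LB3

open scoped ContDiff Topology

open Set Metric

noncomputable section

namespace Pool.Agent.Helper536.LK.LB4

section

variable {E F : Type*} [NormedAddCommGroup E] [InnerProductSpace ℂ E]
    [NormedAddCommGroup F] [InnerProductSpace ℂ F]

end

section A

variable {E E' : Type*} [NormedAddCommGroup E] [NormedSpace ℂ E] [NormedAddCommGroup E']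
  [NormedSpace ℂ E']

end A



section

variable {E F : Type*} [NormedAddCommGroup E] [InnerProductSpace ℂ E]
    [NormedAddCommGroup F] [InnerProductSpace ℂ F]

theorem kfun_near (D : Dec E F) (χ M : ℝ → ℝ) (m₀ c₀ C : ℝ) (φ₁ : E → ℝ) (y : E) (hy : y ∈ D.Om) :
    kfun D χ M m₀ c₀ C φ₁ =ᶠ[𝓝 y] fun y =>
      χ (uu D y - c₀) * φ₁ y + C * (M (uu D y - c₀) + Real.log ‖D.Z y‖) := by
  have ho : IsOpen D.Om := isOpen_ne_fun D.Z.continuous continuous_const
  filter_upwards [ho.mem_nhds hy] with z hz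
  have hz' : D.Z z ≠ 0 := hz
  simp only [kfun, if_neg hz']

theorem kfun_far_aux (D : Dec E F) (χ M : ℝ → ℝ) (m₀ c₀ C : ℝ) (φ₁ : E → ℝ)
    (hχ : ∀ s, 2 ≤ s → χ s = 0) (hM : ∀ s, 1 ≤ s → M s = s - m₀) (z : E)
    (h : D.Z z = 0 ∨ c₀ + 2 < uu D z) :
    kfun D χ M m₀ c₀ C φ₁ z = C * (‖z‖ ^ 2 - c₀ - m₀) := by
  by_cases hz : D.Z z = 0
  · simp only [kfun, if_pos hz]
  · have hu : c₀ + 2 < uu D z := by
      rcases h with h | h
      · exact absurd h hz
      · exact h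
    simp only [kfun, if_neg hz]
    rw [hχ _ (by linarith), hM _ (by linarith), zero_mul, zero_add]
    unfold uu
    ring

theorem kfun_far (D : Dec E F) (χ M : ℝ → ℝ) (m₀ c₀ C : ℝ) (φ₁ : E → ℝ)
    (hχ : ∀ s, 2 ≤ s → χ s = 0) (hM : ∀ s, 1 ≤ s → M s = s - m₀) (y : E)
    (hy : D.Z y = 0 ∨ c₀ + 2 < uu D y) :
    kfun D χ M m₀ c₀ C φ₁ =ᶠ[𝓝 y] fun y => C * (‖y‖ ^ 2 - c₀ - m₀) := by
  have ho : IsOpen D.Om := isOpen_ne_fun D.Z.continuous continuous_const
  by_cases hy0 : D.Z y = 0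
  · have hc : ContinuousAt (fun z : E => ‖D.Z z‖) y := (D.Z.continuous.norm).continuousAt
    have h1 : ∀ᶠ z in 𝓝 y, ‖D.Z z‖ < Real.exp (-(c₀ + 2)) :=
      hc.eventually_lt continuousAt_const (by simp only [hy0, norm_zero]; exact Real.exp_pos _)
    filter_upwards [h1] with z hz
    apply kfun_far_aux D χ M m₀ c₀ C φ₁ hχ hM z
    by_cases hz0 : D.Z z = 0
    · exact Or.inl hz0
    · right
      have h2 : Real.log ‖D.Z z‖ < -(c₀ + 2) := by
        have h3 := Real.log_lt_log (norm_pos_iff.2 hz0) hz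
        rwa [Real.log_exp] at h3
      unfold uu
      have h4 : 0 ≤ ‖z‖ ^ 2 := sq_nonneg _
      linarith
  · have hu : c₀ + 2 < uu D y := by
      rcases hy with h | h
      · exact absurd h hy0
      · exact h
    have hc : ContinuousAt (uu D) y :=
      (uu_smooth D).continuousOn.continuousAt (ho.mem_nhds hy0)
    have h1 : ∀ᶠ z in 𝓝 y, c₀ + 2 < uu D z := continuousAt_const.eventually_lt hc hu
    filter_upwards [h1] with z hz
    exact kfun_far_aux D χ M m₀ c₀ C φ₁ hχ hM z (Or.inr hz)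

theorem kfun_smooth (D : Dec E F) (χ M : ℝ → ℝ) (m₀ c₀ C : ℝ) (φ₁ : E → ℝ)
    (hχs : ContDiff ℝ ∞ χ) (hMs : ContDiff ℝ ∞ M) (h1 : ContDiffOn ℝ ∞ φ₁ D.Om)
    (hχ : ∀ s, 2 ≤ s → χ s = 0) (hM : ∀ s, 1 ≤ s → M s = s - m₀) :
    ContDiff ℝ ∞ (kfun D χ M m₀ c₀ C φ₁) := by
  have ho : IsOpen D.Om := isOpen_ne_fun D.Z.continuous continuous_const
  rw [contDiff_iff_contDiffAt]
  intro y
  by_cases hy0 : D.Z y = 0
  · have h2 : ContDiffAt ℝ ∞ (fun y : E => C * (‖y‖ ^ 2 - c₀ - m₀)) y :=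
      (contDiff_const.mul ((contDiff_normsq.sub contDiff_const).sub contDiff_const)).contDiffAt
    exact h2.congr_of_eventuallyEq (kfun_far D χ M m₀ c₀ C φ₁ hχ hM y (Or.inl hy0))
  · have hyO : y ∈ D.Om := hy0
    have hu : ContDiffAt ℝ ∞ (uu D) y := (uu_smooth D).contDiffAt (ho.mem_nhds hyO)
    have hus : ContDiffAt ℝ ∞ (fun y => uu D y - c₀) y := hu.sub contDiffAt_const
    have h3 : ContDiffAt ℝ ∞ (fun y => χ (uu D y - c₀)) y := hχs.contDiffAt.comp y hus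
    have h4 : ContDiffAt ℝ ∞ (fun y => M (uu D y - c₀)) y := hMs.contDiffAt.comp y hus
    have h5 : ContDiffAt ℝ ∞ (fun y => Real.log ‖D.Z y‖) y := by
      have h6 : (fun y => Real.log ‖D.Z y‖) = fun y => ‖y‖ ^ 2 - uu D y := by
        funext z
        unfold uu
        ring
      rw [h6]
      exact contDiff_normsq.contDiffAt.sub hu
    have h7 : ContDiffAt ℝ ∞ φ₁ y := h1.contDiffAt (ho.mem_nhds hyO)
    have h8 : ContDiffAt ℝ ∞ (fun y => χ (uu D y - c₀) * φ₁ y +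
        C * (M (uu D y - c₀) + Real.log ‖D.Z y‖)) y :=
      (h3.mul h7).add (contDiffAt_const.mul (h4.add h5))
    exact h8.congr_of_eventuallyEq (kfun_near D χ M m₀ c₀ C φ₁ y hyO)



end



end Pool.Agent.Helper536.LK.LB4

namespace Pool.Agent.Helper536.LK
alias kfun_near := LB4.kfun_near
alias kfun_far := LB4.kfun_far
alias kfun_smooth := LB4.kfun_smooth
end Pool.Agent.Helper536.LK
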