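import Pool.Agent.Helper536.LK.SDefs
import Pool.Agent.Helper536.LK.TowerDef
import Pool.Agent.Helper536.LK.LA1
import Pool.Agent.Helper536.LK.LA3
import Pool.Agent.Helper536.LK.LA4
import Pool.Agent.Helper536.LK.LA5
import Pool.Agent.Helper536.LK.LA6
import Pool.Agent.Helper536.LK.LB1
import Pool.Agent.Helper536.LK.LB2
import Pool.Agent.Helper536.LK.LB3
import Pool.Agent.Helper536.LK.LB4

open scoped ContDiff Topology

open Set Metric

noncomputable section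

namespace Pool.Agent.Helper536.LK.LB5

section

variable {E F : Type*} [NormedAddCommGroup E] [InnerProductSpace ℂ E]
    [NormedAddCommGroup F] [InnerProductSpace ℂ F]

end

section A

variable {E E' : Type*} [NormedAddCommGroup E] [NormedSpace ℂ E] [NormedAddCommGroup E']
  [NormedSpace ℂ E']

end A



section

variable {E F : Type*} [NormedAddCommGroup E] [InnerProductSpace ℂ E]
    [NormedAddCommGroup F] [InnerProductSpace ℂ F]

theorem kext_two_le : (2 : WithTop ℕ∞) ≤ ∞ := WithTop.coe_le_coe.2 le_top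

theorem kext_open (D : Dec E F) : IsOpen D.Om := by
  have : D.Om = D.Z ⁻¹' {0}ᶜ := rfl
  rw [this]
  exact isOpen_compl_singleton.preimage D.Z.continuous

theorem kext_uu_at (D : Dec E F) {y : E} (hy : y ∈ D.Om) : ContDiffAt ℝ 2 (uu D) y :=
  ((uu_smooth D).contDiffAt ((kext_open D).mem_nhds hy)).of_le kext_two_le

theorem kext_log_at (D : Dec E F) {y : E} (hy : y ∈ D.Om) :
    ContDiffAt ℝ 2 (fun z => Real.log ‖D.Z z‖) y := by
  have h1 : ContDiffAt ℝ 2 (fun z : E => ‖z‖ ^ 2) y :=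
    (contDiff_normsq.of_le kext_two_le).contDiffAt
  have h2 := h1.sub (kext_uu_at D hy)
  have e : (fun z : E => ‖z‖ ^ 2 - uu D z) = fun z => Real.log ‖D.Z z‖ := by
    funext z
    unfold uu
    ring
  rw [e] at h2
  exact h2

theorem kext_lev_sub [CompleteSpace E] (D : Dec E F) (c₀ : ℝ) {y : E} (hy : y ∈ D.Om) (v : E) :
    lev (fun z => uu D z - c₀) y v v = 4 * ‖v‖ ^ 2 := by
  have h := lev_add (kext_uu_at D hy) (contDiffAt_const (c := -c₀)) v v
  rw [lev_const, add_zero, lev_uu D y hy] at h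
  have e : (fun z : E => uu D z - c₀) = fun z => uu D z + -c₀ := by
    funext z
    ring
  rw [e]
  exact h

theorem kext_M_ge [CompleteSpace E] (D : Dec E F) (c₀ : ℝ) {M : ℝ → ℝ} (hMs : ContDiff ℝ ∞ M)
    (hM'' : ∀ s, 0 ≤ deriv (deriv M) s) {y : E} (hy : y ∈ D.Om) (v : E) :
    deriv M (uu D y - c₀) * (4 * ‖v‖ ^ 2) ≤ lev (fun z => M (uu D z - c₀)) y v v := by
  have h := lev_real_comp (M := M) (u := fun z => uu D z - c₀) (x := y)
    (hMs.of_le kext_two_le) ((kext_uu_at D hy).sub contDiffAt_const) (hM'' _) v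
  rw [kext_lev_sub D c₀ hy] at h
  exact h

theorem kext_M_at (D : Dec E F) (c₀ : ℝ) {M : ℝ → ℝ} (hMs : ContDiff ℝ ∞ M)
    {y : E} (hy : y ∈ D.Om) : ContDiffAt ℝ 2 (fun z => M (uu D z - c₀)) y :=
  (hMs.of_le kext_two_le).contDiffAt.comp y ((kext_uu_at D hy).sub contDiffAt_const)

theorem kext_decomp [CompleteSpace E] (D : Dec E F) (χ M : ℝ → ℝ) (m₀ c₀ C : ℝ) (φ₁ : E → ℝ)
    (hχs : ContDiff ℝ ∞ χ) (hMs : ContDiff ℝ ∞ M) (h1 : ContDiffOn ℝ ∞ φ₁ D.Om)
    {y : E} (hy : y ∈ D.Om) (v w : E) :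
    lev (kfun D χ M m₀ c₀ C φ₁) y v w = lev (fun z => χ (uu D z - c₀) * φ₁ z) y v w +
      C * lev (fun z => M (uu D z - c₀)) y v w := by
  have hφ : ContDiffAt ℝ 2 φ₁ y :=
    (h1.contDiffAt ((kext_open D).mem_nhds hy)).of_le kext_two_le
  have hg : ContDiffAt ℝ 2 (fun z => χ (uu D z - c₀) * φ₁ z) y :=
    (kext_M_at D c₀ hχs hy).mul hφ
  have hM := kext_M_at D c₀ hMs hy
  have hlog := kext_log_at D hy
  rw [lev_congr (kfun_near D χ M m₀ c₀ C φ₁ y hy), lev_add hg (contDiffAt_const.mul (hM.add hlog)),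
    lev_const_mul (hM.add hlog), lev_add hM hlog, lev_log_norm (D.Z.analyticAt y) hy, add_zero]

theorem kext_far [CompleteSpace E] (D : Dec E F) (χ M : ℝ → ℝ) (m₀ c₀ C : ℝ) (φ₁ : E → ℝ)
    (hχ : ∀ s, 2 ≤ s → χ s = 0) (hM : ∀ s, 1 ≤ s → M s = s - m₀) (y : E)
    (hy : D.Z y = 0 ∨ c₀ + 2 < uu D y) (v : E) :
    lev (kfun D χ M m₀ c₀ C φ₁) y v v = C * (4 * ‖v‖ ^ 2) := by
  have h1 : ContDiffAt ℝ 2 (fun z : E => ‖z‖ ^ 2) y :=
    (contDiff_normsq.of_le kext_two_le).contDiffAt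
  have e : (fun z : E => C * (‖z‖ ^ 2 - c₀ - m₀)) =
      fun z => C * (‖z‖ ^ 2 + (-c₀ - m₀)) := by
    funext z
    ring
  rw [lev_congr (kfun_far D χ M m₀ c₀ C φ₁ hχ hM y hy), e,
    lev_const_mul (h1.add contDiffAt_const), lev_add h1 contDiffAt_const, lev_const, add_zero,
    lev_normsq]

theorem kext_deriv_M {M : ℝ → ℝ} {m₀ : ℝ} (hMs : ContDiff ℝ ∞ M)
    (hM : ∀ s, 1 ≤ s → M s = s - m₀) {s : ℝ} (hs : 1 ≤ s) : deriv M s = 1 := by
  have hd : HasDerivAt M (deriv M s) s :=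
    ((hMs.differentiable (by simp)) s).hasDerivAt
  have h1 : HasDerivWithinAt M (deriv M s) (Ici s) s := hd.hasDerivWithinAt
  have h2 : HasDerivWithinAt (fun t : ℝ => t - m₀) 1 (Ici s) s :=
    ((hasDerivAt_id s).sub_const m₀).hasDerivWithinAt
  have h3 : HasDerivWithinAt M 1 (Ici s) s :=
    h2.congr (fun t ht => hM t (le_trans hs ht)) (hM s hs)
  exact (uniqueDiffWithinAt_Ici s).eq_deriv _ h1 h3

theorem kext [FiniteDimensional ℂ E] (D : Dec E F) (φ₁ : E → ℝ) (h1 : ContDiffOn ℝ ∞ φ₁ D.Om)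
    (h2 : ∀ x ∈ D.Om, ∀ v, v ≠ 0 → 0 < lev φ₁ x v v) (L : Set E) (hL : IsCompact L)
    (hLO : L ⊆ D.Om) :
    ∃ (φ' : E → ℝ) (R₀ : ℝ), Spsh φ' ∧ (∀ y ∈ L, ∀ v w, lev φ' y v w = lev φ₁ y v w) ∧
      ∀ x, R₀ ≤ ‖x‖ → ∀ v, ‖v‖ ^ 2 ≤ lev φ' x v v := by
  have hcomp : CompleteSpace E := FiniteDimensional.complete ℂ E
  obtain ⟨χ, M, m₀, hχs, hMs, hχ1, hχ2, hM0, hM1, hM', hM''⟩ := cutoffs
  obtain ⟨c₀, hc₀⟩ : ∃ c₀, ∀ y ∈ L, uu D y ≤ c₀ := by
    obtain ⟨c₀, h⟩ := (hL.image_of_continuousOn ((uu_smooth D).continuousOn.mono hLO)).bddAbove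
    exact ⟨c₀, fun y hy => h ⟨y, hy, rfl⟩⟩
  have hOm := kext_open D
  set K : Set E := {y : E | D.Z y ≠ 0 ∧ ‖y‖ ^ 2 - Real.log ‖D.Z y‖ ≤ c₀ + 2} with hKd
  have hK : IsCompact K := exh_compact D (c₀ + 2)
  have hKO : K ⊆ D.Om := fun y hy => hy.1
  have hgs : ContDiffOn ℝ 2 (fun z => χ (uu D z - c₀) * φ₁ z) D.Om := by
    intro y hy
    have hφ : ContDiffAt ℝ 2 φ₁ y := (h1.contDiffAt (hOm.mem_nhds hy)).of_le kext_two_le
    exact ((kext_M_at D c₀ hχs hy).mul hφ).contDiffWithinAt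
  obtain ⟨C₁, hC₁, hbd⟩ := lev_bound hOm hgs hK hKO
  set C : ℝ := 1 + C₁ with hCd
  have hC : 0 < C := by linarith
  have hfar : ∀ y, (D.Z y = 0 ∨ c₀ + 2 < uu D y) → ∀ v,
      lev (kfun D χ M m₀ c₀ C φ₁) y v v = C * (4 * ‖v‖ ^ 2) :=
    fun y hy v => kext_far D χ M m₀ c₀ C φ₁ hχ2 hM1 y hy v
  have hcont : ∀ y ∈ D.Om, ∀ a : ℝ, uu D y - c₀ < a → ∀ᶠ z in 𝓝 y, uu D z - c₀ < a := by
    intro y hy a ha
    have h3 : ContinuousAt (fun z => uu D z - c₀) y :=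
      ((uu_smooth D).continuousOn.continuousAt (hOm.mem_nhds hy)).sub continuousAt_const
    exact h3.eventually_lt continuousAt_const ha
  -- `χ` is one near the points with `uu < c₀ + 1`
  have hgφ : ∀ y ∈ D.Om, uu D y - c₀ < 1 → ∀ v w,
      lev (fun z => χ (uu D z - c₀) * φ₁ z) y v w = lev φ₁ y v w := by
    intro y hy hs v w
    apply lev_congr
    filter_upwards [hcont y hy 1 hs] with z hz
    rw [hχ1 _ hz.le, one_mul]
  refine ⟨kfun D χ M m₀ c₀ C φ₁, ?_⟩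
  obtain ⟨R, hR⟩ := hK.isBounded.exists_norm_le
  refine ⟨R + 1, ⟨kfun_smooth D χ M m₀ c₀ C φ₁ hχs hMs h1 hχ2 hM1, ?_⟩, ?_, ?_⟩
  · intro y v hv
    have hv2 : 0 < ‖v‖ ^ 2 := by
      have := norm_pos_iff.2 hv
      positivity
    by_cases hy : D.Z y = 0
    · rw [hfar y (Or.inl hy)]
      positivity
    · have hyO : y ∈ D.Om := hy
      by_cases h3 : c₀ + 2 < uu D y
      · rw [hfar y (Or.inr h3)]
        positivity
      · rw [kext_decomp D χ M m₀ c₀ C φ₁ hχs hMs h1 hyO]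
        have h4 := kext_M_ge D c₀ hMs hM'' hyO v
        by_cases h5 : uu D y - c₀ < 1
        · rw [hgφ y hyO h5]
          have h6 := h2 y hyO v hv
          have h7 : 0 ≤ deriv M (uu D y - c₀) * (4 * ‖v‖ ^ 2) :=
            mul_nonneg (hM' _) (by positivity)
          have h8 : 0 ≤ C * lev (fun z => M (uu D z - c₀)) y v v :=
            mul_nonneg hC.le (le_trans h7 h4)
          linarith
        · rw [kext_deriv_M hMs hM1 (not_lt.1 h5), one_mul] at h4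
          have hyK : y ∈ K := ⟨hy, by
            have : uu D y ≤ c₀ + 2 := not_lt.1 h3
            exact this⟩
          have h6 := (abs_le.1 (hbd y hyK v)).1
          have h7 : C * (4 * ‖v‖ ^ 2) ≤ C * lev (fun z => M (uu D z - c₀)) y v v :=
            mul_le_mul_of_nonneg_left h4 hC.le
          have h8 : 0 ≤ C₁ * ‖v‖ ^ 2 := by positivity
          rw [hCd] at h7 ⊢
          nlinarith
  · intro y hy v w
    have hyO := hLO hy
    have hs : uu D y - c₀ < 1 / 2 := by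
      have := hc₀ y hy
      linarith
    rw [kext_decomp D χ M m₀ c₀ C φ₁ hχs hMs h1 hyO, hgφ y hyO (by linarith)]
    have h3 : lev (fun z => M (uu D z - c₀)) y v w = 0 := by
      have h4 : (fun z => M (uu D z - c₀)) =ᶠ[𝓝 y] fun _ => (0 : ℝ) := by
        filter_upwards [hcont y hyO (1 / 2) hs] with z hz
        exact hM0 _ hz.le
      rw [lev_congr h4, lev_const]
    rw [h3, mul_zero, add_zero]
  · intro x hx v
    have hxK : x ∉ K := by
      intro h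
      have := hR x h
      linarith
    have hx' : D.Z x = 0 ∨ c₀ + 2 < uu D x := by
      by_cases h3 : D.Z x = 0
      · exact Or.inl h3
      · right
        by_contra h4
        exact hxK ⟨h3, not_lt.1 h4⟩
    rw [hfar x hx']
    have h8 : 0 ≤ ‖v‖ ^ 2 := by positivity
    have h9 : 0 ≤ C₁ * ‖v‖ ^ 2 := by positivity
    rw [hCd]
    nlinarith



end



end Pool.Agent.Helper536.LK.LB5

namespace Pool.Agent.Helper536.LK
alias kext := LB5.kext
end Pool.Agent.Helper536.LK
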