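import Pool.Agent.Helper536.LK.SDefs
import Pool.Agent.Helper536.LK.TowerDef
import Pool.Agent.Helper536.LK.LA1
import Pool.Agent.Helper536.LK.LA2
import Pool.Agent.Helper536.LK.LB5

open scoped ContDiff Topology

open Set Metric

noncomputable section

namespace Pool.Agent.Helper536.LK.LB6

section

variable {E F : Type*} [NormedAddCommGroup E] [InnerProductSpace ℂ E]
    [NormedAddCommGroup F] [InnerProductSpace ℂ F]

end

section A

variable {E E' : Type*} [NormedAddCommGroup E] [NormedSpace ℂ E] [NormedAddCommGroup E']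
  [NormedSpace ℂ E']

end A



section

variable {E F : Type*} [NormedAddCommGroup E] [InnerProductSpace ℂ E]
    [NormedAddCommGroup F] [InnerProductSpace ℂ F]

theorem kstep_isOpen (D : Dec E F) : IsOpen D.Om :=
  isOpen_ne_fun D.Z.continuous continuous_const

theorem kstep [FiniteDimensional ℂ E] (D : Dec E F) (A : Adm D) (φ : E → ℝ) (hφ : Spsh φ) (c : E)
    (R : ℝ) (hc : ∀ v, ‖v‖ ≤ R → v + c ∈ D.Om) :
    ∃ (φ' : E → ℝ) (R₀ : ℝ), Spsh φ' ∧
      (∀ v, ‖v‖ ≤ R → ∀ a b, lev φ' (A.f (v + c)) (fderiv ℝ A.f (v + c) a)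
        (fderiv ℝ A.f (v + c) b) = lev φ v a b) ∧
      ∀ x, R₀ ≤ ‖x‖ → ∀ v, ‖v‖ ^ 2 ≤ lev φ' x v v := by
  haveI : CompleteSpace E := FiniteDimensional.complete ℂ E
  haveI : ProperSpace E := FiniteDimensional.proper ℂ E
  have hO := kstep_isOpen D
  have hgR : ∀ x ∈ D.Om, AnalyticAt ℝ A.g x := fun x hx => (A.an_g x hx).restrictScalars
  have hfR : ∀ x ∈ D.Om, AnalyticAt ℝ A.f x := fun x hx => (A.an_f x hx).restrictScalars
  have h1 : ContDiffOn ℝ ∞ (fun y => φ (A.g y - c)) D.Om := by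
    intro x hx
    have e1 : ContDiffAt ℝ ∞ A.g x := (hgR x hx).contDiffAt
    have e2 : ContDiffAt ℝ ∞ (fun y => A.g y - c) x := e1.sub contDiffAt_const
    exact (hφ.smooth.contDiffAt.comp x e2).contDiffWithinAt
  have hGan : ∀ x ∈ D.Om, AnalyticAt ℂ (fun y => A.g y - c) x := fun x hx =>
    (A.an_g x hx).sub analyticAt_const
  have h2 : ∀ x ∈ D.Om, ∀ v, v ≠ 0 → 0 < lev (fun y => φ (A.g y - c)) x v v := by
    intro x hx v hv
    rw [lev_comp (G := fun y => A.g y - c) (φ := φ) (hGan x hx)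
      ((hφ.smooth.of_le (WithTop.coe_le_coe.mpr le_top)).contDiffAt)]
    apply hφ.pos
    have e1 : fderiv ℝ (fun y => A.g y - c) x = fderiv ℝ A.g x := fderiv_sub_const c
    rw [e1]
    intro h0
    have hg := (hgR x hx).differentiableAt.hasFDerivAt
    have hf := (hfR _ (A.maps_g x hx)).differentiableAt.hasFDerivAt
    have hcomp := hf.comp x hg
    have heq : (A.f ∘ A.g) =ᶠ[𝓝 x] id := by
      filter_upwards [hO.mem_nhds hx] with y hy
      exact A.right y hy
    have hid := (hasFDerivAt_id (𝕜 := ℝ) x).congr_of_eventuallyEq heq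
    have hu := hcomp.unique hid
    have := DFunLike.congr_fun hu v
    simp only [ContinuousLinearMap.comp_apply, ContinuousLinearMap.id_apply, h0, map_zero] at this
    exact hv this.symm
  have hGc : ContinuousOn (fun v => A.f (v + c)) (closedBall (0 : E) R) := by
    intro v hv
    have hv' : v + c ∈ D.Om := hc v (by simpa using hv)
    have e1 : ContinuousAt A.f (v + c) := (A.an_f _ hv').continuousAt
    have e2 : ContinuousAt (fun v : E => v + c) v := by fun_prop
    exact (ContinuousAt.comp (f := fun v : E => v + c) (x := v) (g := A.f) e1 e2).continuousWithinAt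
  have hL : IsCompact ((fun v => A.f (v + c)) '' closedBall (0 : E) R) :=
    (isCompact_closedBall (0 : E) R).image_of_continuousOn hGc
  have hLO : ((fun v => A.f (v + c)) '' closedBall (0 : E) R) ⊆ D.Om := by
    rintro _ ⟨v, hv, rfl⟩
    exact A.maps_f _ (hc v (by simpa using hv))
  obtain ⟨φ', R₀, hs, hlev, hinf⟩ := kext D (fun y => φ (A.g y - c)) h1 h2 _ hL hLO
  refine ⟨φ', R₀, hs, ?_, hinf⟩
  intro v hv a b
  have hv' : v + c ∈ D.Om := hc v hv
  rw [hlev (A.f (v + c)) ⟨v, by simpa using hv, rfl⟩]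
  have hGan' : AnalyticAt ℂ (fun v' => A.f (v' + c)) v := by
    apply AnalyticAt.fun_comp (g := A.f) (f := fun v' => v' + c) (A.an_f _ hv')
    fun_prop
  have hcd : ContDiffAt ℝ 2 (fun y => φ (A.g y - c)) (A.f (v + c)) :=
    ((h1.contDiffAt (hO.mem_nhds (A.maps_f _ hv'))).of_le (WithTop.coe_le_coe.mpr le_top))
  have e3 := lev_comp (G := fun v' => A.f (v' + c)) (φ := fun y => φ (A.g y - c)) hGan' hcd a b
  have e4 : fderiv ℝ (fun v' => A.f (v' + c)) v = fderiv ℝ A.f (v + c) := by
    exact fderiv_comp_add_right c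
  rw [e4] at e3
  rw [← e3]
  apply lev_congr
  have hev : ∀ᶠ v' in 𝓝 v, v' + c ∈ D.Om := by
    have e2 : ContinuousAt (fun v : E => v + c) v := by fun_prop
    exact e2.eventually (hO.mem_nhds hv')
  filter_upwards [hev] with v' hv''
  show φ (A.g (A.f (v' + c)) - c) = φ v'
  rw [A.left _ hv'', add_sub_cancel_right]



end



end Pool.Agent.Helper536.LK.LB6

namespace Pool.Agent.Helper536.LK
alias kstep := LB6.kstep
end Pool.Agent.Helper536.LK
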