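import Pool.Agent.Helper536.LK.SDefs
import Pool.Agent.Helper536.LK.TowerDef

open scoped ContDiff Topology

open Set Metric

noncomputable section

namespace Pool.Agent.Helper536.LK.LC1

section

variable {E F : Type*} [NormedAddCommGroup E] [InnerProductSpace ℂ E]
    [NormedAddCommGroup F] [InnerProductSpace ℂ F]

end

section A

variable {E E' : Type*} [NormedAddCommGroup E] [NormedSpace ℂ E] [NormedAddCommGroup E']
  [NormedSpace ℂ E']

end A



section

variable {E F : Type*} [NormedAddCommGroup E] [InnerProductSpace ℂ E]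
    [NormedAddCommGroup F] [InnerProductSpace ℂ F]



/-- composition of global diffeomorphisms -/
def Dif.comp235 {E : Type*} [NormedAddCommGroup E] [NormedSpace ℂ E] (d₂ d₁ : Dif E) : Dif E where
  f := fun x => d₂.f (d₁.f x)
  g := fun x => d₁.g (d₂.g x)
  left := fun x => by simp only [d₂.left, d₁.left]
  right := fun x => by simp only [d₁.right, d₂.right]
  sf := d₂.sf.comp d₁.sf
  sg := d₁.sg.comp d₂.sg

theorem ext_comp235 (D : Dec E F) (f₁ f₂ : E → E)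
    (h₁ : ∀ K : Set E, IsCompact K → K ⊆ D.Om → ∃ (d : Dif E) (U : Set E), IsOpen U ∧ K ⊆ U ∧
      U ⊆ D.Om ∧ EqOn d.f f₁ U)
    (h₂ : ∀ K : Set E, IsCompact K → K ⊆ D.Om → ∃ (d : Dif E) (U : Set E), IsOpen U ∧ K ⊆ U ∧
      U ⊆ D.Om ∧ EqOn d.f f₂ U)
    (hm : ∀ v ∈ D.Om, f₁ v ∈ D.Om) (hc : ContinuousOn f₁ D.Om) :
    ∀ K : Set E, IsCompact K → K ⊆ D.Om → ∃ (d : Dif E) (U : Set E), IsOpen U ∧ K ⊆ U ∧
      U ⊆ D.Om ∧ EqOn d.f (fun v => f₂ (f₁ v)) U := by
  intro K hK hKO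
  obtain ⟨d₁, U₁, hU₁, hKU₁, hUO₁, he₁⟩ := h₁ K hK hKO
  have hK2 : IsCompact (f₁ '' K) := hK.image_of_continuousOn (hc.mono hKO)
  have hK2O : f₁ '' K ⊆ D.Om := by
    rintro _ ⟨v, hv, rfl⟩
    exact hm v (hKO hv)
  obtain ⟨d₂, U₂, hU₂, hKU₂, _, he₂⟩ := h₂ (f₁ '' K) hK2 hK2O
  refine ⟨Dif.comp235 d₂ d₁, U₁ ∩ d₁.f ⁻¹' U₂, hU₁.inter (hU₂.preimage d₁.sf.continuous), ?_, ?_, ?_⟩
  · intro v hv
    refine ⟨hKU₁ hv, ?_⟩
    rw [mem_preimage, he₁ (hKU₁ hv)]
    exact hKU₂ ⟨v, hv, rfl⟩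
  · exact fun v hv => hUO₁ hv.1
  · intro v hv
    have e1 : (Dif.comp235 d₂ d₁).f v = d₂.f (d₁.f v) := rfl
    rw [e1, he₂ hv.2, he₁ hv.1]

theorem adm_symm [FiniteDimensional ℂ E] [FiniteDimensional ℂ F] (D : Dec E F) (A : Adm D) : ∃ B : Adm D, B.f = A.g ∧ B.g = A.f := 
  ⟨{ f := A.g
     g := A.f
     maps_f := A.maps_g
     maps_g := A.maps_f
     left := A.right
     right := A.left
     an_f := A.an_g
     an_g := A.an_f
     ext_f := A.ext_g
     ext_g := A.ext_f }, rfl, rfl⟩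

theorem adm_comp [FiniteDimensional ℂ E] [FiniteDimensional ℂ F] (D : Dec E F) (A B : Adm D) : ∃ C : Adm D, (C.f = fun v => A.f (B.f v)) ∧
    (C.g = fun v => B.g (A.g v)) :=
  ⟨{ f := fun v => A.f (B.f v)
     g := fun v => B.g (A.g v)
     maps_f := fun v hv => A.maps_f _ (B.maps_f v hv)
     maps_g := fun v hv => B.maps_g _ (A.maps_g v hv)
     left := fun v hv => by
       show B.g (A.g (A.f (B.f v))) = v
       rw [A.left _ (B.maps_f v hv), B.left v hv]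
     right := fun v hv => by
       show A.f (B.f (B.g (A.g v))) = v
       rw [B.right _ (A.maps_g v hv), A.right v hv]
     an_f := A.an_f.comp B.an_f (fun v hv => B.maps_f v hv)
     an_g := B.an_g.comp A.an_g (fun v hv => A.maps_g v hv)
     ext_f := ext_comp235 D B.f A.f B.ext_f A.ext_f B.maps_f B.an_f.continuousOn
     ext_g := ext_comp235 D A.g B.g A.ext_g B.ext_g A.maps_g A.an_g.continuousOn }, rfl, rfl⟩

end



end Pool.Agent.Helper536.LK.LC1

namespace Pool.Agent.Helper536.LK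
alias adm_symm := LC1.adm_symm
alias adm_comp := LC1.adm_comp
end Pool.Agent.Helper536.LK
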