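import Pool.Agent.Helper536.LK.SDefs
import Pool.Agent.Helper536.LK.TowerDef

open scoped ContDiff Topology

open Set Metric

noncomputable section

namespace Pool.Agent.Helper536.LK.LC10

section

variable {E F : Type*} [NormedAddCommGroup E] [InnerProductSpace ℂ E]
    [NormedAddCommGroup F] [InnerProductSpace ℂ F]

end

section A

variable {E E' : Type*} [NormedAddCommGroup E] [NormedSpace ℂ E] [NormedAddCommGroup E']
  [NormedSpace ℂ E']

end A



section

variable {E F : Type*} [NormedAddCommGroup E] [InnerProductSpace ℂ E]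
    [NormedAddCommGroup F] [InnerProductSpace ℂ F]



theorem lam_exists_aux (k : ℕ) (c : ℝ) (hc : 0 < c) :
    Filter.Tendsto (fun x : ℝ => x ^ k * Real.exp (-(x * c))) Filter.atTop (𝓝 0) := by
  have h1 := (Real.tendsto_pow_mul_exp_neg_atTop_nhds_zero k).comp
    (Filter.tendsto_id.atTop_mul_const hc)
  have h2 := h1.const_mul ((c ^ k)⁻¹)
  rw [mul_zero] at h2
  refine h2.congr fun x => ?_
  have hck : c ^ k ≠ 0 := (pow_pos hc k).ne'
  simp only [Function.comp, id]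
  rw [mul_pow]
  field_simp

theorem lam_exists (m : ℕ) (g Q δ ρ ε : ℝ) (hg : 0 < g) (hQ : 1 ≤ Q) (hδ : 0 < δ) (hρ : 0 ≤ ρ)
    (hε : 0 < ε) : ∃ lam τ η σ : ℝ, 1 ≤ lam ∧ τ = 100 * lam ^ 2 * Q ^ 2 * Real.exp (-(lam * g)) ∧
      η = m * Real.exp (-(lam * g)) ∧ σ = Real.exp (-(lam / 2)) * (ρ + 1) + m * τ ∧ τ ≤ 1 ∧
      m * τ ≤ δ ∧ η + m * τ ≤ 1 / 10 ∧ η + m * τ ≤ ε ∧ σ ≤ 1 ∧ σ ≤ ε ∧ lam * σ ≤ ε := by
  have g0 := lam_exists_aux 0 g hg
  have g2 := lam_exists_aux 2 g hg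
  have g3 := lam_exists_aux 3 g hg
  have k0 := lam_exists_aux 0 (1 / 2) (by norm_num)
  have k1 := lam_exists_aux 1 (1 / 2) (by norm_num)
  have tτ : Filter.Tendsto (fun x : ℝ => 100 * x ^ 2 * Q ^ 2 * Real.exp (-(x * g)))
      Filter.atTop (𝓝 0) := by
    have := g2.const_mul (100 * Q ^ 2)
    rw [mul_zero] at this
    exact this.congr fun x => by ring
  have tη : Filter.Tendsto (fun x : ℝ => (m : ℝ) * Real.exp (-(x * g))) Filter.atTop (𝓝 0) := by
    have := g0.const_mul (m : ℝ)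
    rw [mul_zero] at this
    exact this.congr fun x => by ring
  have tmτ : Filter.Tendsto (fun x : ℝ => (m : ℝ) * (100 * x ^ 2 * Q ^ 2 * Real.exp (-(x * g))))
      Filter.atTop (𝓝 0) := by
    have := tτ.const_mul (m : ℝ)
    rwa [mul_zero] at this
  have tσ : Filter.Tendsto (fun x : ℝ => Real.exp (-(x / 2)) * (ρ + 1) +
      (m : ℝ) * (100 * x ^ 2 * Q ^ 2 * Real.exp (-(x * g)))) Filter.atTop (𝓝 0) := by
    have := (k0.mul_const (ρ + 1)).add tmτ
    rw [zero_mul, zero_add] at this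
    refine this.congr fun x => ?_
    rw [show x * (1 / 2) = x / 2 by ring]
    ring
  have tlσ : Filter.Tendsto (fun x : ℝ => x * (Real.exp (-(x / 2)) * (ρ + 1) +
      (m : ℝ) * (100 * x ^ 2 * Q ^ 2 * Real.exp (-(x * g))))) Filter.atTop (𝓝 0) := by
    have := (k1.mul_const (ρ + 1)).add (g3.const_mul ((m : ℝ) * (100 * Q ^ 2)))
    rw [zero_mul, zero_add, mul_zero] at this
    refine this.congr fun x => ?_
    rw [show x * (1 / 2) = x / 2 by ring]
    ring
  have tητ := tη.add tmτ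
  rw [zero_add] at tητ
  have e := (((((((Filter.eventually_ge_atTop (1 : ℝ)).and (tτ.eventually_le_const one_pos)).and
    (tmτ.eventually_le_const hδ)).and
    (tητ.eventually_le_const (show (0 : ℝ) < 1 / 10 by norm_num))).and
    (tητ.eventually_le_const hε)).and
    (tσ.eventually_le_const one_pos)).and (tσ.eventually_le_const hε)).and
    (tlσ.eventually_le_const hε)
  obtain ⟨x, ⟨⟨⟨⟨⟨⟨h1, h2⟩, h3⟩, h4⟩, h5⟩, h6⟩, h7⟩, h8⟩ := e.exists
  exact ⟨x, _, _, _, h1, rfl, rfl, rfl, h2, h3, h4, h5, h6, h7, h8⟩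

end



end Pool.Agent.Helper536.LK.LC10

namespace Pool.Agent.Helper536.LK
alias lam_exists := LC10.lam_exists
end Pool.Agent.Helper536.LK
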