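import Pool.Agent.Helper536.LK.SDefs
import Pool.Agent.Helper536.LK.TowerDef

open scoped ContDiff Topology

open Set Metric

noncomputable section

namespace Pool.Agent.Helper536.LK.LC4

section

variable {E F : Type*} [NormedAddCommGroup E] [InnerProductSpace ℂ E]
    [NormedAddCommGroup F] [InnerProductSpace ℂ F]

end

section A

variable {E E' : Type*} [NormedAddCommGroup E] [NormedSpace ℂ E] [NormedAddCommGroup E']
  [NormedSpace ℂ E']

end A



section

variable {E F : Type*} [NormedAddCommGroup E] [InnerProductSpace ℂ E]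
    [NormedAddCommGroup F] [InnerProductSpace ℂ F]



theorem gau_analytic [FiniteDimensional ℂ F] (lam : ℝ) (a : F) (r : ℝ) : AnalyticOnNhd ℂ (gau lam a r) univ := by
  intro x _
  have hlin : AnalyticAt ℂ (fun y : F => inner ℂ a y) x := (innerSL ℂ a).analyticAt x
  have h : AnalyticAt ℂ (fun y : F =>
      (lam : ℂ) * (2 * inner ℂ a y - ((‖a‖ ^ 2 : ℝ) : ℂ) + ((r ^ 2 : ℝ) : ℂ))) x :=
    analyticAt_const.mul (((analyticAt_const.mul hlin).sub analyticAt_const).add analyticAt_const)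
  exact h.cexp

theorem norm_gau (lam : ℝ) (a : F) (r : ℝ) (x : F) :
    ‖gau lam a r x‖ = Real.exp (lam * (‖x‖ ^ 2 - ‖x - a‖ ^ 2 + r ^ 2)) := by
  unfold gau
  rw [Complex.norm_exp]
  congr 1
  have h1 : ‖x - a‖ ^ 2 = ‖x‖ ^ 2 - 2 * RCLike.re (inner ℂ x a) + ‖a‖ ^ 2 := norm_sub_sq x a
  have h2 : RCLike.re (inner ℂ x a) = (inner ℂ a x : ℂ).re := by
    rw [inner_re_symm]; rfl
  rw [h1, h2, Complex.re_ofReal_mul]
  simp only [Complex.add_re, Complex.sub_re, Complex.ofReal_re]
  have h3 : (2 * inner ℂ a x : ℂ).re = 2 * (inner ℂ a x : ℂ).re := by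
    simp
  rw [h3]
  ring

end



end Pool.Agent.Helper536.LK.LC4

namespace Pool.Agent.Helper536.LK
alias gau_analytic := LC4.gau_analytic
alias norm_gau := LC4.norm_gau
end Pool.Agent.Helper536.LK
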