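import Pool.Agent.Helper536.LK.SDefs
import Pool.Agent.Helper536.LK.TowerDef
import Pool.Agent.Helper536.LK.LC4

open scoped ContDiff Topology

open Set Metric

noncomputable section

namespace Pool.Agent.Helper536.LK.LC11

section

variable {E F : Type*} [NormedAddCommGroup E] [InnerProductSpace ℂ E]
    [NormedAddCommGroup F] [InnerProductSpace ℂ F]

end

section A

variable {E E' : Type*} [NormedAddCommGroup E] [NormedSpace ℂ E] [NormedAddCommGroup E']
  [NormedSpace ℂ E']

end A



section

variable {E F : Type*} [NormedAddCommGroup E] [InnerProductSpace ℂ E]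
    [NormedAddCommGroup F] [InnerProductSpace ℂ F]



theorem Phi_near [FiniteDimensional ℂ F] (m : ℕ) (a : Fin m → F) (r : Fin m → ℝ) (lam g : ℝ) (hlam : 0 ≤ lam) (k : Fin m) (x : F)
    (hx : ∀ j, j ≠ k → ‖x - a k‖ ^ 2 - r k ^ 2 + g ≤ ‖x - a j‖ ^ 2 - r j ^ 2) :
    ‖(∑ j, gau lam (a j) (r j) x) / gau lam (a k) (r k) x - 1‖ ≤ m * Real.exp (-(lam * g)) := by
  classical
  have hk : gau lam (a k) (r k) x ≠ 0 := Complex.exp_ne_zero _
  have h1 : (∑ j, gau lam (a j) (r j) x) / gau lam (a k) (r k) x - 1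
      = ∑ j ∈ Finset.univ.erase k, gau lam (a j) (r j) x / gau lam (a k) (r k) x := by
    rw [Finset.sum_div, ← Finset.add_sum_erase _ _ (Finset.mem_univ k), div_self hk]
    ring
  rw [h1]
  have h2 : ∀ j ∈ Finset.univ.erase k,
      ‖gau lam (a j) (r j) x / gau lam (a k) (r k) x‖ ≤ Real.exp (-(lam * g)) := by
    intro j hj
    have hjk := Finset.ne_of_mem_erase hj
    have h3 := mul_le_mul_of_nonneg_left (hx j hjk) hlam
    rw [norm_div, norm_gau, norm_gau, ← Real.exp_sub]
    apply Real.exp_le_exp.mpr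
    linarith
  refine (norm_sum_le _ _).trans ((Finset.sum_le_card_nsmul _ _ _ h2).trans ?_)
  rw [nsmul_eq_mul]
  apply mul_le_mul_of_nonneg_right _ (Real.exp_pos _).le
  have h4 : (Finset.univ.erase k).card ≤ m := by
    refine (Finset.card_erase_le).trans ?_
    simp
  exact_mod_cast h4

end



end Pool.Agent.Helper536.LK.LC11

namespace Pool.Agent.Helper536.LK
alias Phi_near := LC11.Phi_near
end Pool.Agent.Helper536.LK
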