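import Pool.Agent.Helper536.LK.SDefs
import Pool.Agent.Helper536.LK.TowerDef

open scoped ContDiff Topology

open Set Metric

noncomputable section

namespace Pool.Agent.Helper536.LK.LC2

section

variable {E F : Type*} [NormedAddCommGroup E] [InnerProductSpace ℂ E]
    [NormedAddCommGroup F] [InnerProductSpace ℂ F]

end

section A

variable {E E' : Type*} [NormedAddCommGroup E] [NormedSpace ℂ E] [NormedAddCommGroup E']
  [NormedSpace ℂ E']

end A



section

variable {E F : Type*} [NormedAddCommGroup E] [InnerProductSpace ℂ E]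
    [NormedAddCommGroup F] [InnerProductSpace ℂ F]



theorem adm_scale_aux (D : Dec E F) (f g : E → E) [FiniteDimensional ℂ E]
    (hfo : ∀ v ∈ D.Om, f v ∈ D.Om) (hgo : ∀ v ∈ D.Om, g v ∈ D.Om)
    (hl : ∀ v, g (f v) = v) (hr : ∀ v, f (g v) = v)
    (haf : AnalyticOnNhd ℂ f univ) (hag : AnalyticOnNhd ℂ g univ) :
    ∃ A : Adm D, ∀ v, A.f v = f v := by
  have : CompleteSpace E := FiniteDimensional.complete ℂ E
  have hsf : ContDiff ℝ ∞ f := (haf.contDiff (n := ∞)).restrict_scalars ℝ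
  have hsg : ContDiff ℝ ∞ g := (hag.contDiff (n := ∞)).restrict_scalars ℝ
  have hop : IsOpen D.Om := isOpen_ne_fun D.Z.continuous continuous_const
  refine ⟨⟨f, g, hfo, hgo, fun v _ => hl v, fun v _ => hr v, haf.mono (subset_univ _),
    hag.mono (subset_univ _), ?_, ?_⟩, fun v => rfl⟩
  · intro K _ hK
    exact ⟨⟨f, g, hl, hr, hsf, hsg⟩, D.Om, hop, hK, subset_rfl, fun v _ => rfl⟩
  · intro K _ hK
    exact ⟨⟨g, f, hr, hl, hsg, hsf⟩, D.Om, hop, hK, subset_rfl, fun v _ => rfl⟩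

theorem adm_scale_an (D : Dec E F) (a : E → F) (b : E → ℂ) (ha : AnalyticOnNhd ℂ a univ)
    (hb : AnalyticOnNhd ℂ b univ) : AnalyticOnNhd ℂ (fun v => D.i (a v) + b v • D.e) univ := by
  intro v hv
  exact ((D.i.analyticAt _).comp (ha v hv)).add ((hb v hv).smul analyticAt_const)

theorem adm_scale [FiniteDimensional ℂ E] [FiniteDimensional ℂ F] (D : Dec E F) (κ : ℂ) (hκ : κ ≠ 0) :
    ∃ A : Adm D, ∀ v, A.f v = D.i (κ • D.X v) + D.Z v • D.e := by
  refine adm_scale_aux D (fun v => D.i (κ • D.X v) + D.Z v • D.e)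
    (fun v => D.i (κ⁻¹ • D.X v) + D.Z v • D.e) ?_ ?_ ?_ ?_ ?_ ?_
  · intro v hv
    change D.Z (D.i (κ • D.X v) + D.Z v • D.e) ≠ 0
    rw [D.hZ]
    exact hv
  · intro v hv
    change D.Z (D.i (κ⁻¹ • D.X v) + D.Z v • D.e) ≠ 0
    rw [D.hZ]
    exact hv
  · intro v
    simp only [D.hX, D.hZ]
    rw [smul_smul, inv_mul_cancel₀ hκ, one_smul, D.dec]
  · intro v
    simp only [D.hX, D.hZ]
    rw [smul_smul, mul_inv_cancel₀ hκ, one_smul, D.dec]
  · exact adm_scale_an D _ _ (fun v _ => analyticAt_const.smul (D.X.analyticAt v))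
      (fun v _ => D.Z.analyticAt v)
  · exact adm_scale_an D _ _ (fun v _ => analyticAt_const.smul (D.X.analyticAt v))
      (fun v _ => D.Z.analyticAt v)

theorem adm_mul [FiniteDimensional ℂ E] [FiniteDimensional ℂ F] (D : Dec E F) (h : F → ℂ) (hh : AnalyticOnNhd ℂ h univ) :
    ∃ A : Adm D, ∀ v, A.f v = D.i (D.X v) + (D.Z v * Complex.exp (h (D.X v))) • D.e := by
  refine adm_scale_aux D (fun v => D.i (D.X v) + (D.Z v * Complex.exp (h (D.X v))) • D.e)
    (fun v => D.i (D.X v) + (D.Z v * Complex.exp (-h (D.X v))) • D.e) ?_ ?_ ?_ ?_ ?_ ?_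
  · intro v hv
    change D.Z (D.i (D.X v) + (D.Z v * Complex.exp (h (D.X v))) • D.e) ≠ 0
    rw [D.hZ]
    exact mul_ne_zero hv (Complex.exp_ne_zero _)
  · intro v hv
    change D.Z (D.i (D.X v) + (D.Z v * Complex.exp (-h (D.X v))) • D.e) ≠ 0
    rw [D.hZ]
    exact mul_ne_zero hv (Complex.exp_ne_zero _)
  · intro v
    simp only [D.hX, D.hZ]
    rw [mul_assoc, ← Complex.exp_add, add_neg_cancel, Complex.exp_zero, mul_one, D.dec]
  · intro v
    simp only [D.hX, D.hZ]
    rw [mul_assoc, ← Complex.exp_add, neg_add_cancel, Complex.exp_zero, mul_one, D.dec]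
  · refine adm_scale_an D _ _ (fun v _ => D.X.analyticAt v) (fun v _ => ?_)
    exact (D.Z.analyticAt v).mul (((hh _ (mem_univ _)).comp (D.X.analyticAt v)).cexp)
  · refine adm_scale_an D _ _ (fun v _ => D.X.analyticAt v) (fun v _ => ?_)
    exact (D.Z.analyticAt v).mul ((((hh _ (mem_univ _)).comp (D.X.analyticAt v)).neg).cexp)

end



end Pool.Agent.Helper536.LK.LC2

namespace Pool.Agent.Helper536.LK
alias adm_scale := LC2.adm_scale
alias adm_mul := LC2.adm_mul
end Pool.Agent.Helper536.LK
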