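import Pool.Agent.Helper536.LK.SDefs
import Pool.Agent.Helper536.LK.TowerDef

open scoped ContDiff Topology

open Set Metric

noncomputable section

namespace Pool.Agent.Helper536.LK.LC7

section

variable {E F : Type*} [NormedAddCommGroup E] [InnerProductSpace ℂ E]
    [NormedAddCommGroup F] [InnerProductSpace ℂ F]

end

section A

variable {E E' : Type*} [NormedAddCommGroup E] [NormedSpace ℂ E] [NormedAddCommGroup E']
  [NormedSpace ℂ E']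

end A



section

variable {E F : Type*} [NormedAddCommGroup E] [InnerProductSpace ℂ E]
    [NormedAddCommGroup F] [InnerProductSpace ℂ F]



theorem gap (m : ℕ) (a : Fin m → F) (r : Fin m → ℝ) (hr : ∀ i, 0 ≤ r i)
    (hd : ∀ i j, i ≠ j → r i + r j < ‖a i - a j‖) :
    ∃ (δ g Q : ℝ), 0 < δ ∧ δ ≤ 1 ∧ 0 < g ∧ 1 ≤ Q ∧ ∀ i j, i ≠ j → ‖a i - a j‖ ≤ Q ∧ ∀ x, ‖x - a i‖ ≤ r i + δ →
      ‖x - a j‖ ≤ Q ∧ ‖x - a i‖ ^ 2 - r i ^ 2 + g ≤ ‖x - a j‖ ^ 2 - r j ^ 2 := by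
  obtain ⟨d, hd0, hd1, hdd⟩ : ∃ d : ℝ, 0 < d ∧ d ≤ 1 ∧ ∀ i j, i ≠ j →
      d ≤ ‖a i - a j‖ - r i - r j := by
    have h1 : ∀ᶠ d : ℝ in 𝓝[>] 0, d ≤ 1 :=
      nhdsWithin_le_nhds ((eventually_lt_nhds (by norm_num : (0:ℝ) < 1)).mono fun _ h => h.le)
    have h2 : ∀ᶠ d : ℝ in 𝓝[>] 0, ∀ i j, i ≠ j → d ≤ ‖a i - a j‖ - r i - r j := by
      rw [Filter.eventually_all]
      intro i
      rw [Filter.eventually_all]
      intro j
      by_cases hij : i = j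
      · exact Filter.Eventually.of_forall fun d h => absurd hij h
      · have h3 : 0 < ‖a i - a j‖ - r i - r j := by linarith [hd i j hij]
        exact nhdsWithin_le_nhds ((eventually_lt_nhds h3).mono fun _ h _ => h.le)
    have h3 : ∀ᶠ d : ℝ in 𝓝[>] 0, 0 < d := self_mem_nhdsWithin
    obtain ⟨d, h4, h5, h6⟩ := (h1.and (h2.and h3)).exists
    exact ⟨d, h6, h4, h5⟩
  obtain ⟨ρ, hρ0, hρ⟩ : ∃ ρ : ℝ, 0 ≤ ρ ∧ ∀ i, r i ≤ ρ :=
    ⟨∑ i, r i, Finset.sum_nonneg fun i _ => hr i,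
      fun i => Finset.single_le_sum (fun i _ => hr i) (Finset.mem_univ i)⟩
  obtain ⟨D, hD0, hD⟩ : ∃ D : ℝ, 0 ≤ D ∧ ∀ i j, ‖a i - a j‖ ≤ D := by
    refine ⟨∑ i, ∑ j, ‖a i - a j‖, Finset.sum_nonneg fun i _ => Finset.sum_nonneg fun j _ =>
      norm_nonneg _, fun i j => ?_⟩
    calc ‖a i - a j‖ ≤ ∑ j, ‖a i - a j‖ :=
          Finset.single_le_sum (f := fun j => ‖a i - a j‖) (fun j _ => norm_nonneg _)
            (Finset.mem_univ j)
      _ ≤ ∑ i, ∑ j, ‖a i - a j‖ :=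
          Finset.single_le_sum (f := fun i => ∑ j, ‖a i - a j‖)
            (fun i _ => Finset.sum_nonneg fun j _ => norm_nonneg _) (Finset.mem_univ i)
  obtain ⟨δ, hδ⟩ : ∃ δ : ℝ, δ = d ^ 2 / (4 * (2 * ρ + 1)) := ⟨_, rfl⟩
  have h2ρ : 0 < 4 * (2 * ρ + 1) := by linarith
  have hδ0 : 0 < δ := by rw [hδ]; positivity
  have hδ2 : δ * (2 * ρ + 1) = d ^ 2 / 4 := by
    rw [hδ]
    field_simp
  have hδd : δ ≤ d / 4 := by nlinarith
  refine ⟨δ, d ^ 2 / 4, 1 + ρ + D, hδ0, by linarith, by positivity, by linarith, ?_⟩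
  intro i j hij
  refine ⟨by linarith [hD i j], fun x hx => ?_⟩
  have t1 : ‖x - a j‖ ≤ ‖x - a i‖ + ‖a i - a j‖ := by
    have := norm_add_le (x - a i) (a i - a j)
    simpa using this
  have t2 : ‖a i - a j‖ ≤ ‖x - a i‖ + ‖x - a j‖ := by
    have := norm_sub_le (x - a j) (x - a i)
    have e : x - a j - (x - a i) = a i - a j := by abel
    rw [e] at this
    linarith
  have hri := hr i
  have hrj := hr j
  have hρi := hρ i
  have hdij := hdd i j hij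
  refine ⟨by linarith [hD i j], ?_⟩
  have h1 : r j + d - δ ≤ ‖x - a j‖ := by linarith
  have h2 : (r j + d - δ) ^ 2 ≤ ‖x - a j‖ ^ 2 := pow_le_pow_left₀ (by linarith) h1 2
  have h3 : ‖x - a i‖ ^ 2 ≤ (r i + δ) ^ 2 := pow_le_pow_left₀ (norm_nonneg _) hx 2
  have h4 : (r i + δ) ^ 2 ≤ r i ^ 2 + d ^ 2 / 4 := by
    rw [← hδ2]
    nlinarith
  have h5 : r j ^ 2 + 9 * d ^ 2 / 16 ≤ (r j + d - δ) ^ 2 := by
    have h6 : 3 * d / 4 ≤ d - δ := by linarith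
    nlinarith [mul_nonneg hrj (by linarith : (0:ℝ) ≤ d - δ)]
  nlinarith [sq_nonneg d]

end



end Pool.Agent.Helper536.LK.LC7

namespace Pool.Agent.Helper536.LK
alias gap := LC7.gap
end Pool.Agent.Helper536.LK
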