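import Pool.Agent.Helper536.LK.SDefs
import Pool.Agent.Helper536.LK.TowerDef

open scoped ContDiff Topology

open Set Metric

noncomputable section

namespace Pool.Agent.Helper536.LK.LC3

section

variable {E F : Type*} [NormedAddCommGroup E] [InnerProductSpace ℂ E]
    [NormedAddCommGroup F] [InnerProductSpace ℂ F]

end

section A

variable {E E' : Type*} [NormedAddCommGroup E] [NormedSpace ℂ E] [NormedAddCommGroup E']
  [NormedSpace ℂ E']

end A



section

variable {E F : Type*} [NormedAddCommGroup E] [InnerProductSpace ℂ E]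
    [NormedAddCommGroup F] [InnerProductSpace ℂ F]



/-- general form of the overshear -/
def adm_over_gen (D : Dec E F) (a : F) (G : F → ℂ) (ψ : ℂ → ℂ) (t : ℝ) (v : E) : E :=
  D.i (a + Complex.exp (-(t * ψ (D.Z v / G (D.X v)))) • (D.X v - a)) +
    (D.Z v / G (D.X v) * G (a + Complex.exp (-(t * ψ (D.Z v / G (D.X v)))) • (D.X v - a))) • D.e

theorem adm_over_gen_eq (D : Dec E F) (a : F) (G : F → ℂ) (t : ℝ) (v : E) :
    adm_over_gen D a G (fun z => z⁻¹) t v = ovr D a G t v := by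
  unfold adm_over_gen ovr
  simp only [inv_div]

theorem adm_over_X (D : Dec E F) (a : F) (G : F → ℂ) (ψ : ℂ → ℂ) (t : ℝ) (v : E) :
    D.X (adm_over_gen D a G ψ t v) =
      a + Complex.exp (-(t * ψ (D.Z v / G (D.X v)))) • (D.X v - a) := D.hX _ _

theorem adm_over_Z (D : Dec E F) (a : F) (G : F → ℂ) (ψ : ℂ → ℂ) (t : ℝ) (v : E) :
    D.Z (adm_over_gen D a G ψ t v) = D.Z v / G (D.X v) * G (D.X (adm_over_gen D a G ψ t v)) := by
  rw [adm_over_X]
  exact D.hZ _ _

theorem adm_over_ratio (D : Dec E F) (a : F) (G : F → ℂ) (hG0 : ∀ x, G x ≠ 0) (ψ : ℂ → ℂ) (t : ℝ)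
    (v : E) : D.Z (adm_over_gen D a G ψ t v) / G (D.X (adm_over_gen D a G ψ t v)) =
      D.Z v / G (D.X v) := by
  rw [adm_over_Z, mul_div_assoc, div_self (hG0 _), mul_one]

theorem adm_over_inv (D : Dec E F) (a : F) (G : F → ℂ) (hG0 : ∀ x, G x ≠ 0) (ψ : ℂ → ℂ) (t s : ℝ)
    (hst : s + t = 0) (v : E) : adm_over_gen D a G ψ s (adm_over_gen D a G ψ t v) = v := by
  have h1 : D.X (adm_over_gen D a G ψ s (adm_over_gen D a G ψ t v)) = D.X v := by
    rw [adm_over_X, adm_over_ratio D a G hG0, adm_over_X, add_sub_cancel_left, smul_smul,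
      ← Complex.exp_add]
    have : -((s : ℂ) * ψ (D.Z v / G (D.X v))) + -((t : ℂ) * ψ (D.Z v / G (D.X v))) = 0 := by
      have h2 : (s : ℂ) + t = 0 := by exact_mod_cast hst
      linear_combination (-ψ (D.Z v / G (D.X v))) * h2
    rw [this, Complex.exp_zero, one_smul]
    abel
  have h2 : D.Z (adm_over_gen D a G ψ s (adm_over_gen D a G ψ t v)) = D.Z v := by
    rw [adm_over_Z, adm_over_ratio D a G hG0, h1, div_mul_cancel₀ _ (hG0 _)]
  rw [← D.dec (adm_over_gen D a G ψ s (adm_over_gen D a G ψ t v)), h1, h2, D.dec]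

theorem adm_over_maps (D : Dec E F) (a : F) (G : F → ℂ) (hG0 : ∀ x, G x ≠ 0) (ψ : ℂ → ℂ) (t : ℝ)
    (v : E) (hv : v ∈ D.Om) : adm_over_gen D a G ψ t v ∈ D.Om := by
  show D.Z (adm_over_gen D a G ψ t v) ≠ 0
  rw [adm_over_Z]
  exact mul_ne_zero (div_ne_zero hv (hG0 _)) (hG0 _)

theorem adm_over_an (D : Dec E F) (a : F) (G : F → ℂ) (hG : AnalyticOnNhd ℂ G univ)
    (hG0 : ∀ x, G x ≠ 0) (t : ℝ) :
    AnalyticOnNhd ℂ (adm_over_gen D a G (fun z => z⁻¹) t) D.Om := by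
  intro v hv
  have hX : AnalyticAt ℂ (fun v => D.X v) v := D.X.analyticAt v
  have hZ : AnalyticAt ℂ (fun v => D.Z v) v := D.Z.analyticAt v
  have hGX : AnalyticAt ℂ (fun v => G (D.X v)) v :=
    (hG (D.X v) (mem_univ _)).fun_comp hX
  have hr : AnalyticAt ℂ (fun v => D.Z v / G (D.X v)) v := hZ.div hGX (hG0 _)
  have hri : AnalyticAt ℂ (fun v => (D.Z v / G (D.X v))⁻¹) v :=
    hr.inv (div_ne_zero hv (hG0 _))
  have he : AnalyticAt ℂ (fun v => Complex.exp (-((t : ℂ) * (D.Z v / G (D.X v))⁻¹))) v :=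
    ((analyticAt_const.mul hri).neg).cexp
  have hX' : AnalyticAt ℂ
      (fun v => a + Complex.exp (-((t : ℂ) * (D.Z v / G (D.X v))⁻¹)) • (D.X v - a)) v :=
    analyticAt_const.add (he.smul (hX.sub analyticAt_const))
  have hGX' : AnalyticAt ℂ
      (fun v => G (a + Complex.exp (-((t : ℂ) * (D.Z v / G (D.X v))⁻¹)) • (D.X v - a))) v :=
    (hG _ (mem_univ _)).fun_comp hX'
  have h1 : AnalyticAt ℂ
      (fun v => D.i (a + Complex.exp (-((t : ℂ) * (D.Z v / G (D.X v))⁻¹)) • (D.X v - a))) v :=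
    (D.i.analyticAt _).fun_comp hX'
  exact h1.add ((hr.mul hGX').smul analyticAt_const)

theorem adm_over_smooth [FiniteDimensional ℂ E] [FiniteDimensional ℂ F] (D : Dec E F) (a : F)
    (G : F → ℂ) (hG : AnalyticOnNhd ℂ G univ) (hG0 : ∀ x, G x ≠ 0) (ψ : ℂ → ℂ)
    (hψ : ContDiff ℝ ∞ ψ) (t : ℝ) : ContDiff ℝ ∞ (adm_over_gen D a G ψ t) := by
  have hGr : ContDiff ℝ ∞ G :=
    contDiff_iff_contDiffAt.2 fun x => ((hG x (mem_univ _)).contDiffAt).restrict_scalars ℝ
  have hX : ContDiff ℝ ∞ (fun v => D.X v) := (D.X.contDiff).restrict_scalars ℝ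
  have hZ : ContDiff ℝ ∞ (fun v => D.Z v) := (D.Z.contDiff).restrict_scalars ℝ
  have hi : ContDiff ℝ ∞ (fun v => D.i v) := (D.i.contDiff).restrict_scalars ℝ
  have hGX : ContDiff ℝ ∞ (fun v => G (D.X v)) := hGr.comp hX
  have hr : ContDiff ℝ ∞ (fun v => D.Z v / G (D.X v)) := by
    have h := hZ.mul (hGX.inv (fun v => hG0 _))
    simp only [div_eq_mul_inv]
    exact h
  have hψr : ContDiff ℝ ∞ (fun v => ψ (D.Z v / G (D.X v))) := hψ.comp hr
  have he : ContDiff ℝ ∞ (fun v => Complex.exp (-((t : ℂ) * ψ (D.Z v / G (D.X v))))) :=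
    (contDiff_const.mul hψr).neg.cexp
  have hX' : ContDiff ℝ ∞
      (fun v => a + Complex.exp (-((t : ℂ) * ψ (D.Z v / G (D.X v)))) • (D.X v - a)) :=
    contDiff_const.add (he.smul (hX.sub contDiff_const))
  have hGX' : ContDiff ℝ ∞
      (fun v => G (a + Complex.exp (-((t : ℂ) * ψ (D.Z v / G (D.X v)))) • (D.X v - a))) :=
    hGr.comp hX'
  exact (hi.comp hX').add ((hr.mul hGX').smul contDiff_const)

/-- smooth function equal to the inverse away from zero -/
def adm_over_psi (δ : ℝ) (z : ℂ) : ℂ :=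
  (Real.smoothTransition (2 * ‖z‖ ^ 2 / δ - 1) : ℝ) * z⁻¹

theorem adm_over_psi_smooth (δ : ℝ) (hδ : 0 < δ) : ContDiff ℝ ∞ (adm_over_psi δ) := by
  rw [contDiff_iff_contDiffAt]
  intro z
  by_cases hz : z = 0
  · -- locally zero
    have h1 : adm_over_psi δ =ᶠ[𝓝 z] fun _ => 0 := by
      have ho : IsOpen {w : ℂ | 2 * ‖w‖ ^ 2 / δ - 1 < 0} :=
        isOpen_lt (by fun_prop) continuous_const
      have hm : z ∈ {w : ℂ | 2 * ‖w‖ ^ 2 / δ - 1 < 0} := by
        rw [hz]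
        show 2 * ‖(0:ℂ)‖ ^ 2 / δ - 1 < 0
        simp
      filter_upwards [ho.mem_nhds hm] with w hw
      have hw' : 2 * ‖w‖ ^ 2 / δ - 1 < 0 := hw
      unfold adm_over_psi
      rw [Real.smoothTransition.zero_of_nonpos hw'.le]
      simp
    exact contDiffAt_const.congr_of_eventuallyEq h1
  · have h1 : ContDiff ℝ ∞ (fun w : ℂ => 2 * ‖w‖ ^ 2 / δ - 1) := by
      have h2 : ContDiff ℝ ∞ (fun w : ℂ => ‖w‖ ^ 2) := contDiff_norm_sq ℝ
      exact ((contDiff_const.mul h2).div_const _).sub contDiff_const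
    have h3 : ContDiff ℝ ∞ (fun w : ℂ => Real.smoothTransition (2 * ‖w‖ ^ 2 / δ - 1)) :=
      Real.smoothTransition.contDiff.comp h1
    have h4 : ContDiff ℝ ∞ (fun w : ℂ =>
        ((Real.smoothTransition (2 * ‖w‖ ^ 2 / δ - 1) : ℝ) : ℂ)) :=
      Complex.ofRealCLM.contDiff.comp h3
    have h5 : ContDiffAt ℝ ∞ (fun w : ℂ => w⁻¹) z := contDiffAt_inv ℝ hz
    exact h4.contDiffAt.mul h5

theorem adm_over_psi_eq (δ : ℝ) (hδ : 0 < δ) (z : ℂ) (hz : δ ≤ ‖z‖ ^ 2) :
    adm_over_psi δ z = z⁻¹ := by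
  unfold adm_over_psi
  rw [Real.smoothTransition.one_of_one_le]
  · simp
  · have : 2 ≤ 2 * ‖z‖ ^ 2 / δ := by
      rw [le_div_iff₀ hδ]
      linarith
    linarith

theorem adm_over_ext [FiniteDimensional ℂ E] [FiniteDimensional ℂ F] (D : Dec E F) (a : F)
    (G : F → ℂ) (hG : AnalyticOnNhd ℂ G univ) (hG0 : ∀ x, G x ≠ 0) (t : ℝ) (K : Set E)
    (hK : IsCompact K) (hKO : K ⊆ D.Om) : ∃ (d : Dif E) (U : Set E), IsOpen U ∧ K ⊆ U ∧
      U ⊆ D.Om ∧ EqOn d.f (adm_over_gen D a G (fun z => z⁻¹) t) U := by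
  have hGc : Continuous G := by
    rw [continuous_iff_continuousAt]
    exact fun x => (hG x (mem_univ _)).continuousAt
  have hrc : Continuous fun v => ‖D.Z v / G (D.X v)‖ := by
    apply Continuous.norm
    exact D.Z.continuous.div (hGc.comp D.X.continuous) (fun v => hG0 _)
  obtain ⟨c, hc, hcK⟩ := hK.exists_forall_le' (a := 0) hrc.continuousOn (by
    intro v hv
    rw [norm_pos_iff]
    exact div_ne_zero (hKO hv) (hG0 _))
  set δ : ℝ := (c / 2) ^ 2 with hδ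
  have hδ0 : 0 < δ := by positivity
  have hs := adm_over_psi_smooth δ hδ0
  refine ⟨⟨adm_over_gen D a G (adm_over_psi δ) t, adm_over_gen D a G (adm_over_psi δ) (-t),
    fun x => adm_over_inv D a G hG0 _ _ _ (by ring) x,
    fun x => adm_over_inv D a G hG0 _ _ _ (by ring) x,
    adm_over_smooth D a G hG hG0 _ hs _, adm_over_smooth D a G hG hG0 _ hs _⟩,
    {v | c / 2 < ‖D.Z v / G (D.X v)‖}, isOpen_lt continuous_const hrc, ?_, ?_, ?_⟩
  · intro v hv
    have := hcK v hv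
    show c / 2 < ‖D.Z v / G (D.X v)‖
    linarith
  · intro v hv
    have hv' : c / 2 < ‖D.Z v / G (D.X v)‖ := hv
    show D.Z v ≠ 0
    intro h0
    rw [h0, zero_div, norm_zero] at hv'
    linarith
  · intro v hv
    have hv' : c / 2 < ‖D.Z v / G (D.X v)‖ := hv
    have h1 : adm_over_psi δ (D.Z v / G (D.X v)) = (D.Z v / G (D.X v))⁻¹ := by
      apply adm_over_psi_eq δ hδ0
      rw [hδ]
      exact pow_le_pow_left₀ (by positivity) hv'.le 2
    show adm_over_gen D a G (adm_over_psi δ) t v = adm_over_gen D a G (fun z => z⁻¹) t v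
    unfold adm_over_gen
    rw [h1]

theorem adm_over [FiniteDimensional ℂ E] [FiniteDimensional ℂ F] (D : Dec E F) (a : F) (G : F → ℂ) (hG : AnalyticOnNhd ℂ G univ)
    (hG0 : ∀ x, G x ≠ 0) (t : ℝ) : ∃ A : Adm D, ∀ v ∈ D.Om, A.f v = ovr D a G t v := by
  refine ⟨{
    f := adm_over_gen D a G (fun z => z⁻¹) t
    g := adm_over_gen D a G (fun z => z⁻¹) (-t)
    maps_f := fun v hv => adm_over_maps D a G hG0 _ _ v hv
    maps_g := fun v hv => adm_over_maps D a G hG0 _ _ v hv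
    left := fun v _ => adm_over_inv D a G hG0 _ _ _ (by ring) v
    right := fun v _ => adm_over_inv D a G hG0 _ _ _ (by ring) v
    an_f := adm_over_an D a G hG hG0 t
    an_g := adm_over_an D a G hG hG0 (-t)
    ext_f := adm_over_ext D a G hG hG0 t
    ext_g := adm_over_ext D a G hG hG0 (-t) }, ?_⟩
  intro v _
  exact adm_over_gen_eq D a G t v

end



end Pool.Agent.Helper536.LK.LC3

namespace Pool.Agent.Helper536.LK
alias adm_over := LC3.adm_over
end Pool.Agent.Helper536.LK
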