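import Pool.Agent.Helper536.LK.SDefs
import Pool.Agent.Helper536.LK.TowerDef

open scoped ContDiff Topology

open Set Metric

noncomputable section

namespace Pool.Agent.Helper536.LK.LC5

section

variable {E F : Type*} [NormedAddCommGroup E] [InnerProductSpace ℂ E]
    [NormedAddCommGroup F] [InnerProductSpace ℂ F]

end

section A

variable {E E' : Type*} [NormedAddCommGroup E] [NormedSpace ℂ E] [NormedAddCommGroup E']
  [NormedSpace ℂ E']

end A



section

variable {E F : Type*} [NormedAddCommGroup E] [InnerProductSpace ℂ E]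
    [NormedAddCommGroup F] [InnerProductSpace ℂ F]



theorem over_contract_re (ζ : ℂ) (h : ‖ζ - 1‖ ≤ 1 / 10) : 1 / 2 ≤ (ζ⁻¹).re := by
  have h1 : 9 / 10 ≤ ζ.re := by
    have h2 := (Complex.abs_re_le_norm (ζ - 1)).trans h
    rw [Complex.sub_re, Complex.one_re, abs_le] at h2
    linarith [h2.1]
  have h3 : ‖ζ‖ ≤ 11 / 10 := by
    have h4 : ‖ζ‖ ≤ ‖ζ - 1‖ + ‖(1 : ℂ)‖ := by
      have := norm_add_le (ζ - 1) 1
      rwa [sub_add_cancel] at this
    rw [norm_one] at h4
    linarith
  have h5 : Complex.normSq ζ ≤ 121 / 100 := by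
    rw [Complex.normSq_eq_norm_sq]
    have := norm_nonneg ζ
    nlinarith
  have h6 : 0 < Complex.normSq ζ := by
    rw [Complex.normSq_pos]
    rintro rfl
    rw [Complex.zero_re] at h1
    linarith
  rw [Complex.inv_re, div_le_div_iff₀ two_pos h6]
  linarith

theorem over_contract_gau (lam : ℝ) (a : F) (r : ℝ) (x : F) : gau lam a r x ≠ 0 := by
  unfold gau
  exact Complex.exp_ne_zero _

theorem over_contract (D : Dec E F) (lam : ℝ) (a : F) (r s η t : ℝ) (hη : η ≤ 1 / 10) (ht : 0 ≤ t)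
    (v : E) (hv : v ∈ Sreg D lam a r s η) :
    ovr D a (gau lam a r) t v ∈ Sreg D lam a r (Real.exp (-(t / 2)) * s) η := by
  obtain ⟨h1, h2, h3⟩ := hv
  have hz : D.Z v ≠ 0 := h1
  have hg : gau lam a r (D.X v) ≠ 0 := over_contract_gau lam a r (D.X v)
  obtain ⟨q, hq⟩ : ∃ q, q = Complex.exp (-(t * (gau lam a r (D.X v) / D.Z v))) := ⟨_, rfl⟩
  obtain ⟨x', hx'⟩ : ∃ x', x' = a + q • (D.X v - a) := ⟨_, rfl⟩
  have hX : D.X (ovr D a (gau lam a r) t v) = x' := by
    unfold ovr
    rw [D.hX, ← hq, hx']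
  have hZ : D.Z (ovr D a (gau lam a r) t v) =
      D.Z v / gau lam a r (D.X v) * gau lam a r x' := by
    unfold ovr
    rw [D.hZ, ← hq, hx']
  have hg' : gau lam a r x' ≠ 0 := over_contract_gau lam a r x'
  refine ⟨?_, ?_, ?_⟩
  · show D.Z (ovr D a (gau lam a r) t v) ≠ 0
    rw [hZ]
    exact mul_ne_zero (div_ne_zero hz hg) hg'
  · rw [hX, hx', add_sub_cancel_left, norm_smul]
    have hre := over_contract_re _ (h3.trans hη)
    rw [inv_div] at hre
    have hqn : ‖q‖ ≤ Real.exp (-(t / 2)) := by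
      rw [hq, Complex.norm_exp, Real.exp_le_exp, Complex.neg_re, Complex.re_ofReal_mul]
      nlinarith
    exact mul_le_mul hqn h2 (norm_nonneg _) (Real.exp_nonneg _)
  · rw [hX, hZ, mul_div_assoc, div_self hg', mul_one]
    exact h3

end



end Pool.Agent.Helper536.LK.LC5

namespace Pool.Agent.Helper536.LK
alias over_contract := LC5.over_contract
end Pool.Agent.Helper536.LK
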