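import Pool.Agent.Helper536.LK.SDefs
import Pool.Agent.Helper536.LK.TowerDef
import Pool.Agent.Helper536.LK.LC4

open scoped ContDiff Topology

open Set Metric

noncomputable section

namespace Pool.Agent.Helper536.LK.LC6

section

variable {E F : Type*} [NormedAddCommGroup E] [InnerProductSpace ℂ E]
    [NormedAddCommGroup F] [InnerProductSpace ℂ F]

end

section A

variable {E E' : Type*} [NormedAddCommGroup E] [NormedSpace ℂ E] [NormedAddCommGroup E']
  [NormedSpace ℂ E']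

end A



section

variable {E F : Type*} [NormedAddCommGroup E] [InnerProductSpace ℂ E]
    [NormedAddCommGroup F] [InnerProductSpace ℂ F]



theorem gau_ne_h845 (lam : ℝ) (a : F) (r : ℝ) (x : F) : gau lam a r x ≠ 0 := Complex.exp_ne_zero _

theorem gau_shift_h845 (lam : ℝ) (a : F) (r : ℝ) (x x' : F) :
    gau lam a r x' = gau lam a r x * Complex.exp (lam * (2 * inner ℂ a (x' - x))) := by
  unfold gau
  rw [← Complex.exp_add]
  congr 1
  rw [inner_sub_right]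
  ring

theorem over_near (D : Dec E F) (lam : ℝ) (hlam : 1 ≤ lam) (a a' : F) (r r' s η g Q : ℝ)
    (hη : η ≤ 1 / 2) (hg : 0 < g) (v : E) (hv : v ∈ Sreg D lam a r s η)
    (hgap : ‖D.X v - a‖ ^ 2 - r ^ 2 + g ≤ ‖D.X v - a'‖ ^ 2 - r' ^ 2)
    (hQ : 1 ≤ Q) (h1 : ‖D.X v - a'‖ ≤ Q) (h2 : ‖a - a'‖ ≤ Q)
    (hτ : 100 * lam ^ 2 * Q ^ 2 * Real.exp (-(lam * g)) ≤ 1) :
    ovr D a' (gau lam a' r') lam v ∈ Sreg D lam a r
      (s + 100 * lam ^ 2 * Q ^ 2 * Real.exp (-(lam * g)))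
      (η + 100 * lam ^ 2 * Q ^ 2 * Real.exp (-(lam * g))) := by
  obtain ⟨hz, hs, hζ⟩ := hv
  have hz0 : D.Z v ≠ 0 := hz
  set x : F := D.X v with hx
  set z : ℂ := D.Z v with hzdef
  set G' : F → ℂ := gau lam a' r' with hG'
  set G : F → ℂ := gau lam a r with hG
  set e : ℝ := Real.exp (-(lam * g)) with he
  have he0 : 0 < e := Real.exp_pos _
  have hG'0 : ∀ y, G' y ≠ 0 := fun y => gau_ne_h845 lam a' r' y
  have hG0 : ∀ y, G y ≠ 0 := fun y => gau_ne_h845 lam a r y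
  have hlam0 : 0 < lam := by linarith
  have hQ0 : 0 < Q := by linarith
  have hlQ : lam ≤ lam ^ 2 * Q ^ 2 := by
    have h3 : 1 ≤ lam * Q ^ 2 := by
      have : 1 ≤ Q ^ 2 := one_le_pow₀ hQ
      nlinarith
    nlinarith
  have hlQ2 : lam * Q ≤ lam ^ 2 * Q ^ 2 := by
    have h3 : 1 ≤ lam * Q := by nlinarith
    nlinarith
  -- ratio
  have hrat : ‖G' x / G x‖ ≤ e := by
    rw [norm_div, hG', hG, norm_gau, norm_gau, ← Real.exp_sub, he]
    apply Real.exp_le_exp.mpr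
    have h3 : lam * (‖x - a‖ ^ 2 - r ^ 2 + g) ≤ lam * (‖x - a'‖ ^ 2 - r' ^ 2) :=
      mul_le_mul_of_nonneg_left hgap hlam0.le
    linarith
  set ζ : ℂ := z / G x with hζdef
  have hζ1 : 1 / 2 ≤ ‖ζ‖ := by
    have h3 : ‖(1 : ℂ)‖ ≤ ‖ζ‖ + ‖ζ - 1‖ := by
      have : (1 : ℂ) = ζ - (ζ - 1) := by ring
      calc ‖(1 : ℂ)‖ = ‖ζ - (ζ - 1)‖ := by rw [← this]
        _ ≤ _ := norm_sub_le _ _
    rw [norm_one] at h3
    linarith
  have hζ2 : ‖ζ‖ ≤ 3 / 2 := by
    have h3 : ‖ζ‖ ≤ ‖ζ - 1‖ + ‖(1 : ℂ)‖ := by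
      calc ‖ζ‖ = ‖(ζ - 1) + 1‖ := by rw [sub_add_cancel]
        _ ≤ _ := norm_add_le _ _
    rw [norm_one] at h3
    linarith
  have hGz : ‖G' x / z‖ ≤ 2 * e := by
    have h3 : G' x / z = (G' x / G x) / ζ := by
      rw [hζdef]
      field_simp [hG0 x]
    rw [h3, norm_div, div_le_iff₀ (by linarith)]
    nlinarith
  set w : ℂ := -(lam * (G' x / z)) with hw
  have hwn : ‖w‖ ≤ 2 * lam * e := by
    rw [hw, norm_neg, norm_mul, Complex.norm_real, Real.norm_eq_abs, abs_of_pos hlam0]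
    nlinarith
  have hle : lam * e ≤ lam ^ 2 * Q ^ 2 * e := mul_le_mul_of_nonneg_right hlQ he0.le
  have hle2 : lam * Q * e ≤ lam ^ 2 * Q ^ 2 * e := mul_le_mul_of_nonneg_right hlQ2 he0.le
  have hw1 : ‖w‖ ≤ 1 := by nlinarith
  have hexpw : ‖Complex.exp w - 1‖ ≤ 4 * lam * e := by
    have := Complex.norm_exp_sub_one_le hw1
    linarith
  set x' : F := a' + Complex.exp w • (x - a') with hx'
  have hxx : x' - x = (Complex.exp w - 1) • (x - a') := by
    rw [hx', sub_smul, one_smul]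
    abel
  have hxxn : ‖x' - x‖ ≤ 4 * lam * e * Q := by
    rw [hxx, norm_smul]
    exact mul_le_mul hexpw h1 (norm_nonneg _) (by positivity)
  set Z' : ℂ := z / G' x * G' x' with hZ'
  have hov : ovr D a' (gau lam a' r') lam v = D.i x' + Z' • D.e := rfl
  have hX' : D.X (ovr D a' (gau lam a' r') lam v) = x' := by rw [hov]; exact D.hX _ _
  have hZ'' : D.Z (ovr D a' (gau lam a' r') lam v) = Z' := by rw [hov]; exact D.hZ _ _
  refine ⟨?_, ?_, ?_⟩
  · show D.Z (ovr D a' (gau lam a' r') lam v) ≠ 0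
    rw [hZ'', hZ']
    exact mul_ne_zero (div_ne_zero hz0 (hG'0 x)) (hG'0 x')
  · rw [hX']
    have h3 : ‖x' - a‖ ≤ ‖x' - x‖ + ‖x - a‖ := by
      calc ‖x' - a‖ = ‖(x' - x) + (x - a)‖ := by rw [sub_add_sub_cancel]
        _ ≤ _ := norm_add_le _ _
    nlinarith
  · rw [hX', hZ'']
    set u : ℂ := lam * (2 * inner ℂ a' (x' - x)) - lam * (2 * inner ℂ a (x' - x)) with hu
    have h4 : Z' / gau lam a r x' = ζ * Complex.exp u := by
      rw [hZ', hG', gau_shift_h845 lam a' r' x x', gau_shift_h845 lam a r x x', hζdef, hu, Complex.exp_sub]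
      have e1 := gau_ne_h845 lam a' r' x
      have e2 := gau_ne_h845 lam a r x
      have e3 := Complex.exp_ne_zero ((lam : ℂ) * (2 * inner ℂ a (x' - x)))
      rw [hG]
      field_simp
    have hun : ‖u‖ ≤ 8 * (lam ^ 2 * Q ^ 2 * e) := by
      have e1 : u = lam * 2 * inner ℂ (a' - a) (x' - x) := by
        rw [hu, inner_sub_left]
        ring
      rw [e1, norm_mul, norm_mul, Complex.norm_real, Real.norm_eq_abs, abs_of_pos hlam0]
      have e2 : ‖(2 : ℂ)‖ = 2 := by norm_num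
      rw [e2]
      have e3 : ‖inner ℂ (a' - a) (x' - x)‖ ≤ Q * (4 * lam * e * Q) := by
        refine (norm_inner_le_norm _ _).trans ?_
        have e4 : ‖a' - a‖ ≤ Q := by rw [norm_sub_rev]; exact h2
        exact mul_le_mul e4 hxxn (norm_nonneg _) hQ0.le
      have e5 : lam * 2 * ‖inner ℂ (a' - a) (x' - x)‖ ≤ lam * 2 * (Q * (4 * lam * e * Q)) :=
        mul_le_mul_of_nonneg_left e3 (by positivity)
      calc lam * 2 * ‖inner ℂ (a' - a) (x' - x)‖ ≤ lam * 2 * (Q * (4 * lam * e * Q)) := e5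
        _ = 8 * (lam ^ 2 * Q ^ 2 * e) := by ring
    have hu1 : ‖u‖ ≤ 1 := by linarith
    have hexpu := Complex.norm_exp_sub_one_le hu1
    have h5 : Z' / gau lam a r x' - 1 = ζ * (Complex.exp u - 1) + (ζ - 1) := by
      rw [h4]; ring
    rw [h5]
    have h6 : ‖ζ * (Complex.exp u - 1)‖ ≤ 3 / 2 * (2 * (8 * (lam ^ 2 * Q ^ 2 * e))) := by
      rw [norm_mul]
      exact mul_le_mul hζ2 (by linarith) (norm_nonneg _) (by norm_num)
    have h7 := norm_add_le (ζ * (Complex.exp u - 1)) (ζ - 1)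
    have h8 : 0 ≤ lam ^ 2 * Q ^ 2 * e := by positivity
    linarith

end



end Pool.Agent.Helper536.LK.LC6

namespace Pool.Agent.Helper536.LK
alias over_near := LC6.over_near
end Pool.Agent.Helper536.LK
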