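import Pool.Agent.Helper536.LK.SDefs
import Pool.Agent.Helper536.LK.TowerDef
import Pool.Agent.Helper536.LK.LC1
import Pool.Agent.Helper536.LK.LC3
import Pool.Agent.Helper536.LK.LC4
import Pool.Agent.Helper536.LK.LC5
import Pool.Agent.Helper536.LK.LC6

open scoped ContDiff Topology

open Set Metric

noncomputable section

namespace Pool.Agent.Helper536.LK.LC8

section

variable {E F : Type*} [NormedAddCommGroup E] [InnerProductSpace ℂ E]
    [NormedAddCommGroup F] [InnerProductSpace ℂ F]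

end

section A

variable {E E' : Type*} [NormedAddCommGroup E] [NormedSpace ℂ E] [NormedAddCommGroup E']
  [NormedSpace ℂ E']

end A



section

variable {E F : Type*} [NormedAddCommGroup E] [InnerProductSpace ℂ E]
    [NormedAddCommGroup F] [InnerProductSpace ℂ F]



/-- the identity as an admissible automorphism -/
def fold_over_idDif (E : Type*) [NormedAddCommGroup E] [NormedSpace ℂ E] : Dif E where
  f := id
  g := id
  left _ := rfl
  right _ := rfl
  sf := contDiff_id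
  sg := contDiff_id

theorem fold_over_isOpen (D : Dec E F) : IsOpen D.Om := by
  have : D.Om = D.Z ⁻¹' {0}ᶜ := rfl
  rw [this]
  exact isOpen_compl_singleton.preimage D.Z.continuous

def fold_over_idAdm (D : Dec E F) : Adm D where
  f := id
  g := id
  maps_f _ h := h
  maps_g _ h := h
  left _ _ := rfl
  right _ _ := rfl
  an_f := analyticOnNhd_id
  an_g := analyticOnNhd_id
  ext_f K _ hK2 := ⟨fold_over_idDif E, D.Om, fold_over_isOpen D, hK2, subset_rfl, fun _ _ => rfl⟩
  ext_g K _ hK2 := ⟨fold_over_idDif E, D.Om, fold_over_isOpen D, hK2, subset_rfl, fun _ _ => rfl⟩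

theorem fold_over_mono (D : Dec E F) {lam : ℝ} {a : F} {r s s' η η' : ℝ} (hs : s ≤ s')
    (hη : η ≤ η') {v : E} (hv : v ∈ Sreg D lam a r s η) : v ∈ Sreg D lam a r s' η' :=
  ⟨hv.1, hv.2.1.trans hs, hv.2.2.trans hη⟩

theorem fold_over [FiniteDimensional ℂ E] [FiniteDimensional ℂ F] (D : Dec E F) (m : ℕ) (a : Fin m → F) (r : Fin m → ℝ) (hr : ∀ i, 0 ≤ r i)
    (δ g Q : ℝ) (hδ0 : 0 < δ) (hδ1 : δ ≤ 1) (hg : 0 < g) (hQ : 1 ≤ Q)
    (hgap : ∀ i j, i ≠ j → ‖a i - a j‖ ≤ Q ∧ ∀ x, ‖x - a i‖ ≤ r i + δ →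
      ‖x - a j‖ ≤ Q ∧ ‖x - a i‖ ^ 2 - r i ^ 2 + g ≤ ‖x - a j‖ ^ 2 - r j ^ 2)
    (lam : ℝ) (hlam : 1 ≤ lam) (η τ : ℝ) (hη : 0 ≤ η)
    (hτdef : τ = 100 * lam ^ 2 * Q ^ 2 * Real.exp (-(lam * g))) (hτ1 : τ ≤ 1)
    (hτ2 : m * τ ≤ δ) (hτ3 : η + m * τ ≤ 1 / 10) :
    ∃ A : Adm D, ∀ k, ∀ v ∈ Sreg D lam (a k) (r k) (r k) η,
      A.f v ∈ Sreg D lam (a k) (r k) (Real.exp (-(lam / 2)) * (r k + 1) + m * τ) (η + m * τ) := by
  classical
  have hτ0 : 0 ≤ τ := by rw [hτdef]; positivity
  have key : ∀ j : ℕ, j ≤ m → ∃ A : Adm D, ∀ k, ∀ v ∈ Sreg D lam (a k) (r k) (r k) η,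
      A.f v ∈ Sreg D lam (a k) (r k) (r k + j * τ) (η + j * τ) ∧
      ((k : ℕ) < j →
        A.f v ∈ Sreg D lam (a k) (r k) (Real.exp (-(lam / 2)) * (r k + 1) + j * τ)
          (η + j * τ)) := by
    intro j
    induction j with
    | zero =>
      intro _
      refine ⟨fold_over_idAdm D, fun k v hv => ⟨?_, fun h => absurd h (Nat.not_lt_zero _)⟩⟩
      have h1 : (fold_over_idAdm D).f v = v := rfl
      rw [h1]
      simpa using hv
    | succ j ih =>
      intro hj
      obtain ⟨A, hA⟩ := ih (by omega)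
      obtain ⟨B, hB⟩ := adm_over D (a ⟨j, hj⟩) (gau lam (a ⟨j, hj⟩) (r ⟨j, hj⟩))
        (gau_analytic lam _ _) (fun x => Complex.exp_ne_zero _) lam
      obtain ⟨C, hC, -⟩ := adm_comp D B A
      refine ⟨C, fun k v hv => ?_⟩
      obtain ⟨h1, h2⟩ := hA k v hv
      have hCv : C.f v = ovr D (a ⟨j, hj⟩) (gau lam (a ⟨j, hj⟩) (r ⟨j, hj⟩)) lam (A.f v) := by
        rw [hC]
        exact hB _ h1.1
      rw [hCv]
      have hjm : (j : ℝ) * τ ≤ m * τ :=
        mul_le_mul_of_nonneg_right (by exact_mod_cast (by omega : j ≤ m)) hτ0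
      have hj0 : (0 : ℝ) ≤ (j : ℝ) * τ := mul_nonneg (Nat.cast_nonneg j) hτ0
      have hcast : (((j + 1 : ℕ) : ℝ)) * τ = j * τ + τ := by push_cast; ring
      rw [hcast]
      by_cases hkj : k = ⟨j, hj⟩
      · subst hkj
        have h3 := over_contract D lam _ _ _ _ lam (by linarith) (by linarith) _ h1
        have hexp : Real.exp (-(lam / 2)) ≤ 1 := Real.exp_le_one_iff.2 (by linarith)
        have hexp0 : 0 < Real.exp (-(lam / 2)) := Real.exp_pos _
        have hr0 := hr ⟨j, hj⟩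
        constructor
        · refine fold_over_mono D ?_ (by linarith) h3
          nlinarith
        · intro _
          refine fold_over_mono D ?_ (by linarith) h3
          nlinarith
      · have hgp := hgap k ⟨j, hj⟩ hkj
        have h4 : ‖D.X (A.f v) - a k‖ ≤ r k + δ := h1.2.1.trans (by linarith)
        obtain ⟨h5, h6⟩ := hgp.2 _ h4
        constructor
        · have h7 := over_near D lam hlam (a k) (a ⟨j, hj⟩) (r k) (r ⟨j, hj⟩) _ _ g Q
            (by linarith) hg _ h1 h6 hQ h5 hgp.1 (by rw [← hτdef]; exact hτ1)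
          rw [← hτdef] at h7
          exact fold_over_mono D (by linarith) (by linarith) h7
        · intro hk
          have hk' : (k : ℕ) < j := by
            have : (k : ℕ) ≠ j := fun h => hkj (Fin.ext h)
            omega
          have h7 := over_near D lam hlam (a k) (a ⟨j, hj⟩) (r k) (r ⟨j, hj⟩) _ _ g Q
            (by linarith) hg _ (h2 hk') h6 hQ h5 hgp.1 (by rw [← hτdef]; exact hτ1)
          rw [← hτdef] at h7
          exact fold_over_mono D (by linarith) (by linarith) h7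
  obtain ⟨A, hA⟩ := key m le_rfl
  exact ⟨A, fun k v hv => (hA k v hv).2 k.2⟩

end



end Pool.Agent.Helper536.LK.LC8

namespace Pool.Agent.Helper536.LK
alias fold_over := LC8.fold_over
end Pool.Agent.Helper536.LK
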