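import Pool.Agent.Helper536.LK.SDefs
import Pool.Agent.Helper536.LK.TowerDef

open scoped ContDiff Topology

open Set Metric

noncomputable section

namespace Pool.Agent.Helper536.LK.LC9

section

variable {E F : Type*} [NormedAddCommGroup E] [InnerProductSpace ℂ E]
    [NormedAddCommGroup F] [InnerProductSpace ℂ F]

end

section A

variable {E E' : Type*} [NormedAddCommGroup E] [NormedSpace ℂ E] [NormedAddCommGroup E']
  [NormedSpace ℂ E']

end A



section

variable {E F : Type*} [NormedAddCommGroup E] [InnerProductSpace ℂ E]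
    [NormedAddCommGroup F] [InnerProductSpace ℂ F]



theorem interp [FiniteDimensional ℂ F] (m : ℕ) (a : Fin m → F) (ha : Function.Injective a) (w : Fin m → ℂ) :
    ∃ (h : F → ℂ) (C : ℝ), 0 ≤ C ∧ AnalyticOnNhd ℂ h univ ∧ (∀ i, h (a i) = w i) ∧
      ∀ i x, ‖x - a i‖ ≤ 1 → ‖h x - h (a i)‖ ≤ C * ‖x - a i‖ := by
  haveI : ProperSpace F := FiniteDimensional.proper ℂ F
  obtain ⟨h, hh⟩ : ∃ h : F → ℂ, ∀ x, h x = ∑ i, w i * ∏ j ∈ Finset.univ.erase i,
    (innerSL ℂ (a i - a j) (x - a j) / ((‖a i - a j‖ ^ 2 : ℝ) : ℂ)) := ⟨_, fun x => rfl⟩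
  have hfun : h = fun x => ∑ i, w i * ∏ j ∈ Finset.univ.erase i,
    (innerSL ℂ (a i - a j) (x - a j) / ((‖a i - a j‖ ^ 2 : ℝ) : ℂ)) := funext hh
  have han : AnalyticOnNhd ℂ h univ := by
    intro x _
    rw [hfun]
    apply Finset.analyticAt_fun_sum
    intro i _
    apply AnalyticAt.fun_mul analyticAt_const
    apply Finset.analyticAt_fun_prod
    intro j _
    apply AnalyticAt.div_const
    exact ((innerSL ℂ (a i - a j)).analyticAt _).comp (f := fun x => x - a j)
      (analyticAt_id.sub analyticAt_const)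
  have hval : ∀ i, h (a i) = w i := by
    intro i
    rw [hh, Finset.sum_eq_single i]
    · rw [Finset.prod_eq_one, mul_one]
      intro j hj
      have hne : a i - a j ≠ 0 := by
        rw [sub_ne_zero]
        intro h1
        exact (Finset.ne_of_mem_erase hj) (ha h1).symm
      rw [innerSL_apply_apply, inner_self_eq_norm_sq_to_K]
      have h2 : (((‖a i - a j‖ ^ 2 : ℝ)) : ℂ) ≠ 0 := by
        rw [Ne, Complex.ofReal_eq_zero]
        exact pow_ne_zero 2 (norm_ne_zero_iff.mpr hne)
      rw [div_eq_one_iff_eq h2]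
      push_cast
      rfl
    · intro i' _ hi'
      rw [Finset.prod_eq_zero (i := i), mul_zero]
      · exact Finset.mem_erase.mpr ⟨Ne.symm hi', Finset.mem_univ _⟩
      · rw [sub_self, map_zero, zero_div]
    · intro hi
      exact absurd (Finset.mem_univ i) hi
  have hcd : ContDiff ℂ 1 h := han.contDiff
  have hC : ∀ i, ∃ C : ℝ, 0 ≤ C ∧ ∀ x, ‖x - a i‖ ≤ 1 → ‖h x - h (a i)‖ ≤ C * ‖x - a i‖ := by
    intro i
    obtain ⟨C, hC⟩ := (isCompact_closedBall (a i) 1).exists_bound_of_continuousOn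
      (f := fderiv ℂ h) (hcd.continuous_fderiv (by norm_num)).continuousOn
    have h0 : 0 ≤ C := (norm_nonneg _).trans (hC (a i) (mem_closedBall_self zero_le_one))
    refine ⟨C, h0, ?_⟩
    intro x hx
    apply (convex_closedBall (a i) (1:ℝ)).norm_image_sub_le_of_norm_fderiv_le (𝕜 := ℂ)
      (f := h) (fun y _ => (hcd.differentiable (by norm_num)) y) (fun y hy => hC y hy)
      (mem_closedBall_self zero_le_one)
    rw [mem_closedBall, dist_eq_norm]
    exact hx
  choose C hC0 hC using hC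
  refine ⟨h, ∑ i, C i, Finset.sum_nonneg fun i _ => hC0 i, han, hval, ?_⟩
  intro i x hx
  refine (hC i x hx).trans ?_
  apply mul_le_mul_of_nonneg_right _ (norm_nonneg _)
  exact Finset.single_le_sum (f := C) (fun i _ => hC0 i) (Finset.mem_univ i)

end



end Pool.Agent.Helper536.LK.LC9

namespace Pool.Agent.Helper536.LK
alias interp := LC9.interp
end Pool.Agent.Helper536.LK
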