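import Pool.Agent.Helper536.LK.SDefs
import Pool.Agent.Helper536.LK.TowerDef
import Pool.Agent.Helper536.LK.LC1
import Pool.Agent.Helper536.LK.LC10
import Pool.Agent.Helper536.LK.LC11
import Pool.Agent.Helper536.LK.LC2
import Pool.Agent.Helper536.LK.LC4
import Pool.Agent.Helper536.LK.LC7
import Pool.Agent.Helper536.LK.LC8
import Pool.Agent.Helper536.LK.LC9

open scoped ContDiff Topology

open Set Metric

noncomputable section

namespace Pool.Agent.Helper536.LK.LC12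

section

variable {E F : Type*} [NormedAddCommGroup E] [InnerProductSpace ℂ E]
    [NormedAddCommGroup F] [InnerProductSpace ℂ F]

end

section A

variable {E E' : Type*} [NormedAddCommGroup E] [NormedSpace ℂ E] [NormedAddCommGroup E']
  [NormedSpace ℂ E']

end A



section

variable {E F : Type*} [NormedAddCommGroup E] [InnerProductSpace ℂ E]
    [NormedAddCommGroup F] [InnerProductSpace ℂ F]



theorem x_sum_an [FiniteDimensional ℂ F] (m : ℕ) (a : Fin m → F) (r : Fin m → ℝ) (lam : ℝ) (s : Finset (Fin m)) :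
    AnalyticOnNhd ℂ (fun x => ∑ j ∈ s, gau lam (a j) (r j) x) univ := by
  classical
  induction s using Finset.induction_on with
  | empty => simpa using (analyticOnNhd_const : AnalyticOnNhd ℂ (fun _ : F => (0:ℂ)) univ)
  | insert j s hj ih =>
    have : (fun x => ∑ j ∈ insert j s, gau lam (a j) (r j) x)
        = fun x => gau lam (a j) (r j) x + ∑ j ∈ s, gau lam (a j) (r j) x := by
      funext x
      rw [Finset.sum_insert hj]
    rw [this]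
    exact (gau_analytic lam (a j) (r j)).add ih

theorem x_exp_near (w z : ℂ) (L e1 : ℝ) (hL : 0 ≤ L) (he : 0 ≤ e1) (hLe : L * e1 ≤ 1) (hw : ‖w‖ ≤ L * e1)
    (hz : ‖z - 1‖ ≤ e1) : ‖z * Complex.exp w - 1‖ ≤ (3 + 2 * L) * e1 := by
  have h1 : ‖Complex.exp w - 1‖ ≤ 2 * ‖w‖ := Complex.norm_exp_sub_one_le (hw.trans hLe)
  have h2 : ‖Complex.exp w‖ ≤ 3 := by
    calc ‖Complex.exp w‖ = ‖(Complex.exp w - 1) + 1‖ := by ring_nf
      _ ≤ ‖Complex.exp w - 1‖ + ‖(1:ℂ)‖ := norm_add_le _ _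
      _ ≤ 2 * ‖w‖ + 1 := by rw [norm_one]; linarith
      _ ≤ 3 := by linarith
  calc ‖z * Complex.exp w - 1‖ = ‖(z - 1) * Complex.exp w + (Complex.exp w - 1)‖ := by ring_nf
    _ ≤ ‖(z - 1) * Complex.exp w‖ + ‖Complex.exp w - 1‖ := norm_add_le _ _
    _ = ‖z - 1‖ * ‖Complex.exp w‖ + ‖Complex.exp w - 1‖ := by rw [norm_mul]
    _ ≤ e1 * 3 + 2 * (L * e1) := by
        have := mul_le_mul hz h2 (norm_nonneg _) he
        linarith
    _ = (3 + 2 * L) * e1 := by ring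

theorem pmain [FiniteDimensional ℂ E] [FiniteDimensional ℂ F] (D : Dec E F) (m : ℕ) (a : Fin m → F) (r : Fin m → ℝ)
    (hr : ∀ i, 0 ≤ r i) (hd : ∀ i j, i ≠ j → r i + r j < ‖a i - a j‖) (ζ : Fin m → ℂ)
    (hζ : ∀ i, ζ i ≠ 0) (ε : ℝ) (hε : 0 < ε) :
    ∃ (A : Adm D) (Φ : F → ℂ), AnalyticOnNhd ℂ Φ univ ∧ (∀ i x, ‖x - a i‖ ≤ r i → Φ x ≠ 0) ∧
      ∀ i x, ‖x - a i‖ ≤ r i → ‖A.g (D.i x + Φ x • D.e) - ζ i • D.e‖ < ε := by
  classical
  have ha : Function.Injective a := by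
    intro i j hij
    by_contra hne
    have := hd i j hne
    rw [hij, sub_self, norm_zero] at this
    linarith [hr i, hr j]
  obtain ⟨δ, g, Q, hδ0, hδ1, hg, hQ, hgap⟩ := gap m a r hr hd
  obtain ⟨h0, C0, hC0, hh0an, hh0val, hh0lip⟩ := interp m a ha (fun k => Complex.log (ζ k))
  obtain ⟨h1, C1, hC1, hh1an, hh1val, hh1lip⟩ := interp m a ha (fun k => ((‖a k‖ ^ 2 + (r k) ^ 2 : ℝ) : ℂ))
  obtain ⟨ρ, hρ0, hρ⟩ : ∃ ρ : ℝ, 0 ≤ ρ ∧ ∀ k, r k ≤ ρ :=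
    ⟨∑ k, r k, Finset.sum_nonneg (fun i _ => hr i),
      fun k => Finset.single_le_sum (f := r) (fun i _ => hr i) (Finset.mem_univ k)⟩
  obtain ⟨B, hB0, hB⟩ : ∃ B : ℝ, 0 ≤ B ∧ ∀ k, ‖a k‖ ≤ B :=
    ⟨∑ k, ‖a k‖, Finset.sum_nonneg (fun i _ => norm_nonneg _),
      fun k => Finset.single_le_sum (f := fun k => ‖a k‖) (fun i _ => norm_nonneg _) (Finset.mem_univ k)⟩
  obtain ⟨Zm, hZ0, hZm⟩ : ∃ Zm : ℝ, 0 ≤ Zm ∧ ∀ k, ‖ζ k‖ ≤ Zm :=
    ⟨∑ k, ‖ζ k‖, Finset.sum_nonneg (fun i _ => norm_nonneg _),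
      fun k => Finset.single_le_sum (f := fun k => ‖ζ k‖) (fun i _ => norm_nonneg _) (Finset.mem_univ k)⟩
  obtain ⟨L, hL⟩ : ∃ L : ℝ, L = 2 * B + C0 + C1 := ⟨_, rfl⟩
  have hL0 : 0 ≤ L := by rw [hL]; positivity
  obtain ⟨e1, he10, he1L, he1Z⟩ : ∃ e1 : ℝ, 0 < e1 ∧ L * e1 ≤ 1 ∧ Zm * ((3 + 2 * L) * e1) ≤ ε / 4 := by
    refine ⟨min (1 / (L + 1)) (ε / (4 * (Zm + 1) * (3 + 2 * L))), lt_min (by positivity) (by positivity), ?_, ?_⟩
    · have h1 : min (1 / (L + 1)) (ε / (4 * (Zm + 1) * (3 + 2 * L))) ≤ 1 / (L + 1) := min_le_left _ _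
      calc L * min (1 / (L + 1)) (ε / (4 * (Zm + 1) * (3 + 2 * L))) ≤ L * (1 / (L + 1)) := by gcongr
        _ ≤ 1 := by rw [mul_one_div, div_le_one (by positivity)]; linarith
    · have h1 : min (1 / (L + 1)) (ε / (4 * (Zm + 1) * (3 + 2 * L))) ≤ (ε / (4 * (Zm + 1) * (3 + 2 * L))) :=
        min_le_right _ _
      calc Zm * ((3 + 2 * L) * min (1 / (L + 1)) (ε / (4 * (Zm + 1) * (3 + 2 * L))))
          ≤ (Zm + 1) * ((3 + 2 * L) * (ε / (4 * (Zm + 1) * (3 + 2 * L)))) := by gcongr; linarith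
        _ = ε / 4 := by field_simp
  obtain ⟨lam, τ, η, σ, hlam, hτ, hη, hσ, hτ1, hmτδ, hητ1, hητε, hσ1, hσε, hlamσ⟩ :=
    lam_exists m g Q δ ρ e1 hg hQ hδ0 hρ0 he10
  have hη0 : 0 ≤ η := by rw [hη]; positivity
  have hτ0 : 0 ≤ τ := by rw [hτ]; positivity
  have hmτ0 : 0 ≤ m * τ := by positivity
  have hσ0 : 0 ≤ σ := by rw [hσ]; positivity
  obtain ⟨A1, hA1⟩ := fold_over D m a r hr δ g Q hδ0 hδ1 hg hQ hgap lam hlam η τ hη0 hτ hτ1 hmτδ hητ1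
  have hhan : AnalyticOnNhd ℂ (fun x => h0 x - (lam : ℂ) * h1 x) univ :=
    hh0an.sub (analyticOnNhd_const.mul hh1an)
  obtain ⟨A2, hA2⟩ := adm_mul D (fun x => h0 x - (lam : ℂ) * h1 x) hhan
  obtain ⟨κ, hκ0, hκ⟩ : ∃ κ : ℝ, 0 < κ ∧ κ * (B + 1) = ε / 2 :=
    ⟨ε / (2 * (B + 1)), by positivity, by field_simp⟩
  obtain ⟨A3, hA3⟩ := adm_scale D (κ : ℂ) (by exact_mod_cast hκ0.ne')
  obtain ⟨A21, hA21, _⟩ := adm_comp D A2 A1
  obtain ⟨A321, hA321, _⟩ := adm_comp D A3 A21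
  obtain ⟨A, _, hAg⟩ := adm_symm D A321
  have hnear : ∀ k x, ‖x - a k‖ ≤ r k →
      ‖(∑ j, gau lam (a j) (r j) x) / gau lam (a k) (r k) x - 1‖ ≤ η := by
    intro k x hx
    rw [hη]
    refine Phi_near m a r lam g (by linarith) k x (fun j hj => ?_)
    exact ((hgap k j (Ne.symm hj)).2 x (by linarith)).2
  have hΦne : ∀ k x, ‖x - a k‖ ≤ r k → (∑ j, gau lam (a j) (r j) x) ≠ 0 := by
    intro k x hx h0'
    have := hnear k x hx
    rw [h0', zero_div, zero_sub, norm_neg, norm_one] at this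
    linarith
  refine ⟨A, fun x => ∑ j, gau lam (a j) (r j) x, x_sum_an m a r lam Finset.univ, hΦne, ?_⟩
  intro k x hx
  have hΦ := hΦne k x hx
  have hn := hnear k x hx
  show ‖A.g (D.i x + (∑ j, gau lam (a j) (r j) x) • D.e) - ζ k • D.e‖ < ε
  generalize (∑ j, gau lam (a j) (r j) x) = P at hΦ hn ⊢
  have hvS : D.i x + P • D.e ∈ Sreg D lam (a k) (r k) (r k) η := by
    refine ⟨?_, ?_, ?_⟩
    · show D.Z _ ≠ 0
      rw [D.hZ]; exact hΦ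
    · rw [D.hX]; exact hx
    · rw [D.hX, D.hZ]; exact hn
  have hv1 := hA1 k _ hvS
  have hval : A.g (D.i x + P • D.e) = A3.f (A2.f (A1.f (D.i x + P • D.e))) := by
    rw [hAg, hA321]
    simp only []
    rw [hA21]
  rw [hval]
  generalize A1.f (D.i x + P • D.e) = v1 at hv1
  obtain ⟨hv1Om, hv1X, hv1Z⟩ := hv1
  rw [hA2, hA3, D.hX, D.hZ]
  have hxs : ‖D.X v1 - a k‖ ≤ σ := by
    refine hv1X.trans ?_
    rw [hσ]
    have := hρ k
    gcongr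
  generalize D.X v1 = x1 at hxs hv1Z ⊢
  generalize D.Z v1 = z1 at hv1Z ⊢
  have hgne : gau lam (a k) (r k) x1 ≠ 0 := Complex.exp_ne_zero _
  set z := z1 / gau lam (a k) (r k) x1 with hz
  have hz1 : z1 = z * gau lam (a k) (r k) x1 := by rw [hz]; field_simp
  set w : ℂ := 2 * lam * inner ℂ (a k) (x1 - a k) + (h0 x1 - h0 (a k)) - lam * (h1 x1 - h1 (a k)) with hw
  have hz2 : z1 * Complex.exp (h0 x1 - (lam : ℂ) * h1 x1) = ζ k * (z * Complex.exp w) := by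
    have e1 : ζ k = Complex.exp (h0 (a k)) := by
      rw [hh0val]
      exact (Complex.exp_log (hζ k)).symm
    rw [hz1, e1]
    unfold gau
    rw [mul_assoc, ← Complex.exp_add, mul_left_comm, ← Complex.exp_add]
    congr 2
    rw [hw, inner_sub_right, inner_self_eq_norm_sq_to_K, hh1val]
    push_cast
    simp only [Complex.coe_algebraMap]
    ring
  have hwn : ‖w‖ ≤ L * e1 := by
    have hle1 : ‖x1 - a k‖ ≤ 1 := hxs.trans hσ1
    have i1 : ‖(2 * lam * inner ℂ (a k) (x1 - a k) : ℂ)‖ ≤ 2 * B * (lam * σ) := by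
      rw [norm_mul, norm_mul, Complex.norm_real, Real.norm_eq_abs, abs_of_pos (by linarith)]
      have h2 : ‖(inner ℂ (a k) (x1 - a k) : ℂ)‖ ≤ B * σ := by
        refine (norm_inner_le_norm _ _).trans ?_
        exact mul_le_mul (hB k) hxs (norm_nonneg _) hB0
      have h3 : ‖(2:ℂ)‖ = 2 := by simp
      rw [h3]
      calc 2 * lam * ‖(inner ℂ (a k) (x1 - a k) : ℂ)‖ ≤ 2 * lam * (B * σ) := by gcongr
        _ = 2 * B * (lam * σ) := by ring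
    have i2 : ‖h0 x1 - h0 (a k)‖ ≤ C0 * σ :=
      (hh0lip k x1 hle1).trans (by gcongr)
    have i3 : ‖(lam * (h1 x1 - h1 (a k)) : ℂ)‖ ≤ C1 * (lam * σ) := by
      rw [norm_mul, Complex.norm_real, Real.norm_eq_abs, abs_of_pos (by linarith)]
      calc lam * ‖h1 x1 - h1 (a k)‖ ≤ lam * (C1 * σ) := by
            gcongr
            exact (hh1lip k x1 hle1).trans (by gcongr)
        _ = C1 * (lam * σ) := by ring
    calc ‖w‖ ≤ ‖(2 * lam * inner ℂ (a k) (x1 - a k) : ℂ) + (h0 x1 - h0 (a k))‖ + ‖(lam * (h1 x1 - h1 (a k)) : ℂ)‖ :=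
          norm_sub_le _ _
      _ ≤ ‖(2 * lam * inner ℂ (a k) (x1 - a k) : ℂ)‖ + ‖h0 x1 - h0 (a k)‖ + ‖(lam * (h1 x1 - h1 (a k)) : ℂ)‖ := by
          gcongr; exact norm_add_le _ _
      _ ≤ 2 * B * (lam * σ) + C0 * σ + C1 * (lam * σ) := by gcongr
      _ ≤ 2 * B * e1 + C0 * e1 + C1 * e1 := by gcongr
      _ = L * e1 := by rw [hL]; ring
  have hznear : ‖z - 1‖ ≤ e1 := hv1Z.trans hητε
  have hfin := x_exp_near w z L e1 hL0 he10.le he1L hwn hznear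
  have hz2n : ‖z1 * Complex.exp (h0 x1 - (lam : ℂ) * h1 x1) - ζ k‖ ≤ ε / 4 := by
    rw [hz2]
    have : ζ k * (z * Complex.exp w) - ζ k = ζ k * (z * Complex.exp w - 1) := by ring
    rw [this, norm_mul]
    exact (mul_le_mul (hZm k) hfin (norm_nonneg _) hZ0).trans he1Z
  generalize z1 * Complex.exp (h0 x1 - (lam : ℂ) * h1 x1) = z2 at hz2n ⊢
  have hx1n : ‖(κ : ℂ) • x1‖ ≤ ε / 2 := by
    rw [norm_smul, Complex.norm_real, Real.norm_eq_abs, abs_of_pos hκ0, ← hκ]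
    have : ‖x1‖ ≤ B + 1 := by
      calc ‖x1‖ = ‖(x1 - a k) + a k‖ := by rw [sub_add_cancel]
        _ ≤ ‖x1 - a k‖ + ‖a k‖ := norm_add_le _ _
        _ ≤ B + 1 := by linarith [hB k]
    gcongr
  have hsub : D.i ((κ : ℂ) • x1) + z2 • D.e - ζ k • D.e = D.i ((κ : ℂ) • x1) + (z2 - ζ k) • D.e := by
    rw [sub_smul]; abel
  rw [hsub]
  have hnn := D.hn (D.i ((κ : ℂ) • x1) + (z2 - ζ k) • D.e)
  rw [D.hX, D.hZ] at hnn
  have h5 : ‖D.i ((κ : ℂ) • x1) + (z2 - ζ k) • D.e‖ ^ 2 < ε ^ 2 := by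
    rw [hnn]
    have p1 : ‖(κ : ℂ) • x1‖ ^ 2 ≤ (ε / 2) ^ 2 := pow_le_pow_left₀ (norm_nonneg _) hx1n 2
    have p2 : ‖z2 - ζ k‖ ^ 2 ≤ (ε / 4) ^ 2 := pow_le_pow_left₀ (norm_nonneg _) hz2n 2
    nlinarith
  exact lt_of_pow_lt_pow_left₀ 2 hε.le h5

end



end Pool.Agent.Helper536.LK.LC12

namespace Pool.Agent.Helper536.LK
alias pmain := LC12.pmain
end Pool.Agent.Helper536.LK
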