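import Pool.Agent.Helper536.LK.SDefs
import Pool.Agent.Helper536.LK.TowerDef

open scoped ContDiff Topology

open Set Metric

noncomputable section

namespace Pool.Agent.Helper536.LK.LD1

section

variable {E F : Type*} [NormedAddCommGroup E] [InnerProductSpace ℂ E]
    [NormedAddCommGroup F] [InnerProductSpace ℂ F]

end

section A

variable {E E' : Type*} [NormedAddCommGroup E] [NormedSpace ℂ E] [NormedAddCommGroup E']
  [NormedSpace ℂ E']

end A



section

variable {E F : Type*} [NormedAddCommGroup E] [InnerProductSpace ℂ E]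
    [NormedAddCommGroup F] [InnerProductSpace ℂ F]



end

theorem exists_dec {E : Type*} [NormedAddCommGroup E] [InnerProductSpace ℂ E]
    [FiniteDimensional ℂ E] (n : ℕ) (hn : Module.finrank ℂ E = n + 1) (w : E) (hw : w ≠ 0) :
    ∃ D : Dec E (EuclideanSpace ℂ (Fin n)), w = ((‖w‖ : ℝ) : ℂ) • D.e := by
  haveI : Fact (Module.finrank ℂ E = n + 1) := ⟨hn⟩
  have hw' : (‖w‖ : ℂ) ≠ 0 := by
    exact_mod_cast norm_ne_zero_iff.2 hw
  set e : E := ((‖w‖ : ℂ))⁻¹ • w with he
  have hen : ‖e‖ = 1 := by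
    rw [he, norm_smul, norm_inv, Complex.norm_real, norm_norm]
    exact inv_mul_cancel₀ (norm_ne_zero_iff.2 hw)
  have he0 : e ≠ 0 := by
    intro h0
    rw [h0, norm_zero] at hen
    exact zero_ne_one hen
  have hee : inner ℂ e e = (1 : ℂ) := by
    rw [inner_self_eq_norm_sq_to_K, hen]; simp
  let U : Submodule ℂ E := (Submodule.span ℂ {e})ᗮ
  have hU : ∀ u : U, inner ℂ e (u : E) = (0 : ℂ) := by
    intro u
    exact (Submodule.mem_orthogonal_singleton_iff_inner_right.1 u.2)
  let T : U ≃ₗᵢ[ℂ] EuclideanSpace ℂ (Fin n) :=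
    (OrthonormalBasis.fromOrthogonalSpanSingleton n he0).repr
  let pr : E →L[ℂ] E := ContinuousLinearMap.id ℂ E - (innerSL ℂ e).smulRight e
  have hpr : ∀ v, pr v = v - (inner ℂ e v : ℂ) • e := fun v => rfl
  have hprU : ∀ v, pr v ∈ U := by
    intro v
    refine Submodule.mem_orthogonal_singleton_iff_inner_right.2 ?_
    rw [hpr, inner_sub_right, inner_smul_right, hee, mul_one, sub_self]
  let prU : E →L[ℂ] U := pr.codRestrict U hprU
  refine ⟨⟨(T.toContinuousLinearEquiv : U →L[ℂ] EuclideanSpace ℂ (Fin n)).comp prU, innerSL ℂ e,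
    U.subtypeL.comp (T.symm.toContinuousLinearEquiv : EuclideanSpace ℂ (Fin n) →L[ℂ] U), e,
    ?_, ?_, ?_, ?_⟩, ?_⟩
  · intro x z
    have h1 : prU (U.subtypeL (T.symm x) + z • e) = T.symm x := by
      apply Subtype.ext
      show pr (((T.symm x : U) : E) + z • e) = ((T.symm x : U) : E)
      rw [hpr, inner_add_right, inner_smul_right, hee, hU, zero_add, mul_one, add_sub_cancel_right]
    show T (prU (U.subtypeL (T.symm x) + z • e)) = x
    rw [h1, LinearIsometryEquiv.apply_symm_apply]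
  · intro x z
    show inner ℂ e (((T.symm x : U) : E) + z • e) = z
    rw [inner_add_right, inner_smul_right, hee, hU, zero_add, mul_one]
  · intro v
    show ((T.symm (T (prU v)) : U) : E) + (inner ℂ e v : ℂ) • e = v
    rw [LinearIsometryEquiv.symm_apply_apply]
    show pr v + (inner ℂ e v : ℂ) • e = v
    rw [hpr, sub_add_cancel]
  · intro v
    show ‖v‖ ^ 2 = ‖T (prU v)‖ ^ 2 + ‖(inner ℂ e v : ℂ)‖ ^ 2
    rw [LinearIsometryEquiv.norm_map]
    have h1 : ‖prU v‖ = ‖pr v‖ := rfl
    have h2 : (inner ℂ (pr v) ((inner ℂ e v : ℂ) • e) : ℂ) = 0 := by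
      have h5 : (inner ℂ (pr v) e : ℂ) = 0 := by
        have h6 : (inner ℂ e (pr v) : ℂ) = 0 := hU ⟨pr v, hprU v⟩
        rw [← inner_conj_symm, h6, map_zero]
      rw [inner_smul_right, h5, mul_zero]
    have h3 := norm_add_sq_eq_norm_sq_add_norm_sq_of_inner_eq_zero (𝕜 := ℂ) _ _ h2
    have h4 : pr v + (inner ℂ e v : ℂ) • e = v := by rw [hpr, sub_add_cancel]
    rw [h4, norm_smul, hen, mul_one] at h3
    rw [h1]
    nlinarith [h3]
  · show w = ((‖w‖ : ℝ) : ℂ) • e
    rw [he, smul_smul, mul_inv_cancel₀ hw', one_smul]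



end Pool.Agent.Helper536.LK.LD1

namespace Pool.Agent.Helper536.LK
alias exists_dec := LD1.exists_dec
end Pool.Agent.Helper536.LK
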