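import Pool.Agent.Helper536.LK.SDefs
import Pool.Agent.Helper536.LK.TowerDef

open scoped ContDiff Topology

open Set Metric

noncomputable section

namespace Pool.Agent.Helper536.LK.LD2

section

variable {E F : Type*} [NormedAddCommGroup E] [InnerProductSpace ℂ E]
    [NormedAddCommGroup F] [InnerProductSpace ℂ F]

end

section A

variable {E E' : Type*} [NormedAddCommGroup E] [NormedSpace ℂ E] [NormedAddCommGroup E']
  [NormedSpace ℂ E']

end A



section

variable {E F : Type*} [NormedAddCommGroup E] [InnerProductSpace ℂ E]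
    [NormedAddCommGroup F] [InnerProductSpace ℂ F]



end

theorem kallin_fin {n : ℕ} (hK : Kallin n) : ∃ (m : ℕ) (a : Fin (m + 1) → EuclideanSpace ℂ (Fin n))
    (r : Fin (m + 1) → ℝ) (Λ : ℝ), (∀ i, 0 ≤ r i) ∧ r 0 = 0 ∧
    (∀ i j, i ≠ j → r i + r j < ‖a i - a j‖) ∧
    ∀ f : EuclideanSpace ℂ (Fin n) → ℂ, (∀ x, ‖x‖ ≤ Λ → DifferentiableAt ℂ f x) →
      ∃ i, i ≠ 0 ∧ ∃ y, ‖y - a i‖ ≤ r i ∧ ‖f (a 0)‖ ≤ ‖f y‖ := by
  obtain ⟨k, c, r, q, Λ, hr, hcc, hqc, hf⟩ := hK
  refine ⟨k, Fin.cons q c, Fin.cons 0 r, Λ, ?_, Fin.cons_zero _ _, ?_, ?_⟩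
  · intro i
    refine Fin.cases ?_ (fun j => ?_) i
    · rw [Fin.cons_zero]
    · rw [Fin.cons_succ]; exact (hr j).le
  · intro i
    refine Fin.cases ?_ (fun i' => ?_) i
    · intro j
      refine Fin.cases ?_ (fun j' => ?_) j
      · intro h; exact absurd rfl h
      · intro _
        rw [Fin.cons_zero, Fin.cons_succ, Fin.cons_zero, Fin.cons_succ, zero_add]
        exact hqc j'
    · intro j
      refine Fin.cases ?_ (fun j' => ?_) j
      · intro _
        rw [Fin.cons_zero, Fin.cons_succ, Fin.cons_zero, Fin.cons_succ, add_zero, norm_sub_rev]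
        exact hqc i'
      · intro h
        rw [Fin.cons_succ, Fin.cons_succ, Fin.cons_succ, Fin.cons_succ]
        exact hcc i' j' (fun h' => h (by rw [h']))
  · intro f hd
    obtain ⟨i, y, hy, hfy⟩ := hf f hd
    refine ⟨i.succ, Fin.succ_ne_zero i, y, ?_, ?_⟩
    · rw [Fin.cons_succ, Fin.cons_succ]; exact hy
    · rw [Fin.cons_zero]; exact hfy



end Pool.Agent.Helper536.LK.LD2

namespace Pool.Agent.Helper536.LK
alias kallin_fin := LD2.kallin_fin
end Pool.Agent.Helper536.LK
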