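import Pool.Agent.Helper536.LK.SDefs
import Pool.Agent.Helper536.LK.TowerDef
import Pool.Agent.Helper536.LK.LB6
import Pool.Agent.Helper536.LK.LC12
import Pool.Agent.Helper536.LK.LD1
import Pool.Agent.Helper536.LK.LD2

open scoped ContDiff Topology

open Set Metric

noncomputable section

namespace Pool.Agent.Helper536.LK.LD3

section

variable {E F : Type*} [NormedAddCommGroup E] [InnerProductSpace ℂ E]
    [NormedAddCommGroup F] [InnerProductSpace ℂ F]

end

section A

variable {E E' : Type*} [NormedAddCommGroup E] [NormedSpace ℂ E] [NormedAddCommGroup E']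
  [NormedSpace ℂ E']

end A



section

variable {E F : Type*} [NormedAddCommGroup E] [InnerProductSpace ℂ E]
    [NormedAddCommGroup F] [InnerProductSpace ℂ F]



end

theorem step_Z_le {E F : Type*} [NormedAddCommGroup E] [InnerProductSpace ℂ E]
    [NormedAddCommGroup F] [InnerProductSpace ℂ F] (D : Dec E F) (v : E) : ‖D.Z v‖ ≤ ‖v‖ := by
  have h := D.hn v
  have h1 := sq_nonneg ‖D.X v‖
  exact le_of_sq_le_sq (by linarith) (norm_nonneg v)

theorem step_Z_e {E F : Type*} [NormedAddCommGroup E] [InnerProductSpace ℂ E]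
    [NormedAddCommGroup F] [InnerProductSpace ℂ F] (D : Dec E F) (z : ℂ) : D.Z (z • D.e) = z := by
  have h := D.hZ 0 z
  rwa [map_zero, zero_add] at h

theorem step {n : ℕ} (hK : Kallin n) {E : Type*} [NormedAddCommGroup E] [InnerProductSpace ℂ E]
    [FiniteDimensional ℂ E] (hE : Module.finrank ℂ E = n + 1) (φ : E → ℝ) (hφ : Spsh φ) (R : ℝ)
    (hR : 0 < R) (p b : E) (hp : ‖p‖ < R) (hb : ‖b‖ < R) (hpb : p ≠ b) (ε : ℝ) (hε : 0 < ε) :
    ∃ (G : Dif E) (φ' : E → ℝ) (R₀ : ℝ), Spsh φ' ∧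
      (∀ v, ‖v‖ ≤ R → AnalyticAt ℂ G.f v) ∧
      (∀ v, ‖v‖ ≤ R → ∀ a c, lev φ' (G.f v) (fderiv ℝ G.f v a) (fderiv ℝ G.f v c) = lev φ v a c) ∧
      (∀ x, R₀ ≤ ‖x‖ → ∀ v, ‖v‖ ^ 2 ≤ lev φ' x v v) ∧
      (∀ v, ‖v‖ ≤ R → ‖G.f v‖ < R₀) ∧
      (∀ R', R₀ ≤ R' → ∀ h : E → ℂ, DifferentiableOn ℂ h (ball 0 R') →
        ∃ b' ∈ ball b ε, ∃ p' ∈ ball p ε, ‖b'‖ < R ∧ ‖p'‖ < R ∧ ‖h (G.f b')‖ ≤ ‖h (G.f p')‖) := by
  haveI : ProperSpace E := FiniteDimensional.proper ℂ E
  have hw : b - p ≠ 0 := sub_ne_zero.2 (Ne.symm hpb)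
  obtain ⟨D, hD⟩ := exists_dec n hE (b - p) hw
  set L : ℂ := ((3 * R : ℝ) : ℂ) with hL
  set c : E := -p + L • D.e with hc
  have hpc : p + c = L • D.e := by rw [hc]; abel
  have hbc : b + c = (L + ((‖b - p‖ : ℝ) : ℂ)) • D.e := by
    rw [add_smul, ← hD, hc]; abel
  have hOm : ∀ v, ‖v‖ ≤ R → v + c ∈ D.Om := by
    intro v hv h0
    have h1 : D.Z (v + c) = D.Z v - D.Z p + L := by
      rw [hc, map_add, map_add, map_neg, step_Z_e]; ring
    rw [h1] at h0
    have h2 : L = D.Z p - D.Z v := by linear_combination h0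
    have h3 : ‖L‖ = 3 * R := by
      rw [hL, Complex.norm_real, Real.norm_eq_abs, abs_of_pos (by linarith)]
    have h4 : ‖D.Z p - D.Z v‖ ≤ ‖p‖ + ‖v‖ :=
      (norm_sub_le _ _).trans (add_le_add (step_Z_le D p) (step_Z_le D v))
    rw [← h2, h3] at h4
    linarith
  obtain ⟨m, a, r, Λ, hr, hr0, hd, hmax⟩ := kallin_fin hK
  set ε' : ℝ := min ε (min (R - ‖p‖) (R - ‖b‖)) with hε'
  have hε'pos : 0 < ε' := lt_min hε (lt_min (by linarith) (by linarith))
  have hε'1 : ε' ≤ ε := min_le_left _ _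
  have hε'2 : ε' ≤ R - ‖p‖ := (min_le_right _ _).trans (min_le_left _ _)
  have hε'3 : ε' ≤ R - ‖b‖ := (min_le_right _ _).trans (min_le_right _ _)
  have hLne : L ≠ 0 := by
    rw [hL, Ne, Complex.ofReal_eq_zero]
    linarith
  have hL2 : L + ((‖b - p‖ : ℝ) : ℂ) ≠ 0 := by
    rw [hL, ← Complex.ofReal_add, Ne, Complex.ofReal_eq_zero]
    have := norm_nonneg (b - p)
    linarith
  obtain ⟨A, Φ, hΦan, hΦne, hΦ⟩ := pmain D (m + 1) a r hr hd
    (fun i => if i = 0 then L + ((‖b - p‖ : ℝ) : ℂ) else L) (by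
      intro i
      split_ifs
      · exact hL2
      · exact hLne) ε' hε'pos
  have hKc : IsCompact ((fun v => v + c) '' closedBall (0 : E) R) :=
    (isCompact_closedBall 0 R).image (continuous_id.add continuous_const)
  obtain ⟨d, U, hU, hKU, hUO, hdU⟩ := A.ext_f _ hKc (by
    rintro _ ⟨v, hv, rfl⟩
    exact hOm v (by simpa using hv))
  have hmemU : ∀ v, ‖v‖ ≤ R → v + c ∈ U := fun v hv => hKU ⟨v, by simpa using hv, rfl⟩
  let G : Dif E :=
    { f := fun v => d.f (v + c)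
      g := fun y => d.g y - c
      left := fun x => by
        show d.g (d.f (x + c)) - c = x
        rw [d.left, add_sub_cancel_right]
      right := fun x => by
        show d.f (d.g x - c + c) = x
        rw [sub_add_cancel, d.right]
      sf := d.sf.comp (contDiff_id.add contDiff_const)
      sg := d.sg.sub contDiff_const }
  have hGf : ∀ v, ‖v‖ ≤ R → G.f v = A.f (v + c) := fun v hv => hdU (hmemU v hv)
  have hGev : ∀ v, ‖v‖ ≤ R → G.f =ᶠ[𝓝 v] fun v => A.f (v + c) := by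
    intro v hv
    have h1 : (fun v : E => v + c) ⁻¹' U ∈ 𝓝 v :=
      (hU.preimage (continuous_id.add continuous_const)).mem_nhds (hmemU v hv)
    filter_upwards [h1] with x hx
    exact hdU hx
  obtain ⟨φ', R₀', hφ', hlev, hshell⟩ := kstep D A φ hφ c R hOm
  obtain ⟨C1, hC1⟩ := (isCompact_closedBall (0 : E) R).exists_bound_of_continuousOn
    (f := G.f) G.sf.continuous.continuousOn
  have hΦd : Differentiable ℂ Φ := fun x => (hΦan x (mem_univ x)).differentiableAt
  have hptd : Differentiable ℂ (fun x : EuclideanSpace ℂ (Fin n) => D.i x + Φ x • D.e) :=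
    D.i.differentiable.add (hΦd.smul_const D.e)
  obtain ⟨C2, hC2⟩ := (isCompact_closedBall (0 : EuclideanSpace ℂ (Fin n)) Λ).exists_bound_of_continuousOn
    (f := fun x => D.i x + Φ x • D.e) hptd.continuous.continuousOn
  refine ⟨G, φ', max R₀' (max (C1 + 1) (C2 + 1)), hφ', ?_, ?_, ?_, ?_, ?_⟩
  · intro v hv
    have h1 : AnalyticAt ℂ A.f (v + c) := A.an_f (v + c) (hOm v hv)
    have h2 : AnalyticAt ℂ (fun v : E => v + c) v := analyticAt_id.add analyticAt_const
    have h3 : AnalyticAt ℂ (fun v => A.f (v + c)) v := AnalyticAt.fun_comp h1 h2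
    exact h3.congr (hGev v hv).symm
  · intro v hv x y
    have h1 : fderiv ℝ G.f v = fderiv ℝ A.f (v + c) := by
      rw [(hGev v hv).fderiv_eq, fderiv_comp_add_right]
    rw [h1, hGf v hv]
    exact hlev v hv x y
  · intro x hx v
    exact hshell x ((le_max_left _ _).trans hx) v
  · intro v hv
    have h1 := hC1 v (by simpa using hv)
    have h2 : C1 + 1 ≤ max R₀' (max (C1 + 1) (C2 + 1)) :=
      (le_max_left _ _).trans (le_max_right _ _)
    linarith
  · intro R' hR' h hh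
    have hfd : ∀ x : EuclideanSpace ℂ (Fin n), ‖x‖ ≤ Λ →
        DifferentiableAt ℂ (fun x => h (D.i x + Φ x • D.e)) x := by
      intro x hx
      have h1 : D.i x + Φ x • D.e ∈ ball (0 : E) R' := by
        rw [mem_ball_zero_iff]
        have h2 := hC2 x (by simpa using hx)
        have h3 : C2 + 1 ≤ max R₀' (max (C1 + 1) (C2 + 1)) :=
          (le_max_right _ _).trans (le_max_right _ _)
        linarith
      have h4 : DifferentiableAt ℂ h (D.i x + Φ x • D.e) :=
        hh.differentiableAt (isOpen_ball.mem_nhds h1)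
      exact DifferentiableAt.comp x h4 (hptd x)
    obtain ⟨i, hi, y, hy, hle⟩ := hmax _ hfd
    have hpoint : ∀ (q : E) (x : EuclideanSpace ℂ (Fin n)) (z : ℂ), ‖q‖ < R → ε' ≤ R - ‖q‖ →
        q + c = z • D.e → Φ x ≠ 0 → ‖A.g (D.i x + Φ x • D.e) - z • D.e‖ < ε' →
        (A.g (D.i x + Φ x • D.e) - c) ∈ ball q ε ∧ ‖A.g (D.i x + Φ x • D.e) - c‖ < R ∧
          G.f (A.g (D.i x + Φ x • D.e) - c) = D.i x + Φ x • D.e := by
      intro q x z hq hεq hqc hne hlt
      have h1 : ‖A.g (D.i x + Φ x • D.e) - c - q‖ < ε' := by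
        have : A.g (D.i x + Φ x • D.e) - c - q = A.g (D.i x + Φ x • D.e) - z • D.e := by
          rw [← hqc]; abel
        rw [this]; exact hlt
      have h2 : ‖A.g (D.i x + Φ x • D.e) - c‖ < R := by
        have h3 : A.g (D.i x + Φ x • D.e) - c = q + (A.g (D.i x + Φ x • D.e) - c - q) := by abel
        rw [h3]
        have h4 := norm_add_le q (A.g (D.i x + Φ x • D.e) - c - q)
        linarith
      refine ⟨?_, h2, ?_⟩
      · rw [mem_ball, dist_eq_norm]
        exact h1.trans_le hε'1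
      · rw [hGf _ h2.le, sub_add_cancel]
        apply A.right
        show D.Z (D.i x + Φ x • D.e) ≠ 0
        rw [D.hZ]
        exact hne
    have hb1 := hpoint b (a 0) (L + ((‖b - p‖ : ℝ) : ℂ)) hb hε'3 hbc
      (hΦne 0 (a 0) (by simp [hr0])) (by
        have := hΦ 0 (a 0) (by simp [hr0])
        simpa using this)
    have hp1 := hpoint p y L hp hε'2 hpc (hΦne i y hy) (by
        have := hΦ i y hy
        rw [if_neg hi] at this
        exact this)
    refine ⟨_, hb1.1, _, hp1.1, hb1.2.1, hp1.2.1, ?_⟩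
    rw [hb1.2.2, hp1.2.2]
    exact hle



end Pool.Agent.Helper536.LK.LD3

namespace Pool.Agent.Helper536.LK
alias step := LD3.step
end Pool.Agent.Helper536.LK
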