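import Pool.Agent.Helper536.LK.SDefs
import Pool.Agent.Helper536.LK.TowerDef
import Pool.Agent.Helper536.LK.LD3

open scoped ContDiff Topology

open Set Metric

noncomputable section

namespace Pool.Agent.Helper536.LK.LD4

section

variable {E F : Type*} [NormedAddCommGroup E] [InnerProductSpace ℂ E]
    [NormedAddCommGroup F] [InnerProductSpace ℂ F]

end

section A

variable {E E' : Type*} [NormedAddCommGroup E] [NormedSpace ℂ E] [NormedAddCommGroup E']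
  [NormedSpace ℂ E']

end A



section

variable {E F : Type*} [NormedAddCommGroup E] [InnerProductSpace ℂ E]
    [NormedAddCommGroup F] [InnerProductSpace ℂ F]



end



theorem tower_step_choice {n : ℕ} {E : Type*} [NormedAddCommGroup E]
    [InnerProductSpace ℂ E] [FiniteDimensional ℂ E] (hE : Module.finrank ℂ E = n + 1) (H : Dif E)
    (R : ℝ) (hR : 0 < R) (P Q : E) (δ : ℝ) (hδ : 0 < δ) :
    ∃ (p b : E) (ε : ℝ), ‖p‖ < R ∧ ‖b‖ < R ∧ p ≠ b ∧ 0 < ε ∧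
      (P ≠ Q → ‖H.f P‖ < R → ‖H.f Q‖ < R →
        (∀ y ∈ ball p ε, H.g y ∈ ball P δ) ∧ (∀ y ∈ ball b ε, H.g y ∈ ball Q δ)) := by
  by_cases hc : P ≠ Q ∧ ‖H.f P‖ < R ∧ ‖H.f Q‖ < R
  · obtain ⟨hPQ, hP, hQ⟩ := hc
    have hcont : Continuous H.g := H.sg.continuous
    obtain ⟨ε₁, hε₁, h₁⟩ := Metric.continuousAt_iff.1 (hcont.continuousAt (x := H.f P)) δ hδ
    obtain ⟨ε₂, hε₂, h₂⟩ := Metric.continuousAt_iff.1 (hcont.continuousAt (x := H.f Q)) δ hδ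
    refine ⟨H.f P, H.f Q, min ε₁ ε₂, hP, hQ, ?_, lt_min hε₁ hε₂, fun _ _ _ => ⟨?_, ?_⟩⟩
    · intro h
      apply hPQ
      rw [← H.left P, h, H.left Q]
    · intro y hy
      have h3 := h₁ (lt_of_lt_of_le (Metric.mem_ball.1 hy) (min_le_left _ _))
      rw [H.left] at h3
      exact h3
    · intro y hy
      have h3 := h₂ (lt_of_lt_of_le (Metric.mem_ball.1 hy) (min_le_right _ _))
      rw [H.left] at h3
      exact h3
  · have : Nontrivial E := Module.nontrivial_of_finrank_pos (R := ℂ) (by rw [hE]; omega)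
    obtain ⟨v, hv⟩ := exists_ne (0 : E)
    have hv' : 0 < ‖v‖ := norm_pos_iff.2 hv
    have hnorm : ‖((R / 2 / ‖v‖ : ℝ) : ℂ) • v‖ = R / 2 := by
      rw [norm_smul, Complex.norm_real, Real.norm_eq_abs, abs_of_pos (by positivity)]
      field_simp
    refine ⟨0, ((R / 2 / ‖v‖ : ℝ) : ℂ) • v, 1, by simpa using hR, by rw [hnorm]; linarith, ?_,
      one_pos, fun h1 h2 h3 => absurd ⟨h1, h2, h3⟩ hc⟩
    intro h
    rw [← h, norm_zero] at hnorm
    linarith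

theorem tower_step {n : ℕ} (hK : Kallin n) {E : Type*} [NormedAddCommGroup E]
    [InnerProductSpace ℂ E] [FiniteDimensional ℂ E] (hE : Module.finrank ℂ E = n + 1) (H : Dif E)
    (φ : E → ℝ) (hφ : Spsh φ) (R : ℝ) (hR : 0 < R) (P Q : E) (δ : ℝ) (hδ : 0 < δ) (N : ℝ) :
    ∃ (G : Dif E) (φ' : E → ℝ) (R' : ℝ), Spsh φ' ∧ 0 < R' ∧
      (∀ v, ‖v‖ ≤ R → AnalyticAt ℂ G.f v) ∧
      (∀ v, ‖v‖ ≤ R → ‖G.f v‖ < R' - 2) ∧
      (∀ v, ‖v‖ ≤ R → ∀ a c, lev φ' (G.f v) (fderiv ℝ G.f v a) (fderiv ℝ G.f v c) = lev φ v a c) ∧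
      (∀ x, R' - 2 ≤ ‖x‖ → ∀ v, ‖v‖ ^ 2 ≤ lev φ' x v v) ∧
      (∀ x, ‖x‖ ≤ N → ‖G.f (H.f x)‖ < R') ∧
      (P ≠ Q → ‖H.f P‖ < R → ‖H.f Q‖ < R → ∀ h : E → ℂ, DifferentiableOn ℂ h (ball 0 R') →
        ∃ P' ∈ ball P δ, ∃ Q' ∈ ball Q δ, ‖h (G.f (H.f Q'))‖ ≤ ‖h (G.f (H.f P'))‖) := by
  obtain ⟨p, b, ε, hp, hb, hpb, hε, hball⟩ := tower_step_choice hE H R hR P Q δ hδ
  obtain ⟨G, φ', R₀, h1, h2, h3, h4, h5, h6⟩ := step hK hE φ hφ R hR p b hp hb hpb ε hε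
  have : ProperSpace E := FiniteDimensional.proper ℂ E
  obtain ⟨C, hC⟩ := (isCompact_closedBall (0 : E) N).exists_bound_of_continuousOn
    (f := fun x => G.f (H.f x)) (G.sf.continuous.comp H.sf.continuous).continuousOn
  have e1 := le_abs_self R₀
  have e2 := le_abs_self C
  have e3 := abs_nonneg R₀
  have e4 := abs_nonneg C
  refine ⟨G, φ', |R₀| + |C| + 3, h1, by linarith, h2, fun v hv => ?_, h3, fun x hx v => ?_,
    fun x hx => ?_, ?_⟩
  · have := h5 v hv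
    linarith
  · exact h4 x (by linarith) v
  · have := hC x (by simpa using hx)
    linarith
  · intro hPQ hP hQ h hh
    obtain ⟨b', hb', p', hp', _, _, h9⟩ := h6 (|R₀| + |C| + 3) (by linarith) h hh
    obtain ⟨k1, k2⟩ := hball hPQ hP hQ
    refine ⟨H.g p', k1 p' hp', H.g b', k2 b' hb', ?_⟩
    rw [H.right, H.right]
    exact h9

end Pool.Agent.Helper536.LK.LD4

namespace Pool.Agent.Helper536.LK
alias tower_step := LD4.tower_step
end Pool.Agent.Helper536.LK
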