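import Pool.Agent.Helper536.LK.SDefs
import Pool.Agent.Helper536.LK.TowerDef
import Pool.Agent.Helper536.LK.LA6
import Pool.Agent.Helper536.LK.LD4

open scoped ContDiff Topology

open Set Metric

noncomputable section

namespace Pool.Agent.Helper536.LK.LD5

section

variable {E F : Type*} [NormedAddCommGroup E] [InnerProductSpace ℂ E]
    [NormedAddCommGroup F] [InnerProductSpace ℂ F]

end

section A

variable {E E' : Type*} [NormedAddCommGroup E] [NormedSpace ℂ E] [NormedAddCommGroup E']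
  [NormedSpace ℂ E']

end A



section

variable {E F : Type*} [NormedAddCommGroup E] [InnerProductSpace ℂ E]
    [NormedAddCommGroup F] [InnerProductSpace ℂ F]



end



/-- composition of diffeomorphisms -/
def difComp {E : Type*} [NormedAddCommGroup E] [NormedSpace ℂ E] (G H : Dif E) : Dif E where
  f := fun x => G.f (H.f x)
  g := fun x => H.g (G.g x)
  left := fun x => by rw [G.left, H.left]
  right := fun x => by rw [H.right, G.right]
  sf := G.sf.comp H.sf
  sg := H.sg.comp G.sg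

/-- the identity -/
def difId (E : Type*) [NormedAddCommGroup E] [NormedSpace ℂ E] : Dif E where
  f := fun x => x
  g := fun x => x
  left := fun _ => rfl
  right := fun _ => rfl
  sf := contDiff_id
  sg := contDiff_id

/-- states of the recursion -/
structure TSt (E : Type*) [NormedAddCommGroup E] [NormedSpace ℂ E] where
  H : Dif E
  φ : E → ℝ
  R : ℝ
  sp : Spsh φ
  hR : 0 < R

/-- the relation between successive states -/
structure TRel {E : Type*} [NormedAddCommGroup E] [NormedSpace ℂ E] (s : TSt E) (G : Dif E)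
    (s' : TSt E) (P Q : E) (δ N : ℝ) : Prop where
  hH : ∀ x, s'.H.f x = G.f (s.H.f x)
  anG : ∀ v, ‖v‖ ≤ s.R → AnalyticAt ℂ G.f v
  hG : ∀ v, ‖v‖ ≤ s.R → ‖G.f v‖ < s'.R - 2
  compat : ∀ v, ‖v‖ ≤ s.R → ∀ a c, lev s'.φ (G.f v) (fderiv ℝ G.f v a) (fderiv ℝ G.f v c)
    = lev s.φ v a c
  shell : ∀ x, s'.R - 2 ≤ ‖x‖ → ∀ v, ‖v‖ ^ 2 ≤ lev s'.φ x v v
  exh : ∀ x, ‖x‖ ≤ N → ‖G.f (s.H.f x)‖ < s'.R
  key : P ≠ Q → ‖s.H.f P‖ < s.R → ‖s.H.f Q‖ < s.R → ∀ h : E → ℂ,
    DifferentiableOn ℂ h (ball 0 s'.R) →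
        ∃ P' ∈ ball P δ, ∃ Q' ∈ ball Q δ, ‖h (G.f (s.H.f Q'))‖ ≤ ‖h (G.f (s.H.f P'))‖

theorem tstep_exists {n : ℕ} (hK : Kallin n) {E : Type*} [NormedAddCommGroup E]
    [InnerProductSpace ℂ E] [FiniteDimensional ℂ E] (hE : Module.finrank ℂ E = n + 1)
    (s : TSt E) (P Q : E) (δ : ℝ) (hδ : 0 < δ) (N : ℝ) :
    ∃ (G : Dif E) (s' : TSt E), TRel s G s' P Q δ N := by
  obtain ⟨G, φ', R', h1, h2, h3, h4, h5, h6, h7, h8⟩ :=
    tower_step hK hE s.H s.φ s.sp s.R s.hR P Q δ hδ N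
  exact ⟨G, ⟨difComp G s.H, φ', R', h1, h2⟩, ⟨fun x => rfl, h3, h4, h5, h6, h7, h8⟩⟩

theorem spsh_normsq {E : Type*} [NormedAddCommGroup E] [InnerProductSpace ℂ E] :
    Spsh (fun y : E => ‖y‖ ^ 2) := by
  refine ⟨contDiff_normsq, fun x v hv => ?_⟩
  rw [lev_normsq]
  have : 0 < ‖v‖ := norm_pos_iff.mpr hv
  positivity

theorem tower_exists {n : ℕ} (hK : Kallin n) {E : Type*} [NormedAddCommGroup E]
    [InnerProductSpace ℂ E] [FiniteDimensional ℂ E] (hE : Module.finrank ℂ E = n + 1) :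
    Nonempty (Tower E) := by
  have : ProperSpace E := FiniteDimensional.proper ℂ E
  have : TopologicalSpace.SeparableSpace E := inferInstance
  obtain ⟨d, hd⟩ : ∃ d : ℕ → E, DenseRange d :=
    ⟨TopologicalSpace.denseSeq E, TopologicalSpace.denseRange_denseSeq E⟩
  -- the enumeration
  let pa : ℕ → ℕ := fun j => (Nat.unpair (Nat.unpair j).1).1
  let pb : ℕ → ℕ := fun j => (Nat.unpair (Nat.unpair j).1).2
  have hpab : ∀ a b k : ℕ, ∃ j, k ≤ j ∧ pa j = a ∧ pb j = b := by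
    intro a b k
    refine ⟨Nat.pair (Nat.pair a b) k, Nat.right_le_pair _ _, ?_, ?_⟩
    · simp [pa]
    · simp [pb]
  have hstep : ∀ (j : ℕ) (s : TSt E), ∃ (G : Dif E) (s' : TSt E),
      TRel s G s' (d (pa j)) (d (pb j)) (1 / ((j : ℝ) + 1)) ((j : ℝ) + 1) := by
    intro j s
    exact tstep_exists hK hE s _ _ _ (by positivity) _
  choose GG nx hnx using hstep
  let s0 : TSt E := ⟨difId E, fun y => ‖y‖ ^ 2, 1, spsh_normsq, one_pos⟩
  let S : ℕ → TSt E := fun j => Nat.rec s0 (fun j s => nx j s) j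
  have hS : ∀ j, S (j + 1) = nx j (S j) := fun j => rfl
  have hrel : ∀ j, TRel (S j) (GG j (S j)) (S (j + 1)) (d (pa j)) (d (pb j))
      (1 / ((j : ℝ) + 1)) ((j : ℝ) + 1) := by
    intro j
    rw [hS]
    exact hnx j (S j)
  have hmono1 : ∀ j x, ‖(S j).H.f x‖ < (S j).R → ‖(S (j + 1)).H.f x‖ < (S (j + 1)).R := by
    intro j x hx
    rw [(hrel j).hH x]
    have := (hrel j).hG _ hx.le
    linarith
  have hmono : ∀ j k x, j ≤ k → ‖(S j).H.f x‖ < (S j).R → ‖(S k).H.f x‖ < (S k).R := by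
    intro j k x hjk hx
    induction k, hjk using Nat.le_induction with
    | base => exact hx
    | succ k hk ih => exact hmono1 k x ih
  have hexh : ∀ x, ∃ j, ‖(S j).H.f x‖ < (S j).R := by
    intro x
    obtain ⟨j, hj⟩ := exists_nat_ge ‖x‖
    refine ⟨j + 1, ?_⟩
    rw [(hrel j).hH x]
    exact (hrel j).exh x (by linarith)
  refine ⟨⟨fun j => (S j).H, fun j => GG j (S j), fun j => (S j).R, fun j => (S j).φ,
    fun j => (S j).hR, fun j x => (hrel j).hH x, fun j x hx => (hrel j).hG x hx,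
    fun j x hx => (hrel j).anG x hx, fun j => (S j).sp,
    fun j x hx a b => (hrel j).compat x hx a b, fun j x hx v => (hrel j).shell x hx v,
    hexh, ?_⟩⟩
  intro P Q hPQ δ hδ
  have hD : 0 < dist P Q := dist_pos.mpr hPQ
  set ε : ℝ := min (δ / 2) (dist P Q / 4) with hε
  have hε0 : 0 < ε := lt_min (by positivity) (by positivity)
  have hε1 : ε ≤ δ / 2 := min_le_left _ _
  have hε2 : ε ≤ dist P Q / 4 := min_le_right _ _
  obtain ⟨a, ha⟩ : ∃ a, dist P (d a) < ε := hd.exists_dist_lt P hε0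
  obtain ⟨b, hb⟩ : ∃ b, dist Q (d b) < ε := hd.exists_dist_lt Q hε0
  have hne : d a ≠ d b := by
    intro h
    have h1 : dist P Q ≤ dist P (d a) + dist (d a) Q := dist_triangle _ _ _
    have h2 : dist (d a) Q = dist Q (d b) := by rw [h, dist_comm]
    rw [h2] at h1
    linarith
  obtain ⟨ja, hja⟩ := hexh (d a)
  obtain ⟨jb, hjb⟩ := hexh (d b)
  obtain ⟨k, hk⟩ := exists_nat_gt (2 / δ)
  obtain ⟨j, hj, hja', hjb'⟩ := hpab a b (max (max ja jb) k)
  have h1 : ja ≤ j := le_trans (le_trans (le_max_left _ _) (le_max_left _ _)) hj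
  have h2 : jb ≤ j := le_trans (le_trans (le_max_right _ _) (le_max_left _ _)) hj
  have h3 : k ≤ j := le_trans (le_max_right _ _) hj
  have hsmall : 1 / ((j : ℝ) + 1) < δ / 2 := by
    have h4 : (k : ℝ) ≤ (j : ℝ) := by exact_mod_cast h3
    have h5 : 2 / δ < (j : ℝ) + 1 := by linarith
    rw [div_lt_iff₀ hδ] at h5
    rw [div_lt_div_iff₀ (by positivity) (by norm_num)]
    linarith
  refine ⟨j + 1, fun h hh => ?_⟩
  have hkey := (hrel j).key
  rw [hja', hjb'] at hkey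
  obtain ⟨P', hP', Q', hQ', hle⟩ := hkey hne (hmono _ _ _ h1 hja) (hmono _ _ _ h2 hjb) h hh
  refine ⟨P', ?_, Q', ?_, ?_⟩
  · rw [mem_ball] at hP' ⊢
    calc dist P' P ≤ dist P' (d a) + dist (d a) P := dist_triangle _ _ _
      _ < δ / 2 + δ / 2 := by
          rw [dist_comm (d a) P]
          linarith
      _ = δ := by ring
  · rw [mem_ball] at hQ' ⊢
    calc dist Q' Q ≤ dist Q' (d b) + dist (d b) Q := dist_triangle _ _ _
      _ < δ / 2 + δ / 2 := by
          rw [dist_comm (d b) Q]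
          linarith
      _ = δ := by ring
  · rw [(hrel j).hH, (hrel j).hH]
    exact hle

end Pool.Agent.Helper536.LK.LD5

namespace Pool.Agent.Helper536.LK
alias tower_exists := LD5.tower_exists
end Pool.Agent.Helper536.LK
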