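import Pool.Agent.Helper536.LK.LA1
import Pool.Agent.Helper536.LK.LA2
import Pool.Agent.Helper536.LK.LA3
import Pool.Agent.Helper536.LK.LA4
import Pool.Agent.Helper536.LK.LA5
import Pool.Agent.Helper536.LK.LA6
import Pool.Agent.Helper536.LK.LB1
import Pool.Agent.Helper536.LK.LB2
import Pool.Agent.Helper536.LK.LB3
import Pool.Agent.Helper536.LK.LB4
import Pool.Agent.Helper536.LK.LB5
import Pool.Agent.Helper536.LK.LB6
import Pool.Agent.Helper536.LK.LC1
import Pool.Agent.Helper536.LK.LC2
import Pool.Agent.Helper536.LK.LC3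
import Pool.Agent.Helper536.LK.LC4
import Pool.Agent.Helper536.LK.LC5
import Pool.Agent.Helper536.LK.LC6
import Pool.Agent.Helper536.LK.LC7
import Pool.Agent.Helper536.LK.LC8
import Pool.Agent.Helper536.LK.LC9
import Pool.Agent.Helper536.LK.LC10
import Pool.Agent.Helper536.LK.LC11
import Pool.Agent.Helper536.LK.LC12
import Pool.Agent.Helper536.LK.LD1
import Pool.Agent.Helper536.LK.LD2
import Pool.Agent.Helper536.LK.LD3
import Pool.Agent.Helper536.LK.LD4
import Pool.Agent.Helper536.LK.LD5
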