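import Mathlib

open scoped ContDiff Topology
open Set

noncomputable section

namespace Pool.Agent.Helper536.LK

/-- the Hessian of a real function -/
def hess {E : Type*} [NormedAddCommGroup E] [NormedSpace ℝ E] (φ : E → ℝ) (x v w : E) : ℝ :=
  fderiv ℝ (fun y => fderiv ℝ φ y) x v w

/-- the Levi metric `D²φ(v,w) + D²φ(iv,iw)` of a real function on a complex vector space -/
def lev {E : Type*} [NormedAddCommGroup E] [NormedSpace ℂ E] (φ : E → ℝ) (x v w : E) : ℝ :=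
  hess φ x v w + hess φ x (Complex.I • v) (Complex.I • w)

/-- smooth strictly plurisubharmonic functions -/
structure Spsh {E : Type*} [NormedAddCommGroup E] [NormedSpace ℂ E] (φ : E → ℝ) : Prop where
  smooth : ContDiff ℝ ∞ φ
  pos : ∀ x v, v ≠ 0 → 0 < lev φ x v v

/-- global real diffeomorphisms of `E` -/
structure Dif (E : Type*) [NormedAddCommGroup E] [NormedSpace ℂ E] where
  f : E → E
  g : E → E
  left : ∀ x, g (f x) = x
  right : ∀ x, f (g x) = x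
  sf : ContDiff ℝ ∞ f
  sg : ContDiff ℝ ∞ g

/-- orthogonal splitting `E = F ⊕ ℂ e` -/
structure Dec (E F : Type*) [NormedAddCommGroup E] [InnerProductSpace ℂ E]
    [NormedAddCommGroup F] [InnerProductSpace ℂ F] where
  X : E →L[ℂ] F
  Z : E →L[ℂ] ℂ
  i : F →L[ℂ] E
  e : E
  hX : ∀ (x : F) (z : ℂ), X (i x + z • e) = x
  hZ : ∀ (x : F) (z : ℂ), Z (i x + z • e) = z
  dec : ∀ v : E, i (X v) + Z v • e = v
  hn : ∀ v : E, ‖v‖ ^ 2 = ‖X v‖ ^ 2 + ‖Z v‖ ^ 2

section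
variable {E F : Type*} [NormedAddCommGroup E] [InnerProductSpace ℂ E]
    [NormedAddCommGroup F] [InnerProductSpace ℂ F]

/-- the complement of the hyperplane `Z = 0` -/
def Dec.Om (D : Dec E F) : Set E := {v | D.Z v ≠ 0}

/-- admissible automorphisms of `Om = {Z ≠ 0}` -/
structure Adm (D : Dec E F) where
  f : E → E
  g : E → E
  maps_f : ∀ v ∈ D.Om, f v ∈ D.Om
  maps_g : ∀ v ∈ D.Om, g v ∈ D.Om
  left : ∀ v ∈ D.Om, g (f v) = v
  right : ∀ v ∈ D.Om, f (g v) = v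
  an_f : AnalyticOnNhd ℂ f D.Om
  an_g : AnalyticOnNhd ℂ g D.Om
  ext_f : ∀ K : Set E, IsCompact K → K ⊆ D.Om → ∃ (d : Dif E) (U : Set E), IsOpen U ∧ K ⊆ U ∧
    U ⊆ D.Om ∧ EqOn d.f f U
  ext_g : ∀ K : Set E, IsCompact K → K ⊆ D.Om → ∃ (d : Dif E) (U : Set E), IsOpen U ∧ K ⊆ U ∧
    U ⊆ D.Om ∧ EqOn d.f g U

end

end Pool.Agent.Helper536.LK
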