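import Mathlib

open Bundle Set Metric MeasureTheory Manifold Filter Topology
open scoped ENNReal ContDiff Manifold NNReal

noncomputable section

namespace Pool.Agent.Helper536.LK

set_option linter.unusedSectionVars false
set_option linter.unusedVariables false

/-- multiplication by `i` on the real tangent spaces of a complex manifold -/
def Jmap {E : Type} [NormedAddCommGroup E] [InnerProductSpace ℂ E] {M : Type} [TopologicalSpace M]
    [ChartedSpace E M] (x : M) (v : TangentSpace 𝓘(ℝ, E) x) : TangentSpace 𝓘(ℝ, E) x :=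
  let u : E := v
  (Complex.I • u : E)

/-- the two-form `ω(v,w) = ⟨iv,w⟩`, pulled back by the inverse of the chart at `x₀` -/
def omegaChart {E : Type} [NormedAddCommGroup E] [InnerProductSpace ℂ E] {M : Type}
    [TopologicalSpace M] [ChartedSpace E M]
    [RiemannianBundle (fun x : M => TangentSpace 𝓘(ℝ, E) x)] (x₀ : M) (y v w : E) : ℝ :=
  inner ℝ (Jmap ((chartAt E x₀).symm y)
      (mfderiv 𝓘(ℝ, E) 𝓘(ℝ, E) (chartAt E x₀).symm y (v : TangentSpace 𝓘(ℝ, E) y)))
    (mfderiv 𝓘(ℝ, E) 𝓘(ℝ, E) (chartAt E x₀).symm y (w : TangentSpace 𝓘(ℝ, E) y))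

/-- Kaehler metrics: `i` is an isometry of the tangent spaces and the two-form
`ω(v,w) = ⟨iv,w⟩` is smooth and closed (in the chart at every point,
`∂_u ω(v,w) + ∂_v ω(w,u) + ∂_w ω(u,v) = 0` for constant fields `u`, `v`, `w`) -/
structure IsKaehler (E M : Type) [NormedAddCommGroup E] [InnerProductSpace ℂ E]
    [TopologicalSpace M] [ChartedSpace E M]
    [RiemannianBundle (fun x : M => TangentSpace 𝓘(ℝ, E) x)] : Prop where
  hermitian : ∀ (x : M) (v w : TangentSpace 𝓘(ℝ, E) x), inner ℝ (Jmap x v) (Jmap x w) = inner ℝ v w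
  smooth : ∀ (x₀ : M) (v w : E),
    ContDiffOn ℝ ∞ (fun y => omegaChart x₀ y v w) (chartAt E x₀).target
  closed : ∀ (x₀ : M), ∀ y ∈ (chartAt E x₀).target, ∀ u v w : E,
    fderiv ℝ (fun y' => omegaChart x₀ y' v w) y u + fderiv ℝ (fun y' => omegaChart x₀ y' w u) y v +
      fderiv ℝ (fun y' => omegaChart x₀ y' u v) y w = 0

end Pool.Agent.Helper536.LK
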