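import Pool.Agent.Helper536.LK.MDefs

noncomputable section

section part1

open scoped ContDiff Topology

open Set

namespace Pool.Agent.Helper536.LK.M1

section

variable {E F : Type*} [NormedAddCommGroup E] [InnerProductSpace ℂ E]
    [NormedAddCommGroup F] [InnerProductSpace ℂ F]

end

end Pool.Agent.Helper536.LK.M1

end part1

section part2

open scoped ContDiff Topology

open Set Metric

namespace Pool.Agent.Helper536.LK.M1

end Pool.Agent.Helper536.LK.M1

end part2

section part3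

open Bundle Bornology Set MeasureTheory Manifold Filter Topology

open scoped ENNReal ContDiff Manifold NNReal

namespace Pool.Agent.Helper536.LK.M1

set_option maxSynthPendingDepth 3

set_option linter.unusedSectionVars false

set_option linter.unusedVariables false

namespace RData

variable {E : Type} [NormedAddCommGroup E] [NormedSpace ℝ E] {M : Type}
    [TopologicalSpace M] [ChartedSpace E M] (d : RData E M)

variable [IsManifold 𝓘(ℝ, E) ∞ M]

variable [FiniteDimensional ℝ E]

end RData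

end Pool.Agent.Helper536.LK.M1

end part3

section part4

open Bundle Set Metric MeasureTheory Manifold Filter Topology

open scoped ENNReal ContDiff Manifold NNReal

namespace Pool.Agent.Helper536.LK.M1

set_option linter.unusedSectionVars false

set_option linter.unusedVariables false





section

variable {E : Type} [NormedAddCommGroup E] [InnerProductSpace ℂ E]

end

section gen

variable {E : Type*} [NormedAddCommGroup E] [NormedSpace ℝ E]

theorem two_le_infty : (2 : WithTop ℕ∞) ≤ ((⊤ : ℕ∞) : WithTop ℕ∞) := WithTop.coe_le_coe.2 (le_top : (2:ℕ∞) ≤ ⊤)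

theorem g_apply {φ : E → ℝ} (hφ : ContDiff ℝ ∞ φ) (y u a b : E) :
    fderiv ℝ (fun y' => fderiv ℝ (fderiv ℝ φ) y' a b) y u =
      fderiv ℝ (fderiv ℝ (fderiv ℝ φ)) y u a b := by
  have h1 : ContDiff ℝ ∞ (fderiv ℝ φ) := hφ.fderiv_right (by simp)
  have h2 : ContDiff ℝ ∞ (fderiv ℝ (fderiv ℝ φ)) := h1.fderiv_right (by simp)
  have h3 : HasFDerivAt (fderiv ℝ (fderiv ℝ φ)) (fderiv ℝ (fderiv ℝ (fderiv ℝ φ)) y) y :=
    (h2.differentiable (by simp) y).hasFDerivAt
  have h4 := (h3.clm_apply (hasFDerivAt_const a y)).clm_apply (hasFDerivAt_const b y)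
  rw [h4.fderiv]
  simp

theorem g_diff {φ : E → ℝ} (hφ : ContDiff ℝ ∞ φ) (y a b : E) :
    DifferentiableAt ℝ (fun y' => fderiv ℝ (fderiv ℝ φ) y' a b) y := by
  have h1 : ContDiff ℝ ∞ (fderiv ℝ φ) := hφ.fderiv_right (by simp)
  have h2 : ContDiff ℝ ∞ (fderiv ℝ (fderiv ℝ φ)) := h1.fderiv_right (by simp)
  have h3 : HasFDerivAt (fderiv ℝ (fderiv ℝ φ)) (fderiv ℝ (fderiv ℝ (fderiv ℝ φ)) y) y :=
    (h2.differentiable (by simp) y).hasFDerivAt
  have h4 := (h3.clm_apply (hasFDerivAt_const a y)).clm_apply (hasFDerivAt_const b y)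
  exact h4.differentiableAt

theorem g_symm {φ : E → ℝ} (hφ : ContDiff ℝ ∞ φ) (y a b : E) :
    fderiv ℝ (fderiv ℝ φ) y a b = fderiv ℝ (fderiv ℝ φ) y b a := by
  have h := (hφ.contDiffAt (x := y)).isSymmSndFDerivAt (by
    rw [minSmoothness_of_isRCLikeNormedField]; exact two_le_infty)
  exact h a b

theorem T_symm1 {φ : E → ℝ} (hφ : ContDiff ℝ ∞ φ) (y u a b : E) :
    fderiv ℝ (fderiv ℝ (fderiv ℝ φ)) y u a b = fderiv ℝ (fderiv ℝ (fderiv ℝ φ)) y a u b := by
  have h1 : ContDiff ℝ ∞ (fderiv ℝ φ) := hφ.fderiv_right (by simp)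
  have h := (h1.contDiffAt (x := y)).isSymmSndFDerivAt (by
    rw [minSmoothness_of_isRCLikeNormedField]; exact two_le_infty)
  have h2 := h u a
  rw [h2]

theorem T_symm2 {φ : E → ℝ} (hφ : ContDiff ℝ ∞ φ) (y u a b : E) :
    fderiv ℝ (fderiv ℝ (fderiv ℝ φ)) y u a b = fderiv ℝ (fderiv ℝ (fderiv ℝ φ)) y u b a := by
  rw [← g_apply hφ, ← g_apply hφ]
  have : (fun y' => fderiv ℝ (fderiv ℝ φ) y' a b) = fun y' => fderiv ℝ (fderiv ℝ φ) y' b a := by
    funext y'
    exact g_symm hφ y' a b
  rw [this]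

end gen

section

variable {E : Type} [NormedAddCommGroup E] [InnerProductSpace ℂ E]

theorem hess_apply3 {φ : E → ℝ} (hφ : ContDiff ℝ ∞ φ) (y u a b : E) :
    fderiv ℝ (fun y' => hess φ y' a b) y u = fderiv ℝ (fderiv ℝ (fderiv ℝ φ)) y u a b :=
  g_apply hφ y u a b

theorem hess_diff3 {φ : E → ℝ} (hφ : ContDiff ℝ ∞ φ) (y a b : E) :
    DifferentiableAt ℝ (fun y' => hess φ y' a b) y :=
  g_diff hφ y a b

theorem II_smul (v : E) : Complex.I • Complex.I • v = -v := by
  rw [smul_smul, Complex.I_mul_I, neg_smul, one_smul]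

theorem hess_neg_left (φ : E → ℝ) (y v w : E) : hess φ y (-v) w = -hess φ y v w := by
  unfold hess
  rw [map_neg]
  rfl

theorem hess_neg_right (φ : E → ℝ) (y v w : E) : hess φ y v (-w) = -hess φ y v w := by
  unfold hess
  rw [map_neg]

theorem lev_I_left (φ : E → ℝ) (y v w : E) :
    lev φ y (Complex.I • v) w = hess φ y (Complex.I • v) w - hess φ y v (Complex.I • w) := by
  unfold lev
  rw [II_smul, hess_neg_left]
  ring

theorem lev_fderiv {φ : E → ℝ} (hφ : ContDiff ℝ ∞ φ) (y u v w : E) :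
    fderiv ℝ (fun y' => lev φ y' (Complex.I • v) w) y u =
      fderiv ℝ (fderiv ℝ (fderiv ℝ φ)) y u (Complex.I • v) w -
      fderiv ℝ (fderiv ℝ (fderiv ℝ φ)) y u v (Complex.I • w) := by
  have e : (fun y' => lev φ y' (Complex.I • v) w) =
      fun y' => hess φ y' (Complex.I • v) w - hess φ y' v (Complex.I • w) := by
    funext y'
    exact lev_I_left φ y' v w
  rw [e, ← hess_apply3 hφ, ← hess_apply3 hφ]
  have h := fderiv_fun_sub (hess_diff3 hφ y (Complex.I • v) w) (hess_diff3 hφ y v (Complex.I • w))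
  rw [h]
  rfl

theorem lev_closed {φ : E → ℝ} (hφ : ContDiff ℝ ∞ φ) (y u v w : E) :
    fderiv ℝ (fun y' => lev φ y' (Complex.I • v) w) y u +
      fderiv ℝ (fun y' => lev φ y' (Complex.I • w) u) y v +
      fderiv ℝ (fun y' => lev φ y' (Complex.I • u) v) y w = 0 := by
  rw [lev_fderiv hφ, lev_fderiv hφ, lev_fderiv hφ]
  rw [T_symm2 hφ y u (Complex.I • v) w, T_symm1 hφ y u w (Complex.I • v),
    T_symm1 hφ y u v (Complex.I • w), T_symm2 hφ y v u (Complex.I • w),
    T_symm1 hφ y v w (Complex.I • u), T_symm2 hφ y w v (Complex.I • u)]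
  ring

theorem lev_I (φ : E → ℝ) (y v w : E) :
    lev φ y (Complex.I • v) (Complex.I • w) = lev φ y v w := by
  unfold lev
  rw [II_smul, II_smul, hess_neg_left, hess_neg_right, neg_neg, add_comm]

end

end Pool.Agent.Helper536.LK.M1

end part4

namespace Pool.Agent.Helper536.LK
alias lev_closed := M1.lev_closed
alias lev_I := M1.lev_I
end Pool.Agent.Helper536.LK
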