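import Pool.Agent.Helper536.LK.MDefs

noncomputable section

section part1

open scoped ContDiff Topology

open Set

namespace Pool.Agent.Helper536.LK.M10

section

variable {E F : Type*} [NormedAddCommGroup E] [InnerProductSpace ℂ E]
    [NormedAddCommGroup F] [InnerProductSpace ℂ F]

end

end Pool.Agent.Helper536.LK.M10

end part1

section part2

open scoped ContDiff Topology

open Set Metric

namespace Pool.Agent.Helper536.LK.M10

end Pool.Agent.Helper536.LK.M10

end part2

section part3

open Bundle Bornology Set MeasureTheory Manifold Filter Topology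

open scoped ENNReal ContDiff Manifold NNReal

namespace Pool.Agent.Helper536.LK.M10

set_option maxSynthPendingDepth 3

set_option linter.unusedSectionVars false

set_option linter.unusedVariables false

namespace RData

variable {E : Type} [NormedAddCommGroup E] [NormedSpace ℝ E] {M : Type}
    [TopologicalSpace M] [ChartedSpace E M] (d : RData E M)

variable [IsManifold 𝓘(ℝ, E) ∞ M]

variable [FiniteDimensional ℝ E]

end RData

end Pool.Agent.Helper536.LK.M10

end part3

section part4

open Bundle Set Metric MeasureTheory Manifold Filter Topology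

open scoped ENNReal ContDiff Manifold NNReal

namespace Pool.Agent.Helper536.LK.M10

set_option linter.unusedSectionVars false

set_option linter.unusedVariables false





section

variable {E : Type} [NormedAddCommGroup E] [InnerProductSpace ℂ E]

variable [FiniteDimensional ℂ E] {M : Type} [TopologicalSpace M] [ChartedSpace E M]

variable [IsManifold 𝓘(ℝ, E) ∞ M]

end



variable {E : Type} [NormedAddCommGroup E] [InnerProductSpace ℂ E] (T : Tower E)

theorem levB_apply (φ : E → ℝ) (y v w : E) : levB φ y v w = lev φ y v w := by
  simp only [levB, lev, hess, ContinuousLinearMap.add_apply,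
    ContinuousLinearMap.bilinearComp_apply]
  rfl

theorem levB_smooth [FiniteDimensional ℂ E] (φ : E → ℝ) (hφ : ContDiff ℝ ∞ φ) :
    ContDiff ℝ ∞ (levB φ) := by
  have h1 : ContDiff ℝ ∞ (fun z => fderiv ℝ φ z) := hφ.fderiv_right (by simp)
  have h2 : ContDiff ℝ ∞ (fun y => fderiv ℝ (fun z => fderiv ℝ φ z) y) :=
    h1.fderiv_right (by simp)
  rw [contDiff_clm_apply_iff]
  intro v
  rw [contDiff_clm_apply_iff]
  intro w
  have h3 : (fun y => levB φ y v w) = fun y =>
      fderiv ℝ (fun z => fderiv ℝ φ z) y v w +
        fderiv ℝ (fun z => fderiv ℝ φ z) y (Complex.I • v) (Complex.I • w) := by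
    funext y
    exact levB_apply φ y v w
  rw [h3]
  exact ((h2.clm_apply contDiff_const).clm_apply contDiff_const).add
    ((h2.clm_apply contDiff_const).clm_apply contDiff_const)

theorem lev_symm (φ : E → ℝ) (hφ : ContDiff ℝ ∞ φ) (y v w : E) : lev φ y v w = lev φ y w v := by
  have h : IsSymmSndFDerivAt ℝ φ y := by
    refine hφ.contDiffAt.isSymmSndFDerivAt ?_
    rw [minSmoothness_of_isRCLikeNormedField]
    exact WithTop.coe_le_coe.2 le_top
  unfold lev hess
  rw [h v w, h (Complex.I • v) (Complex.I • w)]

end Pool.Agent.Helper536.LK.M10

end part4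

namespace Pool.Agent.Helper536.LK
alias levB_apply := M10.levB_apply
alias levB_smooth := M10.levB_smooth
alias lev_symm := M10.lev_symm
end Pool.Agent.Helper536.LK
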