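import Pool.Agent.Helper536.LK.MDefs

noncomputable section

section part1

open scoped ContDiff Topology

open Set

namespace Pool.Agent.Helper536.LK.M6

section

variable {E F : Type*} [NormedAddCommGroup E] [InnerProductSpace ℂ E]
    [NormedAddCommGroup F] [InnerProductSpace ℂ F]

end

end Pool.Agent.Helper536.LK.M6

end part1

section part2

open scoped ContDiff Topology

open Set Metric

namespace Pool.Agent.Helper536.LK.M6

end Pool.Agent.Helper536.LK.M6

end part2

section part3

open Bundle Bornology Set MeasureTheory Manifold Filter Topology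

open scoped ENNReal ContDiff Manifold NNReal

namespace Pool.Agent.Helper536.LK.M6

set_option maxSynthPendingDepth 3

set_option linter.unusedSectionVars false

set_option linter.unusedVariables false

namespace RData

variable {E : Type} [NormedAddCommGroup E] [NormedSpace ℝ E] {M : Type}
    [TopologicalSpace M] [ChartedSpace E M] (d : RData E M)

variable [IsManifold 𝓘(ℝ, E) ∞ M]

variable [FiniteDimensional ℝ E]

end RData

end Pool.Agent.Helper536.LK.M6

end part3

section part4

open Bundle Set Metric MeasureTheory Manifold Filter Topology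

open scoped ENNReal ContDiff Manifold NNReal

namespace Pool.Agent.Helper536.LK.M6

set_option linter.unusedSectionVars false

set_option linter.unusedVariables false





section

variable {E : Type} [NormedAddCommGroup E] [InnerProductSpace ℂ E]

variable [FiniteDimensional ℂ E] {M : Type} [TopologicalSpace M] [ChartedSpace E M]

variable [IsManifold 𝓘(ℝ, E) ∞ M]

end



variable {E : Type} [NormedAddCommGroup E] [InnerProductSpace ℂ E] (T : Tower E)

theorem valid_mono (j k : ℕ) (hjk : j ≤ k) (x : E) (hj : ‖(T.H j).f x‖ < T.R j) :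
    ‖(T.H k).f x‖ < T.R k := by
  induction k, hjk using Nat.le_induction with
  | base => exact hj
  | succ k _ ih =>
    rw [T.hH k x]
    have := T.hG k _ ih.le
    linarith

theorem tr836_le (j k : ℕ) (hjk : j ≤ k) : ∀ y : E, ‖y‖ < T.R j →
    ‖(T.H k).f ((T.H j).g y)‖ < T.R k ∧
      AnalyticAt ℂ (fun y => (T.H k).f ((T.H j).g y)) y := by
  induction k, hjk using Nat.le_induction with
  | base =>
    intro y hy
    have e : (fun y => (T.H j).f ((T.H j).g y)) = fun y => y := by
      funext y
      exact (T.H j).right y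
    constructor
    · rw [(T.H j).right]; exact hy
    · rw [e]; exact analyticAt_id
  | succ k _ ih =>
    intro y hy
    obtain ⟨h1, h2⟩ := ih y hy
    have e : (fun y => (T.H (k + 1)).f ((T.H j).g y)) =
        fun y => (T.G k).f ((T.H k).f ((T.H j).g y)) := by
      funext y
      exact T.hH k _
    constructor
    · rw [T.hH k]
      have := T.hG k _ h1.le
      linarith
    · rw [e]
      exact AnalyticAt.comp' (T.anG k _ h1.le) h2

theorem trans_an [FiniteDimensional ℂ E] (j k : ℕ) (x : E) (hj : ‖(T.H j).f x‖ < T.R j)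
    (hk : ‖(T.H k).f x‖ < T.R k) :
    AnalyticAt ℂ (fun y => (T.H k).f ((T.H j).g y)) ((T.H j).f x) := by
  rcases le_total j k with hjk | hkj
  · exact (tr836_le T j k hjk _ hj).2
  haveI : CompleteSpace E := FiniteDimensional.complete ℂ E
  have hF : AnalyticAt ℂ (fun z => (T.H j).f ((T.H k).g z)) ((T.H k).f x) :=
    (tr836_le T k j hkj _ hk).2
  have hl : ∀ z, (T.H k).f ((T.H j).g ((T.H j).f ((T.H k).g z))) = z := by
    intro z
    rw [(T.H j).left, (T.H k).right]
  have hr : ∀ y, (T.H j).f ((T.H k).g ((T.H k).f ((T.H j).g y))) = y := by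
    intro y
    rw [(T.H k).left, (T.H j).right]
  have cF : ContDiff ℝ ∞ (fun z => (T.H j).f ((T.H k).g z)) := (T.H j).sf.comp (T.H k).sg
  have cFi : ContDiff ℝ ∞ (fun y => (T.H k).f ((T.H j).g y)) := (T.H k).sf.comp (T.H j).sg
  let Φ : E ≃ₜ E :=
    { toFun := fun z => (T.H j).f ((T.H k).g z)
      invFun := fun y => (T.H k).f ((T.H j).g y)
      left_inv := hl
      right_inv := hr
      continuous_toFun := cF.continuous
      continuous_invFun := cFi.continuous }
  set z0 : E := (T.H k).f x with hz0
  have ha : (T.H j).f ((T.H k).g z0) = (T.H j).f x := by rw [hz0, (T.H k).left]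
  -- real derivatives
  have hFC := hF.differentiableAt.hasFDerivAt
  have hFR : HasFDerivAt (fun z => (T.H j).f ((T.H k).g z))
      ((fderiv ℂ (fun z => (T.H j).f ((T.H k).g z)) z0).restrictScalars ℝ) z0 :=
    hFC.restrictScalars ℝ
  have hGR : HasFDerivAt (fun y => (T.H k).f ((T.H j).g y))
      (fderiv ℝ (fun y => (T.H k).f ((T.H j).g y)) ((T.H j).f ((T.H k).g z0)))
      ((T.H j).f ((T.H k).g z0)) :=
    ((cFi.differentiable (by simp)) _).hasFDerivAt
  set A : E →L[ℂ] E := fderiv ℂ (fun z => (T.H j).f ((T.H k).g z)) z0 with hA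
  set B : E →L[ℝ] E := fderiv ℝ (fun y => (T.H k).f ((T.H j).g y)) ((T.H j).f ((T.H k).g z0)) with hB
  have h1 : HasFDerivAt (fun z : E => z) (B.comp (A.restrictScalars ℝ)) z0 := by
    have := hGR.comp z0 hFR
    have e : ((fun y => (T.H k).f ((T.H j).g y)) ∘ fun z => (T.H j).f ((T.H k).g z))
        = fun z : E => z := by
      funext z; exact hl z
    rwa [e] at this
  have h2 : B.comp (A.restrictScalars ℝ) = ContinuousLinearMap.id ℝ E :=
    h1.unique (hasFDerivAt_id z0)
  have hinj : Function.Injective A := by
    intro u v huv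
    have h3 : ∀ w, B (A w) = w := fun w => congrArg (fun L : E →L[ℝ] E => L w) h2
    rw [← h3 u, ← h3 v, huv]
  have hinj' : Function.Injective (A : E →ₗ[ℂ] E) := hinj
  have hsurj' : Function.Surjective (A : E →ₗ[ℂ] E) :=
    LinearMap.injective_iff_surjective.1 hinj'
  have hker : A.ker = ⊥ := LinearMap.ker_eq_bot.2 hinj'
  have hran : A.range = ⊤ := LinearMap.range_eq_top.2 hsurj'
  have key := OpenPartialHomeomorph.analyticAt_symm' Φ.toOpenPartialHomeomorph (a := z0)
    (i := ContinuousLinearEquiv.ofBijective A hker hran) (by simp) hF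
    (by rw [ContinuousLinearEquiv.coe_ofBijective]; rfl)
  have key2 : AnalyticAt ℂ (fun y => (T.H k).f ((T.H j).g y)) ((T.H j).f ((T.H k).g z0)) := key
  rwa [ha] at key2

end Pool.Agent.Helper536.LK.M6

end part4

namespace Pool.Agent.Helper536.LK
alias valid_mono := M6.valid_mono
alias trans_an := M6.trans_an
end Pool.Agent.Helper536.LK
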