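import Pool.Agent.Helper536.LK.MDefs
import Pool.Agent.Helper536.LK.M6

noncomputable section

section part1

open scoped ContDiff Topology

open Set

namespace Pool.Agent.Helper536.LK.M7

section

variable {E F : Type*} [NormedAddCommGroup E] [InnerProductSpace ℂ E]
    [NormedAddCommGroup F] [InnerProductSpace ℂ F]

end

end Pool.Agent.Helper536.LK.M7

end part1

section part2

open scoped ContDiff Topology

open Set Metric

namespace Pool.Agent.Helper536.LK.M7

end Pool.Agent.Helper536.LK.M7

end part2

section part3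

open Bundle Bornology Set MeasureTheory Manifold Filter Topology

open scoped ENNReal ContDiff Manifold NNReal

namespace Pool.Agent.Helper536.LK.M7

set_option maxSynthPendingDepth 3

set_option linter.unusedSectionVars false

set_option linter.unusedVariables false

namespace RData

variable {E : Type} [NormedAddCommGroup E] [NormedSpace ℝ E] {M : Type}
    [TopologicalSpace M] [ChartedSpace E M] (d : RData E M)

variable [IsManifold 𝓘(ℝ, E) ∞ M]

variable [FiniteDimensional ℝ E]

end RData

end Pool.Agent.Helper536.LK.M7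

end part3

section part4

open Bundle Set Metric MeasureTheory Manifold Filter Topology

open scoped ENNReal ContDiff Manifold NNReal

namespace Pool.Agent.Helper536.LK.M7

set_option linter.unusedSectionVars false

set_option linter.unusedVariables false





section

variable {E : Type} [NormedAddCommGroup E] [InnerProductSpace ℂ E]

variable [FiniteDimensional ℂ E] {M : Type} [TopologicalSpace M] [ChartedSpace E M]

variable [IsManifold 𝓘(ℝ, E) ∞ M]

end



variable {E : Type} [NormedAddCommGroup E] [InnerProductSpace ℂ E] (T : Tower E)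

theorem lev_trans_step (j : ℕ) (x : E) (hj : ‖(T.H j).f x‖ < T.R j) (v w : E) :
    lev (T.φ (j + 1)) ((T.H (j + 1)).f x) (fderiv ℝ (T.H (j + 1)).f x v)
      (fderiv ℝ (T.H (j + 1)).f x w) =
    lev (T.φ j) ((T.H j).f x) (fderiv ℝ (T.H j).f x v) (fderiv ℝ (T.H j).f x w) := by
  have h1 : (T.H (j + 1)).f = (T.G j).f ∘ (T.H j).f := funext (T.hH j)
  have h2 : fderiv ℝ (T.H (j + 1)).f x =
      (fderiv ℝ (T.G j).f ((T.H j).f x)).comp (fderiv ℝ (T.H j).f x) := by
    rw [h1]
    exact fderiv_comp x (((T.G j).sf.differentiable (by simp)) _)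
      (((T.H j).sf.differentiable (by simp)) _)
  rw [h2, T.hH j x]
  exact T.compat j _ hj.le _ _

theorem lev_trans_le (j k : ℕ) (hjk : j ≤ k) (x : E) (hj : ‖(T.H j).f x‖ < T.R j) (v w : E) :
    lev (T.φ k) ((T.H k).f x) (fderiv ℝ (T.H k).f x v) (fderiv ℝ (T.H k).f x w) =
    lev (T.φ j) ((T.H j).f x) (fderiv ℝ (T.H j).f x v) (fderiv ℝ (T.H j).f x w) := by
  induction k, hjk using Nat.le_induction with
  | base => rfl
  | succ k hk ih =>
    rw [lev_trans_step T k x (valid_mono T j k hk x hj) v w, ih]

theorem lev_trans (j k : ℕ) (x : E) (hj : ‖(T.H j).f x‖ < T.R j)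
    (hk : ‖(T.H k).f x‖ < T.R k) (v w : E) :
    lev (T.φ k) ((T.H k).f x) (fderiv ℝ (T.H k).f x v) (fderiv ℝ (T.H k).f x w) =
    lev (T.φ j) ((T.H j).f x) (fderiv ℝ (T.H j).f x v) (fderiv ℝ (T.H j).f x w) := by
  rcases le_total j k with h | h
  · exact lev_trans_le T j k h x hj v w
  · exact (lev_trans_le T k j h x hk v w).symm

end Pool.Agent.Helper536.LK.M7

end part4

namespace Pool.Agent.Helper536.LK
alias lev_trans := M7.lev_trans
end Pool.Agent.Helper536.LK
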