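import Pool.Agent.Helper536.LK.MDefs
import Pool.Agent.Helper536.LK.M6
import Pool.Agent.Helper536.LK.M7

noncomputable section

section part1

open scoped ContDiff Topology

open Set

namespace Pool.Agent.Helper536.LK.M8

section

variable {E F : Type*} [NormedAddCommGroup E] [InnerProductSpace ℂ E]
    [NormedAddCommGroup F] [InnerProductSpace ℂ F]

end

end Pool.Agent.Helper536.LK.M8

end part1

section part2

open scoped ContDiff Topology

open Set Metric

namespace Pool.Agent.Helper536.LK.M8

end Pool.Agent.Helper536.LK.M8

end part2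

section part3

open Bundle Bornology Set MeasureTheory Manifold Filter Topology

open scoped ENNReal ContDiff Manifold NNReal

namespace Pool.Agent.Helper536.LK.M8

set_option maxSynthPendingDepth 3

set_option linter.unusedSectionVars false

set_option linter.unusedVariables false

namespace RData

variable {E : Type} [NormedAddCommGroup E] [NormedSpace ℝ E] {M : Type}
    [TopologicalSpace M] [ChartedSpace E M] (d : RData E M)

variable [IsManifold 𝓘(ℝ, E) ∞ M]

variable [FiniteDimensional ℝ E]

end RData

end Pool.Agent.Helper536.LK.M8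

end part3

section part4

open Bundle Set Metric MeasureTheory Manifold Filter Topology

open scoped ENNReal ContDiff Manifold NNReal

namespace Pool.Agent.Helper536.LK.M8

set_option linter.unusedSectionVars false

set_option linter.unusedVariables false





section

variable {E : Type} [NormedAddCommGroup E] [InnerProductSpace ℂ E]

variable [FiniteDimensional ℂ E] {M : Type} [TopologicalSpace M] [ChartedSpace E M]

variable [IsManifold 𝓘(ℝ, E) ∞ M]

end



variable {E : Type} [NormedAddCommGroup E] [InnerProductSpace ℂ E] (T : Tower E)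

theorem isManifold_omega [FiniteDimensional ℂ E] : IsManifold 𝓘(ℂ, E) ω (Mfd T) := by
  refine isManifold_of_contDiffOn 𝓘(ℂ, E) ω (Mfd T) ?_
  rintro e e' ⟨j, rfl⟩ ⟨k, rfl⟩
  have hset : 𝓘(ℂ, E).symm ⁻¹' (((chart T j).symm ≫ₕ chart T k).source) ∩ range 𝓘(ℂ, E) ⊆
      {y | ‖y‖ < T.R j ∧ ‖(T.H k).f ((T.H j).g y)‖ < T.R k} := by
    intro y hy
    have h1 : y ∈ ((chart T j).symm ≫ₕ chart T k).source := by
      simpa using hy.1
    rw [OpenPartialHomeomorph.trans_source] at h1
    have h2 : y ∈ ball (0 : E) (T.R j) := h1.1
    have h3 : ‖(T.H k).f ((T.H j).g y)‖ < T.R k := h1.2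
    exact ⟨mem_ball_zero_iff.1 h2, h3⟩
  intro y hy
  obtain ⟨h2, h3⟩ := hset hy
  have h4 : (T.H j).f ((T.H j).g y) = y := (T.H j).right y
  have h5 := trans_an T j k ((T.H j).g y) (by rw [h4]; exact h2) h3
  rw [h4] at h5
  exact h5.contDiffAt.contDiffWithinAt

end Pool.Agent.Helper536.LK.M8

end part4

namespace Pool.Agent.Helper536.LK
alias isManifold_omega := M8.isManifold_omega
end Pool.Agent.Helper536.LK
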