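import Pool.Agent.Helper536.LK.MDefs
import Pool.Agent.Helper536.LK.M6

noncomputable section

section part1

open scoped ContDiff Topology

open Set

namespace Pool.Agent.Helper536.LK.M9

section

variable {E F : Type*} [NormedAddCommGroup E] [InnerProductSpace ℂ E]
    [NormedAddCommGroup F] [InnerProductSpace ℂ F]

end

end Pool.Agent.Helper536.LK.M9

end part1

section part2

open scoped ContDiff Topology

open Set Metric

namespace Pool.Agent.Helper536.LK.M9

end Pool.Agent.Helper536.LK.M9

end part2

section part3

open Bundle Bornology Set MeasureTheory Manifold Filter Topology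

open scoped ENNReal ContDiff Manifold NNReal

namespace Pool.Agent.Helper536.LK.M9

set_option maxSynthPendingDepth 3

set_option linter.unusedSectionVars false

set_option linter.unusedVariables false

namespace RData

variable {E : Type} [NormedAddCommGroup E] [NormedSpace ℝ E] {M : Type}
    [TopologicalSpace M] [ChartedSpace E M] (d : RData E M)

variable [IsManifold 𝓘(ℝ, E) ∞ M]

variable [FiniteDimensional ℝ E]

end RData

end Pool.Agent.Helper536.LK.M9

end part3

section part4

open Bundle Set Metric MeasureTheory Manifold Filter Topology

open scoped ENNReal ContDiff Manifold NNReal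

namespace Pool.Agent.Helper536.LK.M9

set_option linter.unusedSectionVars false

set_option linter.unusedVariables false





section

variable {E : Type} [NormedAddCommGroup E] [InnerProductSpace ℂ E]

variable [FiniteDimensional ℂ E] {M : Type} [TopologicalSpace M] [ChartedSpace E M]

variable [IsManifold 𝓘(ℝ, E) ∞ M]

end



variable {E : Type} [NormedAddCommGroup E] [InnerProductSpace ℂ E] (T : Tower E)

theorem isManifold_infty : IsManifold 𝓘(ℝ, E) ∞ (Mfd T) := by 
  refine isManifold_of_contDiffOn 𝓘(ℝ, E) ∞ (Mfd T) ?_
  rintro _ _ ⟨j, rfl⟩ ⟨k, rfl⟩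
  have h : ContDiff ℝ ∞ (fun y : E => (T.H k).f ((T.H j).g y)) := (T.H k).sf.comp (T.H j).sg
  exact h.contDiffOn

end Pool.Agent.Helper536.LK.M9

end part4

namespace Pool.Agent.Helper536.LK
alias isManifold_infty := M9.isManifold_infty
end Pool.Agent.Helper536.LK
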