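import Pool.Agent.Helper536.LK.MDefs
import Pool.Agent.Helper536.LK.M6
import Pool.Agent.Helper536.LK.M7
import Pool.Agent.Helper536.LK.M8
import Pool.Agent.Helper536.LK.M9
import Pool.Agent.Helper536.LK.M10

noncomputable section

section part1

open scoped ContDiff Topology

open Set

namespace Pool.Agent.Helper536.LK.M11

section

variable {E F : Type*} [NormedAddCommGroup E] [InnerProductSpace ℂ E]
    [NormedAddCommGroup F] [InnerProductSpace ℂ F]

end

end Pool.Agent.Helper536.LK.M11

end part1

section part2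

open scoped ContDiff Topology

open Set Metric

namespace Pool.Agent.Helper536.LK.M11

end Pool.Agent.Helper536.LK.M11

end part2

section part3

open Bundle Bornology Set MeasureTheory Manifold Filter Topology

open scoped ENNReal ContDiff Manifold NNReal

namespace Pool.Agent.Helper536.LK.M11

set_option maxSynthPendingDepth 3

set_option linter.unusedSectionVars false

set_option linter.unusedVariables false

namespace RData

variable {E : Type} [NormedAddCommGroup E] [NormedSpace ℝ E] {M : Type}
    [TopologicalSpace M] [ChartedSpace E M] (d : RData E M)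

variable [IsManifold 𝓘(ℝ, E) ∞ M]

variable [FiniteDimensional ℝ E]

end RData

end Pool.Agent.Helper536.LK.M11

end part3

section part4

open Bundle Set Metric MeasureTheory Manifold Filter Topology

open scoped ENNReal ContDiff Manifold NNReal

namespace Pool.Agent.Helper536.LK.M11

set_option linter.unusedSectionVars false

set_option linter.unusedVariables false





section

variable {E : Type} [NormedAddCommGroup E] [InnerProductSpace ℂ E]

variable [FiniteDimensional ℂ E] {M : Type} [TopologicalSpace M] [ChartedSpace E M]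

variable [IsManifold 𝓘(ℝ, E) ∞ M]

end



variable {E : Type} [NormedAddCommGroup E] [InnerProductSpace ℂ E] (T : Tower E)

theorem BT_eq (j : ℕ) (x : E) (hj : ‖(T.H j).f x‖ < T.R j) (v w : E) : BT T x v w =
    lev (T.φ j) ((T.H j).f x) (fderiv ℝ (T.H j).f x v) (fderiv ℝ (T.H j).f x w) := by
  have h1 : BT T x v w = levB (T.φ (Ji T x)) ((T.H (Ji T x)).f x)
      (fderiv ℝ (T.H (Ji T x)).f x v) (fderiv ℝ (T.H (Ji T x)).f x w) := rfl
  rw [h1, levB_apply]
  exact lev_trans T j (Ji T x) x hj (Ji_spec T x) v w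

theorem BT_smooth [FiniteDimensional ℂ E] : ContDiff ℝ ∞ (BT T) := by
  haveI : FiniteDimensional ℝ E := FiniteDimensional.complexToReal E
  rw [contDiff_iff_contDiffAt]
  intro x₀
  have hf : ContDiff ℝ ∞ (T.H (Ji T x₀)).f := (T.H (Ji T x₀)).sf
  have hopen : IsOpen {x : E | ‖(T.H (Ji T x₀)).f x‖ < T.R (Ji T x₀)} :=
    isOpen_lt hf.continuous.norm continuous_const
  have h1 : ContDiff ℝ ∞ (fun x : E => levB (T.φ (Ji T x₀)) ((T.H (Ji T x₀)).f x)) :=
    (levB_smooth (T.φ (Ji T x₀)) (T.spsh (Ji T x₀)).smooth).comp hf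
  have h2 : ContDiff ℝ ∞ (fun x : E => fderiv ℝ (T.H (Ji T x₀)).f x) :=
    hf.fderiv_right (by simp)
  have h3 : ContDiff ℝ ∞ (fun x : E => (levB (T.φ (Ji T x₀)) ((T.H (Ji T x₀)).f x)).bilinearComp
      (fderiv ℝ (T.H (Ji T x₀)).f x) (fderiv ℝ (T.H (Ji T x₀)).f x)) := by
    rw [contDiff_clm_apply_iff]
    intro v
    rw [contDiff_clm_apply_iff]
    intro w
    simp only [ContinuousLinearMap.bilinearComp_apply]
    exact (h1.clm_apply (h2.clm_apply contDiff_const)).clm_apply (h2.clm_apply contDiff_const)
  refine h3.contDiffAt.congr_of_eventuallyEq ?_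
  filter_upwards [hopen.mem_nhds (Ji_spec T x₀)] with x hx
  ext v w
  rw [BT_eq T (Ji T x₀) x hx v w, ContinuousLinearMap.bilinearComp_apply, levB_apply]

theorem BT_symm (x v w : E) : BT T x v w = BT T x w v := by
  rw [BT_eq T (Ji T x) x (Ji_spec T x) v w, BT_eq T (Ji T x) x (Ji_spec T x) w v]
  exact lev_symm _ (T.spsh (Ji T x)).smooth _ _ _

theorem BT_pos (x v : E) (hv : v ≠ 0) : 0 < BT T x v v := by
  rw [BT_eq T (Ji T x) x (Ji_spec T x) v v]
  refine (T.spsh (Ji T x)).pos _ _ fun h0 => hv ?_
  have hdf : DifferentiableAt ℝ (T.H (Ji T x)).f x :=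
    ((T.H (Ji T x)).sf.differentiable (by simp)).differentiableAt
  have hdg : DifferentiableAt ℝ (T.H (Ji T x)).g ((T.H (Ji T x)).f x) :=
    ((T.H (Ji T x)).sg.differentiable (by simp)).differentiableAt
  have h1 := fderiv_comp x hdg hdf
  have h2 : (T.H (Ji T x)).g ∘ (T.H (Ji T x)).f = id := funext fun y => (T.H (Ji T x)).left y
  rw [h2, fderiv_id] at h1
  have h3 := congrArg (fun L => L v) h1
  simp only [ContinuousLinearMap.comp_apply] at h3
  rw [h0, map_zero] at h3
  simpa using h3

end Pool.Agent.Helper536.LK.M11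

end part4

namespace Pool.Agent.Helper536.LK
alias BT_eq := M11.BT_eq
alias BT_smooth := M11.BT_smooth
alias BT_symm := M11.BT_symm
alias BT_pos := M11.BT_pos
end Pool.Agent.Helper536.LK
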