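import Pool.Agent.Helper536.LK.MDefs
import Pool.Agent.Helper536.LK.M6
import Pool.Agent.Helper536.LK.M8
import Pool.Agent.Helper536.LK.M9

noncomputable section

section part1

open scoped ContDiff Topology

open Set

namespace Pool.Agent.Helper536.LK.M12

section

variable {E F : Type*} [NormedAddCommGroup E] [InnerProductSpace ℂ E]
    [NormedAddCommGroup F] [InnerProductSpace ℂ F]

end

end Pool.Agent.Helper536.LK.M12

end part1

section part2

open scoped ContDiff Topology

open Set Metric

namespace Pool.Agent.Helper536.LK.M12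

end Pool.Agent.Helper536.LK.M12

end part2

section part3

open Bundle Bornology Set MeasureTheory Manifold Filter Topology

open scoped ENNReal ContDiff Manifold NNReal

namespace Pool.Agent.Helper536.LK.M12

set_option maxSynthPendingDepth 3

set_option linter.unusedSectionVars false

set_option linter.unusedVariables false

namespace RData

variable {E : Type} [NormedAddCommGroup E] [NormedSpace ℝ E] {M : Type}
    [TopologicalSpace M] [ChartedSpace E M] (d : RData E M)

variable [IsManifold 𝓘(ℝ, E) ∞ M]

variable [FiniteDimensional ℝ E]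

end RData

end Pool.Agent.Helper536.LK.M12

end part3

section part4

open Bundle Set Metric MeasureTheory Manifold Filter Topology

open scoped ENNReal ContDiff Manifold NNReal

namespace Pool.Agent.Helper536.LK.M12

set_option linter.unusedSectionVars false

set_option linter.unusedVariables false





section

variable {E : Type} [NormedAddCommGroup E] [InnerProductSpace ℂ E]

variable [FiniteDimensional ℂ E] {M : Type} [TopologicalSpace M] [ChartedSpace E M]

variable [IsManifold 𝓘(ℝ, E) ∞ M]

end



variable {E : Type} [NormedAddCommGroup E] [InnerProductSpace ℂ E] (T : Tower E)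

theorem iT_smooth : ContMDiff 𝓘(ℝ, E) 𝓘(ℝ, E) ∞ (iT T) := by
  intro x
  haveI := isManifold_infty T
  have hc : ContMDiffAt 𝓘(ℝ, E) 𝓘(ℝ, E) ∞ (chartAt E x) x :=
    contMDiffAt_of_mem_maximalAtlas (IsManifold.chart_mem_maximalAtlas x) (mem_chart_source E x)
  have hg : ContMDiff 𝓘(ℝ, E) 𝓘(ℝ, E) ∞ (T.H (Ji T x)).g := (T.H (Ji T x)).sg.contMDiff
  have h := hg.contMDiffAt.comp x hc
  have he : (iT T : Mfd T → E) = (T.H (Ji T x)).g ∘ (chartAt E x) := by
    funext y
    exact ((T.H (Ji T x)).left y).symm
  rw [he]
  exact h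

theorem iT_symm_smooth : ContMDiff 𝓘(ℝ, E) 𝓘(ℝ, E) ∞ (iT T).symm := by
  intro y
  haveI := isManifold_infty T
  let x : Mfd T := (y : E)
  have hf : ContMDiff 𝓘(ℝ, E) 𝓘(ℝ, E) ∞ (T.H (Ji T x)).f := (T.H (Ji T x)).sf.contMDiff
  have hmem : (T.H (Ji T x)).f y ∈ (chartAt E x).target :=
    (chartAt E x).map_source (mem_chart_source E x)
  have hs : ContMDiffAt 𝓘(ℝ, E) 𝓘(ℝ, E) ∞ (chartAt E x).symm ((T.H (Ji T x)).f y) :=
    (contMDiffOn_chart_symm (I := 𝓘(ℝ, E)) (n := ∞) (x := x)).contMDiffAt
      ((chartAt E x).open_target.mem_nhds hmem)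
  have h := hs.comp y hf.contMDiffAt
  have he : ((iT T).symm : E → Mfd T) = (chartAt E x).symm ∘ (T.H (Ji T x)).f := by
    funext z
    exact ((T.H (Ji T x)).left z).symm
  rw [he]
  exact h

end Pool.Agent.Helper536.LK.M12

end part4

namespace Pool.Agent.Helper536.LK
alias iT_smooth := M12.iT_smooth
alias iT_symm_smooth := M12.iT_symm_smooth
end Pool.Agent.Helper536.LK
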