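import Pool.Agent.Helper536.LK.M11
import Pool.Agent.Helper536.LK.M12

open Bundle Set Metric MeasureTheory Manifold Filter Topology
open scoped ENNReal ContDiff Manifold NNReal

noncomputable section

namespace Pool.Agent.Helper536.LK

set_option linter.unusedSectionVars false
set_option linter.unusedVariables false

variable {E : Type} [NormedAddCommGroup E] [InnerProductSpace ℂ E] (T : Tower E)

/-- the metric data -/
def RT [FiniteDimensional ℂ E] : RData E (Mfd T) where
  i := iT T
  smi := iT_smooth T
  smis := iT_symm_smooth T
  B := BT T
  smB := BT_smooth T
  symm := BT_symm T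
  pos := BT_pos T

end Pool.Agent.Helper536.LK
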