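import Pool.Agent.Helper536.LK.MDefs
import Pool.Agent.Helper536.LK.RTdef

noncomputable section

section part1

open scoped ContDiff Topology

open Set

namespace Pool.Agent.Helper536.LK.M13

section

variable {E F : Type*} [NormedAddCommGroup E] [InnerProductSpace ℂ E]
    [NormedAddCommGroup F] [InnerProductSpace ℂ F]

end

end Pool.Agent.Helper536.LK.M13

end part1

section part2

open scoped ContDiff Topology

open Set Metric

namespace Pool.Agent.Helper536.LK.M13

end Pool.Agent.Helper536.LK.M13

end part2

section part3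

open Bundle Bornology Set MeasureTheory Manifold Filter Topology

open scoped ENNReal ContDiff Manifold NNReal

namespace Pool.Agent.Helper536.LK.M13

set_option maxSynthPendingDepth 3

set_option linter.unusedSectionVars false

set_option linter.unusedVariables false

namespace RData

variable {E : Type} [NormedAddCommGroup E] [NormedSpace ℝ E] {M : Type}
    [TopologicalSpace M] [ChartedSpace E M] (d : RData E M)

variable [IsManifold 𝓘(ℝ, E) ∞ M]

variable [FiniteDimensional ℝ E]

end RData

end Pool.Agent.Helper536.LK.M13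

end part3

section part4

open Bundle Set Metric MeasureTheory Manifold Filter Topology

open scoped ENNReal ContDiff Manifold NNReal

namespace Pool.Agent.Helper536.LK.M13

set_option linter.unusedSectionVars false

set_option linter.unusedVariables false





section

variable {E : Type} [NormedAddCommGroup E] [InnerProductSpace ℂ E]

variable [FiniteDimensional ℂ E] {M : Type} [TopologicalSpace M] [ChartedSpace E M]

variable [IsManifold 𝓘(ℝ, E) ∞ M]

end



variable {E : Type} [NormedAddCommGroup E] [InnerProductSpace ℂ E] (T : Tower E)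

theorem RT_loc [FiniteDimensional ℂ E] (x₀ : Mfd T) :
    ∀ y ∈ (chartAt E x₀).target, ∀ v w : E,
      (RT T).B ((RT T).i ((chartAt E x₀).symm y))
        (fderiv ℝ (fun z => (RT T).i ((chartAt E x₀).symm z)) y v)
        (fderiv ℝ (fun z => (RT T).i ((chartAt E x₀).symm z)) y w) =
        lev (T.φ (Ji T x₀)) y v w := by
  intro y hy v w
  have hy' : ‖y‖ < T.R (Ji T x₀) := by
    have h : y ∈ ball (0:E) (T.R (Ji T x₀)) := hy
    exact mem_ball_zero_iff.1 h
  show BT T ((T.H (Ji T x₀)).g y)
        (fderiv ℝ (fun z => (T.H (Ji T x₀)).g z) y v)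
        (fderiv ℝ (fun z => (T.H (Ji T x₀)).g z) y w) =
        lev (T.φ (Ji T x₀)) y v w
  have hr : (T.H (Ji T x₀)).f ((T.H (Ji T x₀)).g y) = y := (T.H (Ji T x₀)).right y
  rw [BT_eq T (Ji T x₀) _ (by rw [hr]; exact hy'), hr]
  have hd : ∀ u : E, fderiv ℝ (T.H (Ji T x₀)).f ((T.H (Ji T x₀)).g y)
      (fderiv ℝ (fun z => (T.H (Ji T x₀)).g z) y u) = u := by
    intro u
    have hf : DifferentiableAt ℝ (T.H (Ji T x₀)).f ((T.H (Ji T x₀)).g y) :=
      ((T.H (Ji T x₀)).sf.differentiable (by simp)) _
    have hg : DifferentiableAt ℝ (T.H (Ji T x₀)).g y :=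
      ((T.H (Ji T x₀)).sg.differentiable (by simp)) _
    have h1 := fderiv_comp y hf hg
    have h2 : ((T.H (Ji T x₀)).f ∘ (T.H (Ji T x₀)).g : E → E) = id := by
      funext z; exact (T.H (Ji T x₀)).right z
    rw [h2, fderiv_id] at h1
    have h3 := congrArg (fun A => A u) h1
    exact h3.symm
  rw [hd, hd]

end Pool.Agent.Helper536.LK.M13

end part4

namespace Pool.Agent.Helper536.LK
alias RT_loc := M13.RT_loc
end Pool.Agent.Helper536.LK
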