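import Pool.Agent.Helper536.LK.MDefs

noncomputable section

section part1

open scoped ContDiff Topology

open Set

namespace Pool.Agent.Helper536.LK.M5

section

variable {E F : Type*} [NormedAddCommGroup E] [InnerProductSpace ℂ E]
    [NormedAddCommGroup F] [InnerProductSpace ℂ F]

end

end Pool.Agent.Helper536.LK.M5

end part1

section part2

open scoped ContDiff Topology

open Set Metric

namespace Pool.Agent.Helper536.LK.M5

end Pool.Agent.Helper536.LK.M5

end part2

section part3

open Bundle Bornology Set MeasureTheory Manifold Filter Topology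

open scoped ENNReal ContDiff Manifold NNReal

namespace Pool.Agent.Helper536.LK.M5

set_option maxSynthPendingDepth 3

set_option linter.unusedSectionVars false

set_option linter.unusedVariables false

namespace RData

variable {E : Type} [NormedAddCommGroup E] [NormedSpace ℝ E] {M : Type}
    [TopologicalSpace M] [ChartedSpace E M] (d : RData E M)

variable [IsManifold 𝓘(ℝ, E) ∞ M]

variable [FiniteDimensional ℝ E]

end RData

end Pool.Agent.Helper536.LK.M5

end part3

section part4

open Bundle Set Metric MeasureTheory Manifold Filter Topology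

open scoped ENNReal ContDiff Manifold NNReal

namespace Pool.Agent.Helper536.LK.M5

set_option linter.unusedSectionVars false

set_option linter.unusedVariables false





section

variable {E : Type} [NormedAddCommGroup E] [InnerProductSpace ℂ E]

variable [FiniteDimensional ℂ E] {M : Type} [TopologicalSpace M] [ChartedSpace E M]

variable [IsManifold 𝓘(ℝ, E) ∞ M]

theorem sig_exists (R : ℝ) : ∃ σ : ℝ → ℝ, ContDiff ℝ 1 σ ∧ (∀ s ≤ R - 2, σ s = 0) ∧
    (∀ s, R ≤ s → 1 ≤ σ s) ∧ (∀ s, 0 ≤ deriv σ s ∧ deriv σ s ≤ 1) ∧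
    (∀ s, R ≤ s → deriv σ s = 0) := by
  let ρ : ℝ → ℝ := fun t => max 0 (min 1 (min (8 * (t - (R - 2))) (8 * (R - 1 / 8 - t))))
  have hρc : Continuous ρ := by
    show Continuous (fun t : ℝ => max 0 (min 1 (min (8 * (t - (R - 2))) (8 * (R - 1 / 8 - t)))))
    fun_prop
  have hρ0 : ∀ t, 0 ≤ ρ t := fun t => le_max_left _ _
  have hρ1 : ∀ t, ρ t ≤ 1 := fun t => max_le zero_le_one (min_le_left _ _)
  have hρl : ∀ t, t ≤ R - 2 → ρ t = 0 := by
    intro t ht
    refine max_eq_left ?_
    exact (min_le_right _ _).trans ((min_le_left _ _).trans (by linarith))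
  have hρr : ∀ t, R - 1 / 8 ≤ t → ρ t = 0 := by
    intro t ht
    refine max_eq_left ?_
    exact (min_le_right _ _).trans ((min_le_right _ _).trans (by linarith))
  have hρm : ∀ t, R - 2 + 1 / 8 ≤ t → t ≤ R - 1 / 4 → ρ t = 1 := by
    intro t h1 h2
    have h3 : min 1 (min (8 * (t - (R - 2))) (8 * (R - 1 / 8 - t))) = 1 := by
      refine min_eq_left (le_min ?_ ?_) <;> linarith
    show max 0 (min 1 (min (8 * (t - (R - 2))) (8 * (R - 1 / 8 - t)))) = 1
    rw [h3]
    exact max_eq_right zero_le_one
  have hderiv : ∀ s, HasDerivAt (fun s => ∫ t in (R - 2)..s, ρ t) (ρ s) s := fun s =>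
    intervalIntegral.integral_hasDerivAt_right (hρc.intervalIntegrable _ _)
      (hρc.stronglyMeasurableAtFilter _ _) hρc.continuousAt
  have hd : deriv (fun s => ∫ t in (R - 2)..s, ρ t) = ρ := funext (fun s => (hderiv s).deriv)
  refine ⟨fun s => ∫ t in (R - 2)..s, ρ t, ?_, ?_, ?_, ?_, ?_⟩
  · rw [contDiff_one_iff_deriv]
    refine ⟨fun s => (hderiv s).differentiableAt, ?_⟩
    rw [hd]; exact hρc
  · intro s hs
    show ∫ t in (R - 2)..s, ρ t = 0
    have h1 : ∫ t in (R - 2)..s, ρ t = ∫ t in (R - 2)..s, (0:ℝ) := by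
      refine intervalIntegral.integral_congr (fun t ht => ?_)
      rw [Set.uIcc_of_ge hs] at ht
      exact hρl t ht.2
    rw [h1]; simp
  · intro s hs
    show 1 ≤ ∫ t in (R - 2)..s, ρ t
    have h1 : ∫ t in (R - 2 + 1 / 8)..(R - 1 / 4), ρ t ≤ ∫ t in (R - 2)..s, ρ t := by
      refine intervalIntegral.integral_mono_interval (by linarith) (by linarith) (by linarith)
        (Filter.Eventually.of_forall hρ0) (hρc.intervalIntegrable _ _)
    have h2 : ∫ t in (R - 2 + 1 / 8)..(R - 1 / 4), ρ t = ∫ t in (R - 2 + 1 / 8)..(R - 1 / 4), (1:ℝ) := by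
      refine intervalIntegral.integral_congr (fun t ht => ?_)
      rw [Set.uIcc_of_le (by linarith)] at ht
      exact hρm t ht.1 ht.2
    rw [h2] at h1
    simp only [intervalIntegral.integral_const, smul_eq_mul, mul_one] at h1
    linarith
  · intro s
    rw [hd]
    exact ⟨hρ0 s, hρ1 s⟩
  · intro s hs
    rw [hd]
    exact hρr s (by linarith)

end

end Pool.Agent.Helper536.LK.M5

end part4

namespace Pool.Agent.Helper536.LK
alias sig_exists := M5.sig_exists
end Pool.Agent.Helper536.LK
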