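import Pool.Agent.Helper536.LK.MDefs
import Pool.Agent.Helper536.LK.RTdef
import Pool.Agent.Helper536.LK.M5
import Pool.Agent.Helper536.LK.M13

noncomputable section

section part1

open scoped ContDiff Topology

open Set

namespace Pool.Agent.Helper536.LK.M14

section

variable {E F : Type*} [NormedAddCommGroup E] [InnerProductSpace ℂ E]
    [NormedAddCommGroup F] [InnerProductSpace ℂ F]

end

end Pool.Agent.Helper536.LK.M14

end part1

section part2

open scoped ContDiff Topology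

open Set Metric

namespace Pool.Agent.Helper536.LK.M14

end Pool.Agent.Helper536.LK.M14

end part2

section part3

open Bundle Bornology Set MeasureTheory Manifold Filter Topology

open scoped ENNReal ContDiff Manifold NNReal

namespace Pool.Agent.Helper536.LK.M14

set_option maxSynthPendingDepth 3

set_option linter.unusedSectionVars false

set_option linter.unusedVariables false

namespace RData

variable {E : Type} [NormedAddCommGroup E] [NormedSpace ℝ E] {M : Type}
    [TopologicalSpace M] [ChartedSpace E M] (d : RData E M)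

variable [IsManifold 𝓘(ℝ, E) ∞ M]

variable [FiniteDimensional ℝ E]

end RData

end Pool.Agent.Helper536.LK.M14

end part3

section part4

open Bundle Set Metric MeasureTheory Manifold Filter Topology

open scoped ENNReal ContDiff Manifold NNReal

namespace Pool.Agent.Helper536.LK.M14

set_option linter.unusedSectionVars false

set_option linter.unusedVariables false





section

variable {E : Type} [NormedAddCommGroup E] [InnerProductSpace ℂ E]

variable [FiniteDimensional ℂ E] {M : Type} [TopologicalSpace M] [ChartedSpace E M]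

variable [IsManifold 𝓘(ℝ, E) ∞ M]

end



variable {E : Type} [NormedAddCommGroup E] [InnerProductSpace ℂ E] (T : Tower E)

theorem complete_T_Rpos (j : ℕ) : 0 < T.R (j + 1) - 2 := by
  have h := T.hG j 0 (by rw [norm_zero]; exact (T.hR j).le)
  exact lt_of_le_of_lt (norm_nonneg _) h

theorem complete_T_near (j : ℕ) (σ : ℝ → ℝ) (h0 : ∀ s ≤ T.R (j + 1) - 2, σ s = 0) (x : E)
    (hx : ‖(T.H (j + 1)).f x‖ < T.R (j + 1) - 2) :
    (fun y : E => σ ‖(T.H (j + 1)).f y‖) =ᶠ[𝓝 x] fun _ => (0 : ℝ) := by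
  have hc : Continuous fun y : E => ‖(T.H (j + 1)).f y‖ := (T.H (j + 1)).sf.continuous.norm
  filter_upwards [hc.continuousAt.eventually_lt continuousAt_const hx] with y hy
  exact h0 _ (le_of_lt hy)

theorem complete_T_norm {z : E} (hz : z ≠ 0) : ContDiffAt ℝ 1 (fun y : E => ‖y‖) z :=
  contDiffAt_norm ℂ hz

theorem complete_T_contDiff (j : ℕ) (σ : ℝ → ℝ) (hσ : ContDiff ℝ 1 σ)
    (h0 : ∀ s ≤ T.R (j + 1) - 2, σ s = 0) :
    ContDiff ℝ 1 (fun y : E => σ ‖(T.H (j + 1)).f y‖) := by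
  rw [contDiff_iff_contDiffAt]
  intro x
  by_cases hx : ‖(T.H (j + 1)).f x‖ < T.R (j + 1) - 2
  · exact contDiffAt_const.congr_of_eventuallyEq (complete_T_near T j σ h0 x hx)
  · have hne : (T.H (j + 1)).f x ≠ 0 := by
      intro h
      rw [h, norm_zero] at hx
      exact hx (complete_T_Rpos T j)
    have h1 : ContDiffAt ℝ 1 (T.H (j + 1)).f x :=
      ((T.H (j + 1)).sf.of_le (by simp)).contDiffAt
    have h2 : ContDiffAt ℝ 1 (fun y : E => ‖(T.H (j + 1)).f y‖) x :=
      (complete_T_norm hne).comp x h1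
    exact hσ.contDiffAt.comp x h2

theorem complete_T_fderiv (j : ℕ) (σ : ℝ → ℝ) (hσ : ContDiff ℝ 1 σ) (x v : E)
    (hne : (T.H (j + 1)).f x ≠ 0) :
    |fderiv ℝ (fun y : E => σ ‖(T.H (j + 1)).f y‖) x v| ≤
      |deriv σ ‖(T.H (j + 1)).f x‖| * ‖fderiv ℝ (T.H (j + 1)).f x v‖ := by
  have h1 : HasFDerivAt (T.H (j + 1)).f (fderiv ℝ (T.H (j + 1)).f x) x :=
    ((T.H (j + 1)).sf.differentiable (by simp) x).hasFDerivAt
  have h2 : HasFDerivAt (fun y : E => ‖y‖) (fderiv ℝ (fun y : E => ‖y‖) ((T.H (j + 1)).f x))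
      ((T.H (j + 1)).f x) :=
    ((complete_T_norm hne).differentiableAt (by simp)).hasFDerivAt
  have h3 : HasDerivAt σ (deriv σ ‖(T.H (j + 1)).f x‖) ‖(T.H (j + 1)).f x‖ :=
    (hσ.differentiable (by simp) _).hasDerivAt
  have h4 := h2.comp x h1
  have h5 := h3.comp_hasFDerivAt x h4
  have h6 : fderiv ℝ (fun y : E => σ ‖(T.H (j + 1)).f y‖) x v =
      deriv σ ‖(T.H (j + 1)).f x‖ *
        (fderiv ℝ (fun y : E => ‖y‖) ((T.H (j + 1)).f x) (fderiv ℝ (T.H (j + 1)).f x v)) := by
    have h7 : fderiv ℝ (fun y : E => σ ‖(T.H (j + 1)).f y‖) x =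
        deriv σ ‖(T.H (j + 1)).f x‖ •
          (fderiv ℝ (fun y : E => ‖y‖) ((T.H (j + 1)).f x)).comp
            (fderiv ℝ (T.H (j + 1)).f x) := h5.fderiv
    rw [h7]
    rfl
  rw [h6, abs_mul]
  apply mul_le_mul_of_nonneg_left _ (abs_nonneg _)
  have h8 : ‖fderiv ℝ (fun y : E => ‖y‖) ((T.H (j + 1)).f x)‖ ≤ 1 := by
    have := norm_fderiv_le_of_lipschitz ℝ (x₀ := (T.H (j + 1)).f x)
      (lipschitzWith_one_norm (E := E))
    simpa using this
  have h9 := ContinuousLinearMap.le_opNorm (fderiv ℝ (fun y : E => ‖y‖) ((T.H (j + 1)).f x))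
    (fderiv ℝ (T.H (j + 1)).f x v)
  rw [Real.norm_eq_abs] at h9
  calc _ ≤ _ := h9
    _ ≤ 1 * ‖fderiv ℝ (T.H (j + 1)).f x v‖ := mul_le_mul_of_nonneg_right h8 (norm_nonneg _)
    _ = _ := one_mul _

theorem complete_T_BT_nonneg (x v : E) : 0 ≤ BT T x v v := by
  by_cases hv : v = 0
  · rw [hv]; simp
  · exact (BT_pos T x v hv).le

theorem complete_T_bound (j : ℕ) (σ : ℝ → ℝ) (hσ : ContDiff ℝ 1 σ)
    (h0 : ∀ s ≤ T.R (j + 1) - 2, σ s = 0) (h1 : ∀ s, 0 ≤ deriv σ s ∧ deriv σ s ≤ 1)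
    (h2 : ∀ s, T.R (j + 1) ≤ s → deriv σ s = 0) (x v : E) :
    (fderiv ℝ (fun y : E => σ ‖(T.H (j + 1)).f y‖) x v) ^ 2 ≤ BT T x v v := by
  by_cases hx : ‖(T.H (j + 1)).f x‖ < T.R (j + 1) - 2
  · have h3 : fderiv ℝ (fun y : E => σ ‖(T.H (j + 1)).f y‖) x = 0 := by
      rw [(complete_T_near T j σ h0 x hx).fderiv_eq]
      simp
    rw [h3]
    simpa using complete_T_BT_nonneg T x v
  · have hne : (T.H (j + 1)).f x ≠ 0 := by
      intro h
      rw [h, norm_zero] at hx
      exact hx (complete_T_Rpos T j)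
    have h3 := complete_T_fderiv T j σ hσ x v hne
    by_cases hR : ‖(T.H (j + 1)).f x‖ < T.R (j + 1)
    · have h4 := T.shell j ((T.H (j + 1)).f x) (not_lt.1 hx) (fderiv ℝ (T.H (j + 1)).f x v)
      rw [BT_eq T (j + 1) x hR]
      refine le_trans ?_ h4
      have h5 : |fderiv ℝ (fun y : E => σ ‖(T.H (j + 1)).f y‖) x v| ≤
          ‖fderiv ℝ (T.H (j + 1)).f x v‖ := by
        refine h3.trans ?_
        have h6 : |deriv σ ‖(T.H (j + 1)).f x‖| ≤ 1 := by
          rw [abs_of_nonneg (h1 _).1]; exact (h1 _).2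
        calc _ ≤ 1 * ‖fderiv ℝ (T.H (j + 1)).f x v‖ :=
              mul_le_mul_of_nonneg_right h6 (norm_nonneg _)
          _ = _ := one_mul _
      rw [← sq_abs]
      exact pow_le_pow_left₀ (abs_nonneg _) h5 2
    · rw [h2 _ (not_lt.1 hR), abs_zero, zero_mul] at h3
      have h4 : fderiv ℝ (fun y : E => σ ‖(T.H (j + 1)).f y‖) x v = 0 :=
        abs_eq_zero.1 (le_antisymm h3 (abs_nonneg _))
      rw [h4]
      simpa using complete_T_BT_nonneg T x v

theorem complete_T [FiniteDimensional ℂ E] :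
    haveI := isManifold_infty T
    @CompleteSpace (Mfd T) ((RT T).mM).toPseudoMetricSpace.toUniformSpace := by
  have := isManifold_infty T
  haveI : ProperSpace E := FiniteDimensional.proper_rclike ℂ E
  choose σ hσ hσ0 hσ1 hσ2 hσ3 using fun j : ℕ => sig_exists (T.R (j + 1))
  apply RData.complete_of (RT T) (fun j (x : E) => σ j ‖(T.H (j + 1)).f x‖)
    (fun j => complete_T_contDiff T j (σ j) (hσ j) (hσ0 j))
    (fun j x v => complete_T_bound T j (σ j) (hσ j) (hσ0 j) (hσ2 j) (hσ3 j) x v)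
    (fun j => (T.H (j + 1)).g '' closedBall 0 (T.R (j + 1)))
  · intro j
    exact (isCompact_closedBall _ _).image (T.H (j + 1)).sg.continuous
  · intro x
    obtain ⟨j, hj⟩ := T.exh x
    refine ⟨j, ?_, ?_⟩
    · apply hσ0 j
      rw [T.hH j x]
      exact (T.hG j _ hj.le).le
    · intro y hy
      refine ⟨(T.H (j + 1)).f y, ?_, (T.H (j + 1)).left y⟩
      rw [mem_closedBall, dist_zero_right]
      by_contra hc
      have h1 := hσ1 j _ (not_le.1 hc).le
      have hy' : σ j ‖(T.H (j + 1)).f y‖ < 1 := hy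
      linarith

end Pool.Agent.Helper536.LK.M14

end part4

namespace Pool.Agent.Helper536.LK
alias complete_T := M14.complete_T
end Pool.Agent.Helper536.LK
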