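import Pool.Agent.Helper536.LK.MDefs
import Pool.Agent.Helper536.LK.RTdef

noncomputable section

section part1

open scoped ContDiff Topology

open Set

namespace Pool.Agent.Helper536.LK.M15

section

variable {E F : Type*} [NormedAddCommGroup E] [InnerProductSpace ℂ E]
    [NormedAddCommGroup F] [InnerProductSpace ℂ F]

end

end Pool.Agent.Helper536.LK.M15

end part1

section part2

open scoped ContDiff Topology

open Set Metric

namespace Pool.Agent.Helper536.LK.M15

end Pool.Agent.Helper536.LK.M15

end part2

section part3

open Bundle Bornology Set MeasureTheory Manifold Filter Topology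

open scoped ENNReal ContDiff Manifold NNReal

namespace Pool.Agent.Helper536.LK.M15

set_option maxSynthPendingDepth 3

set_option linter.unusedSectionVars false

set_option linter.unusedVariables false

namespace RData

variable {E : Type} [NormedAddCommGroup E] [NormedSpace ℝ E] {M : Type}
    [TopologicalSpace M] [ChartedSpace E M] (d : RData E M)

variable [IsManifold 𝓘(ℝ, E) ∞ M]

variable [FiniteDimensional ℝ E]

end RData

end Pool.Agent.Helper536.LK.M15

end part3

section part4

open Bundle Set Metric MeasureTheory Manifold Filter Topology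

open scoped ENNReal ContDiff Manifold NNReal

namespace Pool.Agent.Helper536.LK.M15

set_option linter.unusedSectionVars false

set_option linter.unusedVariables false





section

variable {E : Type} [NormedAddCommGroup E] [InnerProductSpace ℂ E]

variable [FiniteDimensional ℂ E] {M : Type} [TopologicalSpace M] [ChartedSpace E M]

variable [IsManifold 𝓘(ℝ, E) ∞ M]

end



variable {E : Type} [NormedAddCommGroup E] [InnerProductSpace ℂ E] (T : Tower E)

theorem hol_chart [FiniteDimensional ℂ E] (f : Mfd T → ℂ)
    (hf : MDifferentiable 𝓘(ℂ, E) 𝓘(ℂ, ℂ) f) (j : ℕ) :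
    DifferentiableOn ℂ (fun y : E => f ((T.H j).g y)) (ball 0 (T.R j)) := by
  haveI := isManifold_omega T
  haveI h1m : IsManifold 𝓘(ℂ, E) 1 (Mfd T) := IsManifold.of_le (n := ω) le_top
  have hmem : chart T j ∈ atlas E (Mfd T) := ⟨j, rfl⟩
  have h1 : MDifferentiableOn 𝓘(ℂ, E) 𝓘(ℂ, E) (chart T j).symm (chart T j).target :=
    mdifferentiableOn_atlas_symm hmem
  have h2 : MDifferentiableOn 𝓘(ℂ, E) 𝓘(ℂ, ℂ) (f ∘ (chart T j).symm) (chart T j).target :=
    hf.comp_mdifferentiableOn h1
  exact mdifferentiableOn_iff_differentiableOn.1 h2

end Pool.Agent.Helper536.LK.M15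

end part4

namespace Pool.Agent.Helper536.LK
alias hol_chart := M15.hol_chart
end Pool.Agent.Helper536.LK
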