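import Pool.Agent.Helper536.LK.MDefs
import Pool.Agent.Helper536.LK.RTdef

noncomputable section

section part1

open scoped ContDiff Topology

open Set

namespace Pool.Agent.Helper536.LK.M16

section

variable {E F : Type*} [NormedAddCommGroup E] [InnerProductSpace ℂ E]
    [NormedAddCommGroup F] [InnerProductSpace ℂ F]

end

end Pool.Agent.Helper536.LK.M16

end part1

section part2

open scoped ContDiff Topology

open Set Metric

namespace Pool.Agent.Helper536.LK.M16

end Pool.Agent.Helper536.LK.M16

end part2

section part3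

open Bundle Bornology Set MeasureTheory Manifold Filter Topology

open scoped ENNReal ContDiff Manifold NNReal

namespace Pool.Agent.Helper536.LK.M16

set_option maxSynthPendingDepth 3

set_option linter.unusedSectionVars false

set_option linter.unusedVariables false

namespace RData

variable {E : Type} [NormedAddCommGroup E] [NormedSpace ℝ E] {M : Type}
    [TopologicalSpace M] [ChartedSpace E M] (d : RData E M)

variable [IsManifold 𝓘(ℝ, E) ∞ M]

variable [FiniteDimensional ℝ E]

end RData

end Pool.Agent.Helper536.LK.M16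

end part3

section part4

open Bundle Set Metric MeasureTheory Manifold Filter Topology

open scoped ENNReal ContDiff Manifold NNReal

namespace Pool.Agent.Helper536.LK.M16

set_option linter.unusedSectionVars false

set_option linter.unusedVariables false





section

variable {E : Type} [NormedAddCommGroup E] [InnerProductSpace ℂ E]

variable [FiniteDimensional ℂ E] {M : Type} [TopologicalSpace M] [ChartedSpace E M]

variable [IsManifold 𝓘(ℝ, E) ∞ M]

end



variable {E : Type} [NormedAddCommGroup E] [InnerProductSpace ℂ E] (T : Tower E)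

theorem const_of_aux1 (f : E → ℂ) (hc : Continuous f)
    (hf : ∀ j, DifferentiableOn ℂ (fun y : E => f ((T.H j).g y)) (ball 0 (T.R j)))
    (P Q : E) (hne : P ≠ Q) : ‖f Q‖ ≤ ‖f P‖ := by
  apply le_of_forall_pos_le_add
  intro η hη
  have hcn : Continuous fun x => ‖f x‖ := hc.norm
  obtain ⟨δ1, hδ1, h1⟩ := Metric.continuousAt_iff.mp (hcn.continuousAt (x := P)) (η / 2) (by positivity)
  obtain ⟨δ2, hδ2, h2⟩ := Metric.continuousAt_iff.mp (hcn.continuousAt (x := Q)) (η / 2) (by positivity)
  obtain ⟨j, hj⟩ := T.key P Q hne (min δ1 δ2) (lt_min hδ1 hδ2)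
  obtain ⟨P', hP', Q', hQ', hle⟩ := hj _ (hf j)
  beta_reduce at hle
  rw [(T.H j).left, (T.H j).left] at hle
  have h3 := h1 (lt_of_lt_of_le (mem_ball.mp hP') (min_le_left _ _))
  have h4 := h2 (lt_of_lt_of_le (mem_ball.mp hQ') (min_le_right _ _))
  rw [Real.dist_eq, abs_lt] at h3 h4
  linarith [h3.1, h3.2, h4.1, h4.2]

theorem const_of [FiniteDimensional ℂ E] (f : E → ℂ) (hc : Continuous f)
    (hf : ∀ j, DifferentiableOn ℂ (fun y : E => f ((T.H j).g y)) (ball 0 (T.R j))) :
    ∃ c, ∀ x, f x = c := by
  have h1 : ∀ P Q : E, ‖f Q‖ ≤ ‖f P‖ := by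
    intro P Q
    by_cases hne : P = Q
    · rw [hne]
    · exact const_of_aux1 T f hc hf P Q hne
  refine ⟨f 0, ?_⟩
  intro x
  obtain ⟨j1, hj1⟩ := T.exh x
  obtain ⟨j2, hj2⟩ := T.exh 0
  have hx := valid_mono T j1 (max j1 j2) (le_max_left _ _) x hj1
  have h0 := valid_mono T j2 (max j1 j2) (le_max_right _ _) 0 hj2
  generalize max j1 j2 = j at hx h0
  have hpc : IsPreconnected (ball (0:E) (T.R j)) := (convex_ball (0:E) (T.R j)).isPreconnected
  have h2 := Complex.eqOn_of_isPreconnected_of_isMaxOn_norm hpc isOpen_ball (hf j)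
    (mem_ball_zero_iff.mpr h0) (fun y _ => h1 _ _)
  have h3 := h2 (mem_ball_zero_iff.mpr hx)
  simp only [Function.const_apply] at h3
  rw [(T.H j).left, (T.H j).left] at h3
  exact h3

end Pool.Agent.Helper536.LK.M16

end part4

namespace Pool.Agent.Helper536.LK
alias const_of := M16.const_of
end Pool.Agent.Helper536.LK
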