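import Pool.Agent.Helper536.LK.MDefs
import Pool.Agent.Helper536.LK.RTdef

noncomputable section

section part1

open scoped ContDiff Topology

open Set

namespace Pool.Agent.Helper536.LK.M17

section

variable {E F : Type*} [NormedAddCommGroup E] [InnerProductSpace ℂ E]
    [NormedAddCommGroup F] [InnerProductSpace ℂ F]

end

end Pool.Agent.Helper536.LK.M17

end part1

section part2

open scoped ContDiff Topology

open Set Metric

namespace Pool.Agent.Helper536.LK.M17

end Pool.Agent.Helper536.LK.M17

end part2

section part3

open Bundle Bornology Set MeasureTheory Manifold Filter Topology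

open scoped ENNReal ContDiff Manifold NNReal

namespace Pool.Agent.Helper536.LK.M17

set_option maxSynthPendingDepth 3

set_option linter.unusedSectionVars false

set_option linter.unusedVariables false

namespace RData

variable {E : Type} [NormedAddCommGroup E] [NormedSpace ℝ E] {M : Type}
    [TopologicalSpace M] [ChartedSpace E M] (d : RData E M)

variable [IsManifold 𝓘(ℝ, E) ∞ M]

variable [FiniteDimensional ℝ E]

end RData

end Pool.Agent.Helper536.LK.M17

end part3

section part4

open Bundle Set Metric MeasureTheory Manifold Filter Topology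

open scoped ENNReal ContDiff Manifold NNReal

namespace Pool.Agent.Helper536.LK.M17

set_option linter.unusedSectionVars false

set_option linter.unusedVariables false





section

variable {E : Type} [NormedAddCommGroup E] [InnerProductSpace ℂ E]

variable [FiniteDimensional ℂ E] {M : Type} [TopologicalSpace M] [ChartedSpace E M]

variable [IsManifold 𝓘(ℝ, E) ∞ M]

end



variable {E : Type} [NormedAddCommGroup E] [InnerProductSpace ℂ E] (T : Tower E)

theorem diffeo_T [FiniteDimensional ℂ E] (n : ℕ) (hn : Module.finrank ℂ E = n) :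
    Nonempty (Mfd T ≃ₘ^∞⟮𝓘(ℝ, E), 𝓘(ℝ, EuclideanSpace ℝ (Fin (2 * n)))⟯
      EuclideanSpace ℝ (Fin (2 * n))) := by
  haveI : FiniteDimensional ℝ E := FiniteDimensional.complexToReal E
  have h1 : Module.finrank ℝ E = Module.finrank ℝ (EuclideanSpace ℝ (Fin (2 * n))) := by
    rw [finrank_real_of_complex, hn, finrank_euclideanSpace_fin]
  let e : E ≃L[ℝ] EuclideanSpace ℝ (Fin (2 * n)) := ContinuousLinearEquiv.ofFinrankEq h1
  let d1 : Mfd T ≃ₘ^∞⟮𝓘(ℝ, E), 𝓘(ℝ, E)⟯ E :=
    { toEquiv := (iT T).toEquiv
      contMDiff_toFun := iT_smooth T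
      contMDiff_invFun := iT_symm_smooth T }
  exact ⟨d1.trans
    { toEquiv := e.toLinearEquiv.toEquiv
      contMDiff_toFun := e.contDiff.contMDiff
      contMDiff_invFun := e.symm.contDiff.contMDiff }⟩

end Pool.Agent.Helper536.LK.M17

end part4

namespace Pool.Agent.Helper536.LK
alias diffeo_T := M17.diffeo_T
end Pool.Agent.Helper536.LK
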