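import Pool.Agent.Helper536.LK.MDefs

noncomputable section

section part1

open scoped ContDiff Topology

open Set

namespace Pool.Agent.Helper536.LK.M2

section

variable {E F : Type*} [NormedAddCommGroup E] [InnerProductSpace ℂ E]
    [NormedAddCommGroup F] [InnerProductSpace ℂ F]

end

end Pool.Agent.Helper536.LK.M2

end part1

section part2

open scoped ContDiff Topology

open Set Metric

namespace Pool.Agent.Helper536.LK.M2

end Pool.Agent.Helper536.LK.M2

end part2

section part3

open Bundle Bornology Set MeasureTheory Manifold Filter Topology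

open scoped ENNReal ContDiff Manifold NNReal

namespace Pool.Agent.Helper536.LK.M2

set_option maxSynthPendingDepth 3

set_option linter.unusedSectionVars false

set_option linter.unusedVariables false

namespace RData

variable {E : Type} [NormedAddCommGroup E] [NormedSpace ℝ E] {M : Type}
    [TopologicalSpace M] [ChartedSpace E M] (d : RData E M)

variable [IsManifold 𝓘(ℝ, E) ∞ M]

variable [FiniteDimensional ℝ E]

end RData

end Pool.Agent.Helper536.LK.M2

end part3

section part4

open Bundle Set Metric MeasureTheory Manifold Filter Topology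

open scoped ENNReal ContDiff Manifold NNReal

namespace Pool.Agent.Helper536.LK.M2

set_option linter.unusedSectionVars false

set_option linter.unusedVariables false





section

variable {E : Type} [NormedAddCommGroup E] [InnerProductSpace ℂ E]

variable [FiniteDimensional ℂ E] {M : Type} [TopologicalSpace M] [ChartedSpace E M]

theorem Jmap_mfderiv [IsManifold 𝓘(ℂ, E) ω M] (x₀ : M) (y : E) (hy : y ∈ (chartAt E x₀).target)
    (v : E) : Jmap ((chartAt E x₀).symm y)
      (mfderiv 𝓘(ℝ, E) 𝓘(ℝ, E) (chartAt E x₀).symm y (v : TangentSpace 𝓘(ℝ, E) y)) =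
      mfderiv 𝓘(ℝ, E) 𝓘(ℝ, E) (chartAt E x₀).symm y
        ((Complex.I • v : E) : TangentSpace 𝓘(ℝ, E) y) := by
  haveI : IsManifold 𝓘(ℂ, E) 1 M := IsManifold.of_le (n := ω) le_top
  have h1 : MDifferentiableAt 𝓘(ℂ, E) 𝓘(ℂ, E) (chartAt E x₀).symm y :=
    mdifferentiableAt_atlas_symm (chart_mem_atlas E x₀) hy
  have h2 := h1.hasMFDerivAt
  set A : E →L[ℂ] E := mfderiv 𝓘(ℂ, E) 𝓘(ℂ, E) (chartAt E x₀).symm y with hA
  have h3 : HasMFDerivAt 𝓘(ℝ, E) 𝓘(ℝ, E) (chartAt E x₀).symm y (A.restrictScalars ℝ) := by
    refine ⟨h2.1, ?_⟩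
    have h4 := h2.2
    have h5 := HasFDerivWithinAt.restrictScalars ℝ h4
    exact h5
  rw [h3.mfderiv]
  change (Complex.I • A v : E) = A (Complex.I • v)
  rw [map_smul]

end

end Pool.Agent.Helper536.LK.M2

end part4

namespace Pool.Agent.Helper536.LK
alias Jmap_mfderiv := M2.Jmap_mfderiv
end Pool.Agent.Helper536.LK
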