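import Pool.Agent.Helper536.LK.MDefs

noncomputable section

section part1

open scoped ContDiff Topology

open Set

namespace Pool.Agent.Helper536.LK.M3

section

variable {E F : Type*} [NormedAddCommGroup E] [InnerProductSpace ℂ E]
    [NormedAddCommGroup F] [InnerProductSpace ℂ F]

end

end Pool.Agent.Helper536.LK.M3

end part1

section part2

open scoped ContDiff Topology

open Set Metric

namespace Pool.Agent.Helper536.LK.M3

end Pool.Agent.Helper536.LK.M3

end part2

section part3

open Bundle Bornology Set MeasureTheory Manifold Filter Topology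

open scoped ENNReal ContDiff Manifold NNReal

namespace Pool.Agent.Helper536.LK.M3

set_option maxSynthPendingDepth 3

set_option linter.unusedSectionVars false

set_option linter.unusedVariables false

namespace RData

variable {E : Type} [NormedAddCommGroup E] [NormedSpace ℝ E] {M : Type}
    [TopologicalSpace M] [ChartedSpace E M] (d : RData E M)

variable [IsManifold 𝓘(ℝ, E) ∞ M]

variable [FiniteDimensional ℝ E]

end RData

end Pool.Agent.Helper536.LK.M3

end part3

section part4

open Bundle Set Metric MeasureTheory Manifold Filter Topology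

open scoped ENNReal ContDiff Manifold NNReal

namespace Pool.Agent.Helper536.LK.M3

set_option linter.unusedSectionVars false

set_option linter.unusedVariables false





section

variable {E : Type} [NormedAddCommGroup E] [InnerProductSpace ℂ E]

variable [FiniteDimensional ℂ E] {M : Type} [TopologicalSpace M] [ChartedSpace E M]

variable [IsManifold 𝓘(ℝ, E) ∞ M]

theorem inner_chart (d : RData E M) (x₀ : M) (φ : E → ℝ)
    (hφ : ∀ y ∈ (chartAt E x₀).target, ∀ v w : E,
      d.B (d.i ((chartAt E x₀).symm y)) (fderiv ℝ (fun z => d.i ((chartAt E x₀).symm z)) y v)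
        (fderiv ℝ (fun z => d.i ((chartAt E x₀).symm z)) y w) = lev φ y v w)
    (y : E) (hy : y ∈ (chartAt E x₀).target) (v w : E) :
    letI := d.rb
    inner ℝ (mfderiv 𝓘(ℝ, E) 𝓘(ℝ, E) (chartAt E x₀).symm y (v : TangentSpace 𝓘(ℝ, E) y))
      (mfderiv 𝓘(ℝ, E) 𝓘(ℝ, E) (chartAt E x₀).symm y (w : TangentSpace 𝓘(ℝ, E) y)) =
      lev φ y v w := by
  letI := d.rb
  have hmd : MDifferentiableAt 𝓘(ℝ, E) 𝓘(ℝ, E) (chartAt E x₀).symm y := by
    have h := contMDiffOn_chart_symm (I := 𝓘(ℝ, E)) (n := ∞) (x := x₀)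
    exact ((h y hy).contMDiffAt ((chartAt E x₀).open_target.mem_nhds hy)).mdifferentiableAt
      (by simp)
  have hcomp : mfderiv 𝓘(ℝ, E) 𝓘(ℝ, E) (fun z => d.i ((chartAt E x₀).symm z)) y =
      (mfderiv 𝓘(ℝ, E) 𝓘(ℝ, E) d.i ((chartAt E x₀).symm y)).comp
        (mfderiv 𝓘(ℝ, E) 𝓘(ℝ, E) (chartAt E x₀).symm y) :=
    mfderiv_comp y ((d.smi _).mdifferentiableAt (by simp)) hmd
  have hv : ∀ a : E, fderiv ℝ (fun z => d.i ((chartAt E x₀).symm z)) y a =
      d.D ((chartAt E x₀).symm y) (mfderiv 𝓘(ℝ, E) 𝓘(ℝ, E) (chartAt E x₀).symm y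
        (a : TangentSpace 𝓘(ℝ, E) y)) := by
    intro a
    have h1 := congrArg (fun A => A a) hcomp
    simp only [mfderiv_eq_fderiv] at h1
    exact h1
  have h2 := hφ y hy v w
  rw [hv v, hv w] at h2
  exact h2

end

end Pool.Agent.Helper536.LK.M3

end part4

namespace Pool.Agent.Helper536.LK
alias inner_chart := M3.inner_chart
end Pool.Agent.Helper536.LK
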