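import Pool.Agent.Helper536.LK.MDefs
import Pool.Agent.Helper536.LK.M1
import Pool.Agent.Helper536.LK.M2
import Pool.Agent.Helper536.LK.M3
import Pool.Agent.Helper536.LK.M10

noncomputable section

section part1

open scoped ContDiff Topology

open Set

namespace Pool.Agent.Helper536.LK.M4

section

variable {E F : Type*} [NormedAddCommGroup E] [InnerProductSpace ℂ E]
    [NormedAddCommGroup F] [InnerProductSpace ℂ F]

end

end Pool.Agent.Helper536.LK.M4

end part1

section part2

open scoped ContDiff Topology

open Set Metric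

namespace Pool.Agent.Helper536.LK.M4

end Pool.Agent.Helper536.LK.M4

end part2

section part3

open Bundle Bornology Set MeasureTheory Manifold Filter Topology

open scoped ENNReal ContDiff Manifold NNReal

namespace Pool.Agent.Helper536.LK.M4

set_option maxSynthPendingDepth 3

set_option linter.unusedSectionVars false

set_option linter.unusedVariables false

namespace RData

variable {E : Type} [NormedAddCommGroup E] [NormedSpace ℝ E] {M : Type}
    [TopologicalSpace M] [ChartedSpace E M] (d : RData E M)

variable [IsManifold 𝓘(ℝ, E) ∞ M]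

variable [FiniteDimensional ℝ E]

end RData

end Pool.Agent.Helper536.LK.M4

end part3

section part4

open Bundle Set Metric MeasureTheory Manifold Filter Topology

open scoped ENNReal ContDiff Manifold NNReal

namespace Pool.Agent.Helper536.LK.M4

set_option linter.unusedSectionVars false

set_option linter.unusedVariables false





section

variable {E : Type} [NormedAddCommGroup E] [InnerProductSpace ℂ E]

variable [FiniteDimensional ℂ E] {M : Type} [TopologicalSpace M] [ChartedSpace E M]

variable [IsManifold 𝓘(ℝ, E) ∞ M]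

theorem kaehler_of [IsManifold 𝓘(ℂ, E) ω M] (d : RData E M)
    (hloc : ∀ x₀ : M, ∃ φ : E → ℝ, ContDiff ℝ ∞ φ ∧ ∀ y ∈ (chartAt E x₀).target, ∀ v w : E,
      d.B (d.i ((chartAt E x₀).symm y)) (fderiv ℝ (fun z => d.i ((chartAt E x₀).symm z)) y v)
        (fderiv ℝ (fun z => d.i ((chartAt E x₀).symm z)) y w) = lev φ y v w) :
    letI := d.rb
    IsKaehler E M := by
  letI := d.rb
  refine ⟨?_, ?_, ?_⟩
  · intro x v w
    obtain ⟨φ, hφs, hφ⟩ := hloc x
    have hy : chartAt E x x ∈ (chartAt E x).target := mem_chart_target E x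
    have hsurj : Function.Surjective (mfderiv 𝓘(ℝ, E) 𝓘(ℝ, E) (chartAt E x).symm (chartAt E x x)) :=
      (mdifferentiable_chart (I := 𝓘(ℝ, E)) x).symm.mfderiv_surjective hy
    have hsurj' : ∀ v' : TangentSpace 𝓘(ℝ, E) ((chartAt E x).symm (chartAt E x x)), ∃ a : E,
        mfderiv 𝓘(ℝ, E) 𝓘(ℝ, E) (chartAt E x).symm (chartAt E x x)
          (a : TangentSpace 𝓘(ℝ, E) (chartAt E x x)) = v' := fun v' => hsurj v'
    have key : ∀ v' w' : TangentSpace 𝓘(ℝ, E) ((chartAt E x).symm (chartAt E x x)),
        inner ℝ (Jmap _ v') (Jmap _ w') = inner ℝ v' w' := by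
      intro v' w'
      obtain ⟨a, rfl⟩ := hsurj' v'
      obtain ⟨b, rfl⟩ := hsurj' w'
      have h1 := Jmap_mfderiv x (chartAt E x x) hy a
      have h2 := Jmap_mfderiv x (chartAt E x x) hy b
      have h3 := inner_chart d x φ hφ (chartAt E x x) hy (Complex.I • a) (Complex.I • b)
      have h4 := inner_chart d x φ hφ (chartAt E x x) hy a b
      rw [lev_I, ← h4] at h3
      rw [h1, h2]
      exact h3
    rw [(chartAt E x).left_inv (mem_chart_source E x)] at key
    exact key v w
  · intro x₀ v w
    obtain ⟨φ, hφs, hφ⟩ := hloc x₀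
    have h1 : ContDiff ℝ ∞ (fun y => levB φ y (Complex.I • v) w) :=
      ((levB_smooth φ hφs).clm_apply contDiff_const).clm_apply contDiff_const
    refine h1.contDiffOn.congr (fun y hy => ?_)
    rw [levB_apply]
    unfold omegaChart
    rw [Jmap_mfderiv x₀ y hy v]
    exact inner_chart d x₀ φ hφ y hy (Complex.I • v) w
  · intro x₀ y hy u v w
    obtain ⟨φ, hφs, hφ⟩ := hloc x₀
    have hom : ∀ v w : E, (fun y' => omegaChart x₀ y' v w) =ᶠ[𝓝 y]
        fun y' => lev φ y' (Complex.I • v) w := by
      intro v w
      filter_upwards [(chartAt E x₀).open_target.mem_nhds hy] with y' hy'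
      unfold omegaChart
      rw [Jmap_mfderiv x₀ y' hy' v]
      exact inner_chart d x₀ φ hφ y' hy' (Complex.I • v) w
    rw [(hom v w).fderiv_eq, (hom w u).fderiv_eq, (hom u v).fderiv_eq]
    exact lev_closed hφs y u v w

end

end Pool.Agent.Helper536.LK.M4

end part4

namespace Pool.Agent.Helper536.LK
alias kaehler_of := M4.kaehler_of
end Pool.Agent.Helper536.LK
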