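import Pool.Agent.Helper536.LK.Riem
import Pool.Agent.Helper536.LK.KDefs
import Pool.Agent.Helper536.LK.Defs
import Pool.Agent.Helper536.LK.TowerDef

open Bundle Set Metric MeasureTheory Manifold Filter Topology
open scoped ENNReal ContDiff Manifold NNReal

noncomputable section

namespace Pool.Agent.Helper536.LK

set_option linter.unusedSectionVars false
set_option linter.unusedVariables false

variable {E : Type} [NormedAddCommGroup E] [InnerProductSpace ℂ E] (T : Tower E)

/-- the manifold: the set `E` with the charts `H j` -/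
def Mfd (_ : Tower E) : Type := E

instance : TopologicalSpace (Mfd T) := inferInstanceAs (TopologicalSpace E)

/-- the charts -/
def chart (j : ℕ) : OpenPartialHomeomorph (Mfd T) E where
  toFun := (T.H j).f
  invFun := (T.H j).g
  source := {x : E | ‖(T.H j).f x‖ < T.R j}
  target := ball 0 (T.R j)
  map_source' := fun x hx => mem_ball_zero_iff.2 hx
  map_target' := fun y hy => by
    show ‖(T.H j).f ((T.H j).g y)‖ < T.R j
    rw [(T.H j).right]; exact mem_ball_zero_iff.1 hy
  left_inv' := fun x _ => (T.H j).left x
  right_inv' := fun y _ => (T.H j).right y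
  open_source := isOpen_lt (T.H j).sf.continuous.norm continuous_const
  open_target := isOpen_ball
  continuousOn_toFun := (T.H j).sf.continuous.continuousOn
  continuousOn_invFun := (T.H j).sg.continuous.continuousOn

open Classical in
/-- the index of the chart at `x` -/
def Ji (x : E) : ℕ := Nat.find (T.exh x)

theorem Ji_spec (x : E) : ‖(T.H (Ji T x)).f x‖ < T.R (Ji T x) := by
  classical exact Nat.find_spec (T.exh x)

instance : ChartedSpace E (Mfd T) where
  atlas := Set.range (chart T)
  chartAt x := chart T (Ji T x)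
  mem_chart_source x := Ji_spec T x
  chart_mem_atlas x := ⟨_, rfl⟩

theorem chartAt_eq (x : Mfd T) : chartAt E x = chart T (Ji T x) := rfl

/-- the Levi form as a continuous bilinear map -/
def levB (φ : E → ℝ) (y : E) : E →L[ℝ] E →L[ℝ] ℝ :=
  fderiv ℝ (fun z => fderiv ℝ φ z) y + (fderiv ℝ (fun z => fderiv ℝ φ z) y).bilinearComp
    ((Complex.I • ContinuousLinearMap.id ℂ E).restrictScalars ℝ)
    ((Complex.I • ContinuousLinearMap.id ℂ E).restrictScalars ℝ)

/-- the metric in the global real coordinate -/
def BT (x : E) : E →L[ℝ] E →L[ℝ] ℝ :=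
  (levB (T.φ (Ji T x)) ((T.H (Ji T x)).f x)).bilinearComp (fderiv ℝ (T.H (Ji T x)).f x)
    (fderiv ℝ (T.H (Ji T x)).f x)

/-- the identity `M → E` -/
def iT : Mfd T ≃ₜ E := Homeomorph.refl E

end Pool.Agent.Helper536.LK
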