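import Pool.Agent.Helper536.LK.MDefs
import Pool.Agent.Helper536.LK.M1
import Pool.Agent.Helper536.LK.M2
import Pool.Agent.Helper536.LK.M3
import Pool.Agent.Helper536.LK.M4
import Pool.Agent.Helper536.LK.M5
import Pool.Agent.Helper536.LK.M6
import Pool.Agent.Helper536.LK.M7
import Pool.Agent.Helper536.LK.M8
import Pool.Agent.Helper536.LK.M9
import Pool.Agent.Helper536.LK.M10
import Pool.Agent.Helper536.LK.M11
import Pool.Agent.Helper536.LK.M12
import Pool.Agent.Helper536.LK.M13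
import Pool.Agent.Helper536.LK.M14
import Pool.Agent.Helper536.LK.M15
import Pool.Agent.Helper536.LK.M16
import Pool.Agent.Helper536.LK.M17

open Bundle Set Metric MeasureTheory Manifold Filter Topology
open scoped ENNReal ContDiff Manifold NNReal

noncomputable section

namespace Pool.Agent.Helper536.LK

set_option linter.unusedSectionVars false
set_option linter.unusedVariables false

variable {E : Type} [NormedAddCommGroup E] [InnerProductSpace ℂ E] (T : Tower E)

theorem kaehler_T [FiniteDimensional ℂ E] :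
    haveI := isManifold_infty T
    letI := (RT T).rb
    IsKaehler E (Mfd T) := by
  haveI := isManifold_infty T
  haveI := isManifold_omega T
  exact kaehler_of (RT T) (fun x₀ => ⟨T.φ (Ji T x₀), (T.spsh _).smooth, RT_loc T x₀⟩)

theorem const_T [FiniteDimensional ℂ E] (f : Mfd T → ℂ)
    (hf : MDifferentiable 𝓘(ℂ, E) 𝓘(ℂ, ℂ) f) : ∃ c, ∀ x, f x = c :=
  const_of T f hf.continuous (hol_chart T f hf)

include T in
theorem final_T [FiniteDimensional ℂ E] (n : ℕ) (hn : Module.finrank ℂ E = n) :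
    ∃ (M : Type) (_ : MetricSpace M) (_ : ChartedSpace E M)
    (_ : IsManifold 𝓘(ℂ, E) ω M) (_ : IsManifold 𝓘(ℝ, E) ∞ M)
    (_ : RiemannianBundle (fun x : M => TangentSpace 𝓘(ℝ, E) x))
    (_ : IsContMDiffRiemannianBundle 𝓘(ℝ, E) ∞ E (fun x : M => TangentSpace 𝓘(ℝ, E) x))
    (_ : IsRiemannianManifold 𝓘(ℝ, E) M),
    CompleteSpace M ∧ IsKaehler E M ∧
    Nonempty (M ≃ₘ^∞⟮𝓘(ℝ, E), 𝓘(ℝ, EuclideanSpace ℝ (Fin (2 * n)))⟯
      EuclideanSpace ℝ (Fin (2 * n))) ∧
    ∀ f : M → ℂ, MDifferentiable 𝓘(ℂ, E) 𝓘(ℂ, ℂ) f → ∃ c : ℂ, ∀ x, f x = c := by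
  haveI := isManifold_infty T
  refine ⟨Mfd T, (RT T).mM, inferInstanceAs (ChartedSpace E (Mfd T)), isManifold_omega T,
    isManifold_infty T, (RT T).rb, (RT T).ccb, ?_, complete_T T, kaehler_T T, diffeo_T T n hn,
    const_T T⟩
  letI := (RT T).mM
  letI := (RT T).rb
  exact ⟨fun _ _ => rfl⟩

end Pool.Agent.Helper536.LK
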