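import Mathlib

/-! Riemannian metrics on a manifold with a global real coordinate system. -/

open Bundle Bornology Set MeasureTheory Manifold Filter Topology
open scoped ENNReal ContDiff Manifold NNReal

noncomputable section

namespace Pool.Agent.Helper536.LK
set_option maxSynthPendingDepth 3
set_option linter.unusedSectionVars false
set_option linter.unusedVariables false

/-- a global real coordinate system and a smooth metric in it -/
structure RData (E : Type) [NormedAddCommGroup E] [NormedSpace ℝ E] (M : Type)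
    [TopologicalSpace M] [ChartedSpace E M] where
  i : M ≃ₜ E
  smi : ContMDiff 𝓘(ℝ, E) 𝓘(ℝ, E) ∞ i
  smis : ContMDiff 𝓘(ℝ, E) 𝓘(ℝ, E) ∞ i.symm
  B : E → E →L[ℝ] E →L[ℝ] ℝ
  smB : ContDiff ℝ ∞ B
  symm : ∀ x v w, B x v w = B x w v
  pos : ∀ x v, v ≠ 0 → 0 < B x v v

namespace RData
variable {E : Type} [NormedAddCommGroup E] [NormedSpace ℝ E] {M : Type}
    [TopologicalSpace M] [ChartedSpace E M] (d : RData E M)

/-- the derivative of `i` at `x` as a continuous linear map. -/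
def D (x : M) : E →L[ℝ] E := mfderiv 𝓘(ℝ, E) 𝓘(ℝ, E) d.i x

/-- the pulled back inner product. -/
def pb (x : M) : E →L[ℝ] E →L[ℝ] ℝ := (d.B (d.i x)).bilinearComp (d.D x) (d.D x)

lemma pb_apply (x : M) (v w : E) : d.pb x v w = d.B (d.i x) (d.D x v) (d.D x w) := rfl

lemma contDiff_comp2 [FiniteDimensional ℝ E] : ContDiff ℝ ∞
    (fun p : (E →L[ℝ] E →L[ℝ] ℝ) × (E →L[ℝ] E) => p.1.bilinearComp p.2 p.2) := by
  rw [contDiff_clm_apply_iff]
  intro v
  rw [contDiff_clm_apply_iff]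
  intro w
  have : (fun p : (E →L[ℝ] E →L[ℝ] ℝ) × (E →L[ℝ] E) => p.1.bilinearComp p.2 p.2 v w) =
    fun p => p.1 (p.2 v) (p.2 w) := rfl
  rw [this]
  exact (contDiff_fst.clm_apply (contDiff_snd.clm_apply contDiff_const)).clm_apply
    (contDiff_snd.clm_apply contDiff_const)

variable [IsManifold 𝓘(ℝ, E) ∞ M]

lemma D_inj (x : M) : Function.Injective (d.D x) := by
  have h1 : mfderiv 𝓘(ℝ, E) 𝓘(ℝ, E) (d.i.symm ∘ d.i) x =
      (mfderiv 𝓘(ℝ, E) 𝓘(ℝ, E) d.i.symm (d.i x)).comp (mfderiv 𝓘(ℝ, E) 𝓘(ℝ, E) d.i x) :=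
    mfderiv_comp x ((d.smis (d.i x)).mdifferentiableAt (by simp))
      ((d.smi x).mdifferentiableAt (by simp))
  have h2 : (d.i.symm ∘ d.i : M → M) = id := by
    funext x; exact d.i.symm_apply_apply x
  rw [h2, mfderiv_id] at h1
  intro a b hab
  have h3 := congrArg (fun A => A (a - b)) h1
  have h4 : d.D x (a - b) = 0 := by rw [map_sub, hab, sub_self]
  have h5 : (a - b : E) = mfderiv 𝓘(ℝ, E) 𝓘(ℝ, E) d.i.symm (d.i x) (d.D x (a - b)) := h3
  rw [h4] at h5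
  have h6 : (a - b : E) = 0 := h5.trans (map_zero _)
  exact sub_eq_zero.1 h6

variable [FiniteDimensional ℝ E]

lemma contMDiff_pb :
    ContMDiff 𝓘(ℝ, E) (𝓘(ℝ, E).prod 𝓘(ℝ, E →L[ℝ] E →L[ℝ] ℝ)) ∞
    (fun b : M ↦ TotalSpace.mk' (E →L[ℝ] E →L[ℝ] ℝ)
      (E := fun b => TangentSpace 𝓘(ℝ, E) b →L[ℝ] TangentSpace 𝓘(ℝ, E) b →L[ℝ] ℝ) b (d.pb b)) := by
  intro x
  rw [contMDiffAt_section]
  have h := ContMDiffAt.mfderiv_const (d.smi x) (m := ∞) (by simp)
  have hB : ContMDiffAt 𝓘(ℝ, E) 𝓘(ℝ, E →L[ℝ] E →L[ℝ] ℝ) ∞ (fun b => d.B (d.i b)) x :=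
    d.smB.contMDiff.contMDiffAt.comp x (d.smi x)
  have h2 : ContMDiffAt 𝓘(ℝ, E) 𝓘(ℝ, E →L[ℝ] E →L[ℝ] ℝ) ∞ (fun b =>
    (fun p : (E →L[ℝ] E →L[ℝ] ℝ) × (E →L[ℝ] E) => p.1.bilinearComp p.2 p.2)
    (d.B (d.i b), inTangentCoordinates 𝓘(ℝ, E) 𝓘(ℝ, E) id d.i
      (fun x => mfderiv 𝓘(ℝ, E) 𝓘(ℝ, E) d.i x) x b)) x :=
    contDiff_comp2.contMDiff.contMDiffAt.comp x (hB.prodMk_space h)
  refine h2.congr_of_eventuallyEq ?_
  have hx := (trivializationAt E (TangentSpace 𝓘(ℝ, E)) x).open_baseSet.mem_nhds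
    (mem_baseSet_trivializationAt E (TangentSpace 𝓘(ℝ, E)) x)
  filter_upwards [hx] with y hy
  ext v w
  have hy2 : y ∈ (trivializationAt (E →L[ℝ] ℝ)
      (fun x : M => TangentSpace 𝓘(ℝ, E) x →L[ℝ] ℝ) x).baseSet := by
    simpa using hy
  simp [hom_trivializationAt_apply, ContinuousLinearMap.inCoordinates, inTangentCoordinates,
    Trivialization.coe_linearMapAt_of_mem _ hy2]
  rfl

lemma bounded_of_pos (φ : E →L[ℝ] E →L[ℝ] ℝ)
    (h : ∀ v, v ≠ 0 → 0 < φ v v) : Bornology.IsVonNBounded ℝ {v : E | φ v v < 1} := by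
  rw [NormedSpace.isVonNBounded_iff]
  rcases subsingleton_or_nontrivial E with hE | hE
  · exact (Set.toFinite _).isBounded
  · have : ProperSpace E := FiniteDimensional.proper ℝ E
    have hc : IsCompact (Metric.sphere (0 : E) 1) := isCompact_sphere 0 1
    have hne : (Metric.sphere (0 : E) 1).Nonempty := by
      obtain ⟨v, hv⟩ := exists_norm_eq E (zero_le_one' ℝ)
      exact ⟨v, by simpa using hv⟩
    have hcont : Continuous (fun v : E => φ v v) := φ.continuous.clm_apply continuous_id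
    obtain ⟨v₀, hv₀, hmin⟩ := hc.exists_isMinOn hne hcont.continuousOn
    have hv₀ne : v₀ ≠ 0 := by
      rintro rfl
      simp at hv₀
    have hpos := h v₀ hv₀ne
    set m := φ v₀ v₀ with hm
    rw [isBounded_iff_forall_norm_le]
    refine ⟨Real.sqrt (1 / m), fun v hv => ?_⟩
    by_cases hv0 : v = 0
    · subst hv0
      simp
    have hn : 0 < ‖v‖ := norm_pos_iff.mpr hv0
    have h1 : m ≤ φ (‖v‖⁻¹ • v) (‖v‖⁻¹ • v) := by
      apply hmin
      simp [norm_smul, hn.ne']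
    have h2 : φ (‖v‖⁻¹ • v) (‖v‖⁻¹ • v) = φ v v / ‖v‖ ^ 2 := by
      simp only [map_smul, smul_apply, smul_eq_mul]
      field_simp
    rw [h2, le_div_iff₀ (by positivity)] at h1
    have h3 : φ v v < 1 := hv
    apply Real.le_sqrt_of_sq_le
    rw [le_div_iff₀ hpos]
    linarith

/-- The pulled back Riemannian metric. -/
def metric : ContMDiffRiemannianMetric 𝓘(ℝ, E) ∞ E (fun x : M => TangentSpace 𝓘(ℝ, E) x) where
  inner x := d.pb x
  symm x v w := d.symm _ _ _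
  pos x v hv := d.pos _ _ (fun h => hv (d.D_inj x (h.trans (map_zero _).symm)))
  isVonNBounded x := bounded_of_pos (d.pb x)
    (fun v hv => d.pos _ _ (fun h => hv (d.D_inj x (h.trans (map_zero _).symm))))
  contMDiff := d.contMDiff_pb

/-- the Riemannian bundle structure. -/
@[reducible] def rb : RiemannianBundle (fun x : M => TangentSpace 𝓘(ℝ, E) x) :=
  ⟨d.metric.toRiemannianMetric⟩

theorem ccb : letI := d.rb
    IsContMDiffRiemannianBundle 𝓘(ℝ, E) ∞ E (fun x : M => TangentSpace 𝓘(ℝ, E) x) :=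
  letI := d.rb
  ⟨d.metric.inner, d.metric.contMDiff, fun _ _ _ => rfl⟩

theorem cb' : letI := d.rb
    IsContinuousRiemannianBundle E (fun x : M => TangentSpace 𝓘(ℝ, E) x) :=
  letI := d.rb
  ⟨d.metric.inner, d.metric.contMDiff.continuous, fun _ _ _ => rfl⟩

theorem inner_eq (x : M) (v w : TangentSpace 𝓘(ℝ, E) x) : letI := d.rb
    inner ℝ v w = d.B (d.i x) (d.D x v) (d.D x w) := rfl

omit [IsManifold 𝓘(ℝ, E) ∞ M] [FiniteDimensional ℝ E] in
include d in
theorem t3 : T3Space M := d.i.isEmbedding.t3Space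

omit [IsManifold 𝓘(ℝ, E) ∞ M] [FiniteDimensional ℝ E] in
include d in
theorem pre : PreconnectedSpace M :=
  ⟨by rw [← Set.preimage_univ (f := d.i)]; exact d.i.isPreconnected_preimage.2 isPreconnected_univ⟩

/-- the extended metric. -/
@[reducible] def emM : EMetricSpace M :=
  letI := d.rb
  haveI := d.cb'
  haveI := d.t3
  EMetricSpace.ofRiemannianMetric 𝓘(ℝ, E) M

lemma edist_ne_top (x y : M) : (d.emM).edist x y ≠ ⊤ := by
  let _ : EMetricSpace M := d.emM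
  have h1 : IsClopen (Metric.eball x ⊤) := ⟨Metric.isClosed_eball_top, Metric.isOpen_eball⟩
  have h3 : PreconnectedSpace M := d.pre
  have h2 : Metric.eball x ⊤ = univ := by
    apply h1.eq_univ
    exact ⟨x, by simp⟩
  have h4 : y ∈ Metric.eball x ⊤ := by rw [h2]; trivial
  have h5 : edist y x < ⊤ := h4
  rw [edist_comm] at h5
  exact h5.ne

/-- the Riemannian distance makes the manifold a metric space. -/
@[reducible] def mM : MetricSpace M := @EMetricSpace.toMetricSpace M (d.emM) (d.edist_ne_top)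

lemma edist_mM (x y : M) : letI := d.rb
    (d.mM).toPseudoMetricSpace.toPseudoEMetricSpace.edist x y = riemannianEDist 𝓘(ℝ, E) x y := rfl

lemma lower (S : E → ℝ) (hS : ContDiff ℝ 1 S)
    (hb : ∀ x v, (fderiv ℝ S x v) ^ 2 ≤ d.B x v v) (x y : M) : letI := d.rb
    edist (S (d.i x)) (S (d.i y)) ≤ riemannianEDist 𝓘(ℝ, E) x y := by
  letI := d.rb
  apply le_of_forall_gt
  intro r hr
  obtain ⟨c, h0, h1, hc, hlt⟩ := exists_lt_of_riemannianEDist_lt hr
  rw [pathELength_eq_lintegral_mfderivWithin_Icc] at hlt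
  refine lt_of_le_of_lt ?_ hlt
  have hcd : ContDiffOn ℝ 1 (fun t => d.i (c t)) (Icc 0 1) := by
    rw [← contMDiffOn_iff_contDiffOn]
    exact (d.smi.of_le (by simp)).comp_contMDiffOn hc
  have hcd2 : ContDiffOn ℝ 1 (fun t => S (d.i (c t))) (Icc 0 1) := hS.comp_contDiffOn hcd
  have key := enorm_sub_le_lintegral_derivWithin_Icc_of_contDiffOn_Icc hcd2 zero_le_one
  rw [edist_comm, edist_eq_enorm_sub, ← h0, ← h1]
  refine le_trans key ?_
  apply setLIntegral_mono' measurableSet_Icc (fun t ht ↦ ?_)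
  have hu := uniqueDiffOn_Icc (zero_lt_one : (0:ℝ) < 1) t ht
  have h1 : mfderivWithin 𝓘(ℝ, ℝ) 𝓘(ℝ, E) (d.i ∘ c) (Icc 0 1) t =
      (mfderiv 𝓘(ℝ, E) 𝓘(ℝ, E) d.i (c t)).comp (mfderivWithin 𝓘(ℝ, ℝ) 𝓘(ℝ, E) c (Icc 0 1) t) := by
    apply mfderiv_comp_mfderivWithin
    · exact (d.smi (c t)).mdifferentiableAt (by simp)
    · exact (hc t ht).mdifferentiableWithinAt (by simp)
    · rw [uniqueMDiffWithinAt_iff_uniqueDiffWithinAt]
      exact hu
  set u : E := mfderivWithin 𝓘(ℝ, ℝ) 𝓘(ℝ, E) c (Icc 0 1) t (1 : ℝ) with hu'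
  have h2 : derivWithin (fun t => d.i (c t)) (Icc 0 1) t = d.D (c t) u := by
    have := congrArg (fun A => A (1 : ℝ)) h1
    simp only [mfderivWithin_eq_fderivWithin] at this
    rw [← fderivWithin_derivWithin]
    exact this
  have d1 : HasDerivWithinAt (fun t => d.i (c t)) (d.D (c t) u) (Icc 0 1) t := by
    rw [← h2]
    exact ((hcd.differentiableOn (by simp)) t ht).hasDerivWithinAt
  have d3 := ((hS.differentiable (by simp)) (d.i (c t))).hasFDerivAt.comp_hasDerivWithinAt t d1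
  have d4 := d3.derivWithin hu
  have d5 : derivWithin (fun t => S (d.i (c t))) (Icc 0 1) t =
    fderiv ℝ S (d.i (c t)) (d.D (c t) u) := d4
  rw [d5]
  have h6 : ‖mfderivWithin 𝓘(ℝ, ℝ) 𝓘(ℝ, E) c (Icc 0 1) t (1 : ℝ)‖ₑ =
    ENNReal.ofReal (Real.sqrt (d.B (d.i (c t)) (d.D (c t) u) (d.D (c t) u))) := by
    rw [← ofReal_norm, norm_eq_sqrt_real_inner]
    rfl
  refine le_trans ?_ (le_of_eq h6.symm)
  rw [← ofReal_norm]
  apply ENNReal.ofReal_le_ofReal
  rw [Real.norm_eq_abs]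
  apply Real.le_sqrt_of_sq_le
  rw [sq_abs]
  exact hb _ _

lemma lower_dist (S : E → ℝ) (hS : ContDiff ℝ 1 S)
    (hb : ∀ x v, (fderiv ℝ S x v) ^ 2 ≤ d.B x v v) (x y : M) :
    |S (d.i x) - S (d.i y)| ≤ (d.mM).dist x y := by
  have h := d.lower S hS hb x y
  rw [← edist_mM] at h
  rw [← Real.dist_eq]
  have h2 : edist (S (d.i x)) (S (d.i y)) ≤
    @edist _ (d.mM).toPseudoMetricSpace.toPseudoEMetricSpace.toEDist x y := h
  rw [edist_dist, @edist_dist _ (d.mM).toPseudoMetricSpace] at h2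
  exact (ENNReal.ofReal_le_ofReal_iff (@dist_nonneg _ (d.mM).toPseudoMetricSpace _ _)).1 h2

theorem complete_of (S : ℕ → E → ℝ) (hS : ∀ j, ContDiff ℝ 1 (S j))
    (hb : ∀ j x v, (fderiv ℝ (S j) x v) ^ 2 ≤ d.B x v v) (K : ℕ → Set E)
    (hK : ∀ j, IsCompact (K j)) (h0 : ∀ x, ∃ j, S j x = 0 ∧ ∀ y, S j y < 1 → y ∈ K j) :
    @CompleteSpace M (d.mM).toPseudoMetricSpace.toUniformSpace := by
  letI := d.mM
  apply Metric.complete_of_cauchySeq_tendsto
  intro u hu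
  obtain ⟨N, hN⟩ := Metric.cauchySeq_iff'.1 hu 1 one_pos
  obtain ⟨j, hj0, hj1⟩ := h0 (d.i (u N))
  have hmem : ∀ n ≥ N, u n ∈ d.i.symm '' K j := by
    intro n hn
    have h1 := d.lower_dist (S j) (hS j) (hb j) (u n) (u N)
    have h2 : dist (u n) (u N) < 1 := hN n hn
    have h3 : |S j (d.i (u n)) - S j (d.i (u N))| < 1 := lt_of_le_of_lt h1 h2
    rw [hj0, sub_zero, abs_lt] at h3
    exact ⟨d.i (u n), hj1 _ h3.2, d.i.symm_apply_apply _⟩
  have hc : IsCompact (d.i.symm '' K j) := (hK j).image d.i.symm.continuous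
  have h4 : ∀ n, u (n + N) ∈ d.i.symm '' K j := fun n => hmem _ (Nat.le_add_left N n)
  obtain ⟨a, -, φ, hφ, ha⟩ := hc.tendsto_subseq h4
  refine ⟨a, ?_⟩
  have h5 : Tendsto (fun n => φ n + N) atTop atTop :=
    tendsto_atTop_mono (fun n => Nat.le_add_right _ _) hφ.tendsto_atTop
  exact tendsto_nhds_of_cauchySeq_of_subseq hu h5 ha

end RData

end Pool.Agent.Helper536.LK
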