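import Pool.Agent.Helper536.LK.Defs

open scoped ContDiff Topology
open Set Metric

noncomputable section

namespace Pool.Agent.Helper536.LK

section
variable {E F : Type*} [NormedAddCommGroup E] [InnerProductSpace ℂ E]
    [NormedAddCommGroup F] [InnerProductSpace ℂ F]

/-- the exhaustion of `Om` -/
def uu (D : Dec E F) (y : E) : ℝ := ‖y‖ ^ 2 - Real.log ‖D.Z y‖

open Classical in
/-- the extended potential -/
def kfun (D : Dec E F) (χ M : ℝ → ℝ) (m₀ c₀ C : ℝ) (φ₁ : E → ℝ) (y : E) : ℝ :=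
  if D.Z y = 0 then C * (‖y‖ ^ 2 - c₀ - m₀)
  else χ (uu D y - c₀) * φ₁ y + C * (M (uu D y - c₀) + Real.log ‖D.Z y‖)

/-- the overshear -/
def ovr (D : Dec E F) (a : F) (G : F → ℂ) (t : ℝ) (v : E) : E :=
  D.i (a + Complex.exp (-(t * (G (D.X v) / D.Z v))) • (D.X v - a)) +
    (D.Z v / G (D.X v) * G (a + Complex.exp (-(t * (G (D.X v) / D.Z v))) • (D.X v - a))) • D.e

/-- Gaussian weights -/
def gau (lam : ℝ) (a : F) (r : ℝ) (x : F) : ℂ :=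
  Complex.exp (lam * (2 * inner ℂ a x - (‖a‖ ^ 2 : ℝ) + (r ^ 2 : ℝ)))

/-- the region near the graph over a ball -/
def Sreg (D : Dec E F) (lam : ℝ) (a : F) (r s η : ℝ) : Set E :=
  {v | v ∈ D.Om ∧ ‖D.X v - a‖ ≤ s ∧ ‖D.Z v / gau lam a r (D.X v) - 1‖ ≤ η}

end

/-- Kallin data for holomorphic functions -/
def Kallin (n : ℕ) : Prop :=
  ∃ (k : ℕ) (c : Fin k → EuclideanSpace ℂ (Fin n)) (r : Fin k → ℝ)
    (q : EuclideanSpace ℂ (Fin n)) (Λ : ℝ), (∀ i, 0 < r i) ∧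
    (∀ i j, i ≠ j → r i + r j < ‖c i - c j‖) ∧ (∀ i, r i < ‖q - c i‖) ∧
    ∀ f : EuclideanSpace ℂ (Fin n) → ℂ, (∀ x, ‖x‖ ≤ Λ → DifferentiableAt ℂ f x) →
      ∃ i, ∃ y, ‖y - c i‖ ≤ r i ∧ ‖f q‖ ≤ ‖f y‖

end Pool.Agent.Helper536.LK
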