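import Mathlib

/-! The definitions used by the statement: complete Kaehler manifolds. -/

open Bundle Manifold
open scoped ContDiff Manifold

noncomputable section

namespace Pool.Agent.Helper536.LK.St

section
variable {E M : Type} [NormedAddCommGroup E] [NormedSpace ℂ E] [NormedSpace ℝ E]
  [TopologicalSpace M] [ChartedSpace E M]

/-- multiplication by `i` on the real tangent spaces of a complex manifold -/
def J (x : M) (v : TangentSpace 𝓘(ℝ, E) x) : TangentSpace 𝓘(ℝ, E) x :=
  let u : E := v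
  (Complex.I • u : E)

/-- the inverse of the chart at `x₀` -/
def chartInv (x₀ : M) : E → M := (chartAt E x₀).symm

/-- the derivative of the inverse of the chart at `x₀`, at the point `y` of `E`, applied to `v` -/
def push (x₀ : M) (y v : E) : TangentSpace 𝓘(ℝ, E) (chartInv x₀ y) :=
  mfderiv 𝓘(ℝ, E) 𝓘(ℝ, E) (chartInv x₀) y v

variable [RiemannianBundle (fun x : M => TangentSpace 𝓘(ℝ, E) x)]

/-- the Riemannian metric -/
def met (x : M) (v w : TangentSpace 𝓘(ℝ, E) x) : ℝ := inner ℝ v w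

/-- the two-form `ω(v,w) = ⟨iv,w⟩`, pulled back to `E` by the inverse of the chart at `x₀` -/
def omega (x₀ : M) (y v w : E) : ℝ := met _ (J _ (push x₀ y v)) (push x₀ y w)

/-- `ω` is closed: in the chart at `x₀`, `∂_u ω(v,w) + ∂_v ω(w,u) + ∂_w ω(u,v) = 0` for constant
fields `u`, `v`, `w` -/
def OmegaClosed (x₀ : M) : Prop :=
  ∀ y ∈ (chartAt E x₀).target, ∀ u v w : E,
    fderiv ℝ (fun y' => omega x₀ y' v w) y u + fderiv ℝ (fun y' => omega x₀ y' w u) y v +
      fderiv ℝ (fun y' => omega x₀ y' u v) y w = 0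

end

/-- Kaehler metrics: `i` is an isometry of the tangent spaces and the two-form
`ω(v,w) = ⟨iv,w⟩` is smooth and closed -/
structure IsKaehler (E M : Type) [NormedAddCommGroup E] [NormedSpace ℂ E] [NormedSpace ℝ E]
    [TopologicalSpace M] [ChartedSpace E M]
    [RiemannianBundle (fun x : M => TangentSpace 𝓘(ℝ, E) x)] : Prop where
  hermitian : ∀ (x : M) (v w : TangentSpace 𝓘(ℝ, E) x), met x (J x v) (J x w) = met x v w
  smooth : ∀ (x₀ : M) (v w : E),
    ContDiffOn ℝ ∞ (fun y => omega x₀ y v w) (chartAt E x₀).target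
  closed : ∀ x₀ : M, OmegaClosed (E := E) x₀

/-- `M` is a complex manifold and its distance is the Riemannian distance of a smooth Kaehler
metric -/
def KaehlerDist (E M : Type) [NormedAddCommGroup E] [NormedSpace ℂ E] [NormedSpace ℝ E]
    [MetricSpace M] [ChartedSpace E M] : Prop :=
  IsManifold 𝓘(ℂ, E) ω M ∧
  ∃ (_ : IsManifold 𝓘(ℝ, E) ∞ M) (_ : RiemannianBundle (fun x : M => TangentSpace 𝓘(ℝ, E) x)),
    IsContMDiffRiemannianBundle 𝓘(ℝ, E) ∞ E (fun x : M => TangentSpace 𝓘(ℝ, E) x) ∧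
    IsRiemannianManifold 𝓘(ℝ, E) M ∧ IsKaehler E M

/-- `M` is `C^∞` diffeomorphic to the real normed space `F` -/
def DiffeoTo (E M F : Type) [NormedAddCommGroup E] [NormedSpace ℝ E] [TopologicalSpace M]
    [ChartedSpace E M] [NormedAddCommGroup F] [NormedSpace ℝ F] : Prop :=
  Nonempty (Diffeomorph 𝓘(ℝ, E) 𝓘(ℝ, F) M F ∞)

end Pool.Agent.Helper536.LK.St
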